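import Mathlib
import Pool.Prelude.Def_F_458e953d

set_option autoImplicit false

namespace Pool.Agent.Lib.MP_42f8a6_lc

/-- arithmetic expressions with leaves in `A` -/
inductive Tm (A : Type)
  | leaf (a : A)
  | add (s t : Tm A)
  | mul (s t : Tm A)

/-- quantifier-free formulas -/
inductive Fm (A : Type)
  | eq (s t : Tm A)
  | lt (s t : Tm A)
  | not (p : Fm A)
  | and (p q : Fm A)
  | or (p q : Fm A)

def Tm.eval {A : Type} (v : A → ℝ) : Tm A → ℝ
  | .leaf a => v a
  | .add s t => s.eval v + t.eval v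
  | .mul s t => s.eval v * t.eval v

def Fm.Holds {A : Type} (v : A → ℝ) : Fm A → Prop
  | .eq s t => s.eval v = t.eval v
  | .lt s t => s.eval v < t.eval v
  | .not p => ¬ p.Holds v
  | .and p q => p.Holds v ∧ q.Holds v
  | .or p q => p.Holds v ∨ q.Holds v

/-- Polish notation; `c` spells the leaves -/
def Tm.toks {A : Type} (c : A → ℕ × ℤ) : Tm A → List (ℕ × ℤ)
  | .leaf a => [c a]
  | .add s t => (2, 0) :: (s.toks c ++ t.toks c)
  | .mul s t => (3, 0) :: (s.toks c ++ t.toks c)

def Fm.toks {A : Type} (c : A → ℕ × ℤ) : Fm A → List (ℕ × ℤ)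
  | .eq s t => (4, 0) :: (s.toks c ++ t.toks c)
  | .lt s t => (5, 0) :: (s.toks c ++ t.toks c)
  | .not p => (6, 0) :: p.toks c
  | .and p q => (7, 0) :: (p.toks c ++ q.toks c)
  | .or p q => (8, 0) :: (p.toks c ++ q.toks c)

open Classical in
/-- the existential theory of the reals: variables `x_i`, constants `0` and `1` -/
noncomputable def etr : N68a2faeb.DecisionProblem := fun w =>
  decide (∃ p : Fm (ℕ ⊕ Bool),
    w = N487b59b3.bitEncode
      (p.toks (Sum.elim (fun i : ℕ => (0, (i : ℤ))) fun b : Bool => (1, if b then 1 else 0))) ∧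
    ∃ x : ℕ → ℝ, p.Holds (Sum.elim x fun b : Bool => if b then 1 else 0))

/-- `S` is guarded by some set of `k` of its points -/
def Guardable {d : ℕ} (S : Set (Fin d → ℝ)) (k : ℕ) : Prop :=
  ∃ G : Finset (Fin d → ℝ), G.card = k ∧ (G : Set (Fin d → ℝ)) ⊆ S ∧
    ∀ a ∈ S, ∃ g ∈ G, segment ℝ a g ⊆ S

open Classical in
/-- the art gallery problem for semialgebraic galleries in dimension `d` -/
noncomputable def gallery (d : ℕ) : N68a2faeb.DecisionProblem := fun w =>
  decide (∃ (k : ℕ) (p : Fm (Fin d ⊕ ℤ)),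
    w = N487b59b3.bitEncode (List.replicate k true,
      p.toks (Sum.elim (fun i : Fin d => (0, (i.val : ℤ))) fun c : ℤ => (1, c))) ∧
    Guardable {x : Fin d → ℝ | p.Holds (Sum.elim x fun c : ℤ => (c : ℝ))} k)

end Pool.Agent.Lib.MP_42f8a6_lc
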