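import Mathlib

/-! Delineation of the real roots of a family of polynomials along a path. -/

set_option autoImplicit false

namespace Pool.Agent.Lib.MP_42f8a6_lc

open Polynomial Filter Topology

/-- the distinct complex roots of a real polynomial -/
noncomputable def croots (p : ℝ[X]) : Finset ℂ := (p.aroots ℂ).toFinset

theorem mem_croots {p : ℝ[X]} {z : ℂ} : z ∈ croots p ↔ p ≠ 0 ∧ aeval z p = 0 := by
  simp [croots, mem_aroots]

theorem croots_mul {p q : ℝ[X]} (hp : p ≠ 0) (hq : q ≠ 0) :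
    croots (p * q) = croots p ∪ croots q := by
  ext z; simp [mem_croots, hp, hq]

theorem ofReal_mem_croots {p : ℝ[X]} (hp : p ≠ 0) {x : ℝ} :
    (x : ℂ) ∈ croots p ↔ p.eval x = 0 := by
  have : aeval (x : ℂ) p = ((p.eval x : ℝ) : ℂ) := aeval_ofReal (K := ℂ) p x
  simp [mem_croots, hp, this]

theorem conj_mem_croots {p : ℝ[X]} {z : ℂ} (h : z ∈ croots p) :
    (starRingEnd ℂ) z ∈ croots p := by
  rw [mem_croots] at h ⊢
  exact ⟨h.1, by rw [aeval_conj, h.2, map_zero]⟩

theorem root_near {P : ℝ → ℝ[X]} (hc : ∀ k, Continuous fun s => (P s).coeff k) {n : ℕ}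
    (hd : ∀ s, (P s).natDegree = n) (h0 : ∀ s, P s ≠ 0) {s1 : ℝ} {z : ℂ} (hz : z ∈ croots (P s1))
    {ε : ℝ} (hε : 0 < ε) : ∀ᶠ s in 𝓝 s1, ∃ w ∈ croots (P s), dist w z < ε := by
  have c1 : Continuous fun s => ‖aeval z (P s)‖ := by
    have : (fun s => aeval z (P s)) = fun s => ∑ i ∈ Finset.range (n + 1), (P s).coeff i • z ^ i := by
      funext s; rw [aeval_eq_sum_range, hd]
    rw [show (fun s => ‖aeval z (P s)‖) = fun s => ‖(fun s => aeval z (P s)) s‖ from rfl, this]
    fun_prop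
  have c2 : Continuous fun s => |(P s).coeff n| * ε ^ n := by fun_prop
  have hl : ∀ s, (P s).coeff n ≠ 0 := fun s => by
    rw [← hd s]; exact leadingCoeff_ne_zero.2 (h0 s)
  have h1 : ‖aeval z (P s1)‖ < |(P s1).coeff n| * ε ^ n := by
    rw [(mem_croots.1 hz).2, norm_zero]
    have := abs_pos.2 (hl s1)
    positivity
  filter_upwards [(c1.continuousAt.eventually_lt c2.continuousAt h1)] with s hs
  by_contra hcon
  push Not at hcon
  have hsp : ((P s).map (algebraMap ℝ ℂ)).Splits := IsAlgClosed.splits _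
  have e1 := hsp.eval_eq_prod_roots z
  rw [eval_map_algebraMap, leadingCoeff_map] at e1
  have e2 : ε ^ n ≤ ‖(((P s).map (algebraMap ℝ ℂ)).roots.map (z - ·)).prod‖ := by
    have hcard : ((P s).map (algebraMap ℝ ℂ)).roots.card = n := by
      rw [← hsp.natDegree_eq_card_roots, natDegree_map, hd]
    have hall : ∀ w ∈ ((P s).map (algebraMap ℝ ℂ)).roots, ε ≤ ‖z - w‖ := fun w hw => by
      have := hcon w (Multiset.mem_toFinset.2 hw)
      rwa [dist_comm, dist_eq_norm] at this
    rw [← hcard]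
    generalize ((P s).map (algebraMap ℝ ℂ)).roots = m at hall
    induction m using Multiset.induction_on with
    | empty => simp
    | cons a m ih =>
      simp only [Multiset.card_cons, Multiset.map_cons, Multiset.prod_cons, norm_mul, pow_succ]
      rw [mul_comm]
      exact mul_le_mul (hall a (by simp)) (ih fun w hw => hall w (by simp [hw])) (by positivity)
        (norm_nonneg _)
  rw [e1, norm_mul, leadingCoeff, hd] at hs
  have : ‖(algebraMap ℝ ℂ) ((P s).coeff n)‖ = |(P s).coeff n| := by simp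
  rw [this] at hs
  have := mul_le_mul_of_nonneg_left e2 (abs_nonneg ((P s).coeff n))
  linarith

theorem surj_of_near {A0 A : Finset ℂ} {ε : ℝ} (hcard : A.card = A0.card)
    (hsep : ∀ z ∈ A0, ∀ w ∈ A0, dist z w < 2 * ε → z = w)
    (hnear : ∀ z ∈ A0, ∃ w ∈ A, dist w z < ε) :
    ∃ f : ℂ → ℂ, (∀ z ∈ A0, dist (f z) z < ε) ∧ ∀ w ∈ A, ∃ z ∈ A0, f z = w := by
  classical
  choose! f hf using hnear
  refine ⟨f, fun z hz => (hf z hz).2, fun w hw => ?_⟩
  have hinj : Set.InjOn f A0 := fun z hz z' hz' e => hsep z hz z' hz' (by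
    have h1 := (hf z hz).2
    have h2 := (hf z' hz').2
    rw [e] at h1
    have := dist_triangle_left z z' (f z')
    linarith)
  have : A0.image f = A := Finset.eq_of_subset_of_card_le
    (fun w hw => by obtain ⟨z, hz, rfl⟩ := Finset.mem_image.1 hw; exact (hf z hz).1)
    (by rw [Finset.card_image_of_injOn hinj, hcard])
  rw [← this] at hw
  exact Finset.mem_image.1 hw

theorem delin' {ι : Type} [Finite ι] (P : ι → ℝ → ℝ[X])
    (hc : ∀ j k, Continuous fun s => (P j s).coeff k)
    (hd : ∀ j s s', (P j s).natDegree = (P j s').natDegree) (h0 : ∀ j s, P j s ≠ 0)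
    (hn : ∀ j j' s s', (croots (P j s * P j' s)).card = (croots (P j s' * P j' s')).card)
    (Q : ℝ → ℝ → Prop)
    (hQ : ∀ σ η : ℝ → ℝ, Continuous σ → Continuous η →
      (∀ j s s', (P j (σ s)).eval (η s) = 0 → (P j (σ s')).eval (η s') = 0) →
      Q (σ 0) (η 0) → Q (σ 1) (η 1)) (s s' : ℝ) : (∀ y, Q s y) → ∀ y, Q s' y := by
  classical
  cases nonempty_fintype ι
  suffices H : IsLocallyConstant fun s => ∀ y, Q s y by
    intro h; rwa [← H.apply_eq_of_preconnectedSpace s s']
  rw [IsLocallyConstant.iff_eventually_eq]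
  intro s0
  set Z : Finset ℂ := Finset.univ.biUnion fun j => croots (P j s0) with hZ
  have memZ : ∀ {j z}, z ∈ croots (P j s0) → z ∈ Z := fun {j z} h =>
    Finset.mem_biUnion.2 ⟨j, Finset.mem_univ _, h⟩
  obtain ⟨ε, hsep, hε⟩ : ∃ ε : ℝ, (∀ z ∈ Z, ∀ w ∈ Z, dist z w ≤ 2 * ε → z = w) ∧ 0 < ε := by
    have : ∀ᶠ ε in 𝓝[>] (0 : ℝ), ∀ z ∈ Z, ∀ w ∈ Z, dist z w ≤ 2 * ε → z = w := by
      simp only [eventually_all_finset]
      intro z _ w _
      by_cases e : z = w
      · exact Eventually.of_forall fun _ _ => e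
      · have hpos : (fun ε : ℝ => 2 * ε) 0 < dist z w := by simpa using dist_pos.2 e
        have := ((by fun_prop : Continuous fun ε : ℝ => 2 * ε).continuousAt.eventually_lt
          continuousAt_const hpos).filter_mono (nhdsWithin_le_nhds (s := Set.Ioi 0))
        filter_upwards [this] with ε h1 h2
        linarith
    exact (this.and self_mem_nhdsWithin).exists
  have hE : ∀ᶠ s in 𝓝 s0, ∀ j, ∀ z ∈ croots (P j s0), ∃ w ∈ croots (P j s), dist w z < ε := by
    simp only [eventually_all, eventually_all_finset]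
    intro j z hz
    exact root_near (hc j) (fun s => hd j s s0) (h0 j) hz hε
  obtain ⟨δ, hδ, hE⟩ : ∃ δ > 0, ∀ s, |s - s0| ≤ δ →
      ∀ j, ∀ z ∈ croots (P j s0), ∃ w ∈ croots (P j s), dist w z < ε := by
    obtain ⟨δ, hδ, h⟩ := Metric.eventually_nhds_iff.1 hE
    exact ⟨δ / 2, by linarith, fun s hs => h (by rw [Real.dist_eq]; linarith)⟩
  have pair : ∀ s, |s - s0| ≤ δ → ∀ j j', ∃ f : ℂ → ℂ,
      (∀ z ∈ croots (P j s0) ∪ croots (P j' s0), dist (f z) z < ε) ∧
      ∀ w ∈ croots (P j s) ∪ croots (P j' s), ∃ z ∈ croots (P j s0) ∪ croots (P j' s0), f z = w := by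
    intro s hs j j'
    refine surj_of_near ?_ ?_ ?_
    · rw [← croots_mul (h0 _ _) (h0 _ _), ← croots_mul (h0 _ _) (h0 _ _)]; exact hn j j' s s0
    · intro z hz w hw h
      refine hsep z ?_ w ?_ h.le
      · rcases Finset.mem_union.1 hz with h | h <;> exact memZ h
      · rcases Finset.mem_union.1 hw with h | h <;> exact memZ h
    · intro z hz
      rcases Finset.mem_union.1 hz with h | h
      · obtain ⟨w, hw, hd⟩ := hE s hs j z h
        exact ⟨w, Finset.mem_union_left _ hw, hd⟩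
      · obtain ⟨w, hw, hd⟩ := hE s hs j' z h
        exact ⟨w, Finset.mem_union_right _ hw, hd⟩
  have U1 : ∀ s, |s - s0| ≤ δ → ∀ j, ∀ w ∈ croots (P j s), ∃ z ∈ croots (P j s0), dist w z < ε := by
    intro s hs j w hw
    obtain ⟨f, hf1, hf2⟩ := pair s hs j j
    obtain ⟨z, hz, rfl⟩ := hf2 w (by simpa using hw)
    exact ⟨z, by simpa using hz, hf1 z hz⟩
  have U2 : ∀ s, |s - s0| ≤ δ → ∀ j j', ∀ w ∈ croots (P j s), ∀ w' ∈ croots (P j' s), ∀ z ∈ Z,
      dist w z < ε → dist w' z < ε → w = w' := by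
    intro s hs j j' w hw w' hw' z hz h1 h2
    obtain ⟨f, hf1, hf2⟩ := pair s hs j j'
    obtain ⟨z1, hz1, rfl⟩ := hf2 w (Finset.mem_union_left _ hw)
    obtain ⟨z2, hz2, rfl⟩ := hf2 w' (Finset.mem_union_right _ hw')
    have m1 : z1 ∈ Z := by rcases Finset.mem_union.1 hz1 with h | h <;> exact memZ h
    have m2 : z2 ∈ Z := by rcases Finset.mem_union.1 hz2 with h | h <;> exact memZ h
    have e1 : z1 = z := hsep z1 m1 z hz (by
      have := dist_triangle_left z1 z (f z1); linarith [hf1 z1 hz1])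
    have e2 : z2 = z := hsep z2 m2 z hz (by
      have := dist_triangle_left z2 z (f z2); linarith [hf1 z2 hz2])
    rw [e1, e2]
  have far : ∀ s, |s - s0| ≤ δ → ∀ y : ℝ, (∀ x : ℝ, (x : ℂ) ∈ Z → ε ≤ |y - x|) →
      ∀ j, (P j s).eval y ≠ 0 := by
    intro s hs y hy j h
    obtain ⟨z, hz, hd⟩ := U1 s hs j y ((ofReal_mem_croots (h0 _ _)).2 h)
    have hcz : z = (starRingEnd ℂ) z := hsep z (memZ hz) _ (memZ (conj_mem_croots hz)) (by
      have h1 : dist (y : ℂ) ((starRingEnd ℂ) z) = dist (y : ℂ) z := by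
        rw [← Complex.dist_conj_conj]; simp
      have := dist_triangle_left z ((starRingEnd ℂ) z) (y : ℂ)
      linarith)
    obtain ⟨x, rfl⟩ := Complex.conj_eq_iff_real.1 hcz.symm
    have := hy x (memZ hz)
    rw [Complex.dist_of_im_eq (by simp), Real.dist_eq] at hd
    simp at hd; linarith
  have root : ∀ x : ℝ, (x : ℂ) ∈ Z → ∀ s, |s - s0| ≤ δ → ∃ ξ : ℝ, |ξ - x| < ε ∧
      (∃ j, (ξ : ℂ) ∈ croots (P j s)) ∧
      (∀ j, ∀ w ∈ croots (P j s), dist w x < ε → w = ξ) ∧
      ∀ j, ∀ y : ℝ, |y - x| ≤ ε → ((P j s).eval y = 0 ↔ y = ξ ∧ (P j s0).eval x = 0) := by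
    intro x hx s hs
    obtain ⟨j0, _, hj0⟩ := Finset.mem_biUnion.1 hx
    obtain ⟨w, hw, hd⟩ := hE s hs j0 x hj0
    have hcw : (starRingEnd ℂ) w = w := U2 s hs j0 j0 _ (conj_mem_croots hw) w hw x hx (by
      rw [← Complex.dist_conj_conj]; simpa using hd) hd
    obtain ⟨ξ, rfl⟩ := Complex.conj_eq_iff_real.1 hcw
    have dre : ∀ a b : ℝ, dist (a : ℂ) (b : ℂ) = |a - b| := fun a b => by
      rw [Complex.dist_of_im_eq (by simp), Real.dist_eq]; simp
    refine ⟨ξ, by rwa [dre] at hd, ⟨j0, hw⟩,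
      fun j w' hw' h => U2 s hs j j0 w' hw' _ hw x hx h hd, fun j y hy => ⟨fun h => ?_, ?_⟩⟩
    · have hy' := (ofReal_mem_croots (h0 _ _)).2 h
      obtain ⟨z, hz, hdz⟩ := U1 s hs j y hy'
      have e : z = x := hsep z (memZ hz) x hx (by
        have := dist_triangle_left z (x : ℂ) (y : ℂ)
        rw [dre y x] at this; linarith)
      subst e
      exact ⟨Complex.ofReal_injective (U2 s hs j j0 _ hy' _ hw _ hx hdz hd),
        (ofReal_mem_croots (h0 _ _)).1 hz⟩
    · rintro ⟨rfl, h⟩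
      obtain ⟨w', hw', hd'⟩ := hE s hs j x ((ofReal_mem_croots (h0 _ _)).2 h)
      rw [U2 s hs j j0 w' hw' _ hw x hx hd' hd] at hw'
      exact (ofReal_mem_croots (h0 _ _)).1 hw'
  set c : ℝ → ℝ := fun s => max (s0 - δ) (min s (s0 + δ)) with hcdef
  have cc : Continuous c := by fun_prop
  have cJ : ∀ s, |c s - s0| ≤ δ := fun s => by
    rw [abs_le]
    constructor
    · have := le_max_left (s0 - δ) (min s (s0 + δ)); simp only [hcdef]; linarith
    · have : c s ≤ s0 + δ := max_le (by linarith) (min_le_right _ _)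
      linarith
  have cid : ∀ s, |s - s0| ≤ δ → c s = s := fun s hs => by
    rw [abs_le] at hs
    simp only [hcdef]
    rw [min_eq_left (by linarith), max_eq_right (by linarith)]
  have main : ∀ s1 s2, |s1 - s0| ≤ δ → |s2 - s0| ≤ δ → (∀ y, Q s1 y) → ∀ y, Q s2 y := by
    intro s1 s2 h1 h2 H
    set σ : ℝ → ℝ := fun t => c (s1 + t * (s2 - s1)) with hσ
    have σc : Continuous σ := by fun_prop
    have σ0 : σ 0 = s1 := by simp [hσ, cid s1 h1]
    have σ1 : σ 1 = s2 := by simp [hσ, cid s2 h2]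
    have moveH : ∀ y : ℝ, (∀ x : ℝ, (x : ℂ) ∈ Z → ε ≤ |y - x|) → Q s2 y := by
      intro y hy
      have := hQ σ (fun _ => y) σc continuous_const
        (fun j s s' h => absurd h (far _ (cJ _) y hy j)) (by rw [σ0]; exact H y)
      rwa [σ1] at this
    intro y
    by_cases hy : ∀ x : ℝ, (x : ℂ) ∈ Z → ε ≤ |y - x|
    · exact moveH y hy
    push Not at hy
    obtain ⟨x, hx, hyx⟩ := hy
    choose ξ hξ1 hξ2 hξ3 hξ4 using fun s => root x hx (c s) (cJ s)
    have ξc : Continuous ξ := by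
      rw [continuous_iff_continuousAt]
      intro t
      rw [Metric.continuousAt_iff']
      intro ε' hε'
      obtain ⟨j, hj⟩ := hξ2 t
      have h3 := root_near (hc j) (fun s => hd j s s0) (h0 j) hj
        (ε := min ε' (ε - |ξ t - x|)) (lt_min hε' (by linarith [hξ1 t]))
      filter_upwards [cc.continuousAt.eventually h3] with t' ⟨w, hw, hd'⟩
      have h4 : dist ((ξ t : ℝ) : ℂ) (x : ℂ) = |ξ t - x| := by
        rw [Complex.dist_of_im_eq (by simp), Real.dist_eq]; simp
      have h5 := hξ3 t' j w hw (by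
        have := dist_triangle w (ξ t : ℂ) (x : ℂ)
        have := min_le_right ε' (ε - |ξ t - x|)
        linarith)
      rw [h5, Complex.dist_of_im_eq (by simp)] at hd'
      exact lt_of_lt_of_le (by simpa using hd') (min_le_left _ _)
    have cs2 := cid s2 h2
    by_cases hyξ : y = ξ s2
    · have := hQ σ (fun t => ξ (s1 + t * (s2 - s1))) σc (by fun_prop)
        (fun j s s' h => by
          rw [hσ] at h ⊢
          exact (hξ4 _ j _ (hξ1 _).le).2 ⟨rfl, ((hξ4 _ j _ (hξ1 _).le).1 h).2⟩)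
        (by rw [σ0]; exact H _)
      rw [σ1] at this
      simpa [hyξ] using this
    · have moveV : ∀ y0 : ℝ, |y0 - x| = ε → (∀ u, 0 ≤ u → u ≤ 1 → y0 + u * (y - y0) ≠ ξ s2) →
          Q s2 y := by
        intro y0 hy0 hne
        have hfar : ∀ x' : ℝ, (x' : ℂ) ∈ Z → ε ≤ |y0 - x'| := by
          intro x' hx'
          by_contra hlt
          have e : (x : ℂ) = x' := hsep _ hx _ hx' (by
            rw [Complex.dist_of_im_eq (by simp), Real.dist_eq]
            have := abs_sub_le x y0 x'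
            rw [abs_sub_comm x y0] at this
            simp; linarith)
          rw [← Complex.ofReal_injective e] at hlt
          linarith
        have := hQ (fun _ => s2) (fun t => y0 + max 0 (min t 1) * (y - y0)) continuous_const
          (by fun_prop) (fun j s s' h => by
            exfalso
            have u0 : 0 ≤ max 0 (min s 1) := le_max_left _ _
            have u1 : max 0 (min s 1) ≤ 1 := max_le zero_le_one (min_le_right _ _)
            generalize max 0 (min s 1) = u at h u0 u1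
            have h6 := hξ4 s2 j (y0 + u * (y - y0)) (by
              have e : y0 + u * (y - y0) - x = (1 - u) * (y0 - x) + u * (y - x) := by ring
              rw [e]
              have := abs_add_le ((1 - u) * (y0 - x)) (u * (y - x))
              rw [abs_mul, abs_mul, abs_of_nonneg u0, abs_of_nonneg (by linarith : 0 ≤ 1 - u),
                hy0] at this
              nlinarith)
            rw [cs2] at h6
            exact hne u u0 u1 (h6.1 h).1)
          (by simpa using moveH y0 hfar)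
        simpa using this
      have hξ := abs_lt.1 (hξ1 s2)
      have hy := abs_lt.1 hyx
      rcases lt_or_gt_of_ne hyξ with h | h
      · refine moveV (x - ε) (by simp [abs_of_pos hε]) fun u u0 u1 => ne_of_lt ?_
        nlinarith
      · refine moveV (x + ε) (by simp [abs_of_pos hε]) fun u u0 u1 => ne_of_gt ?_
        nlinarith
  have : ∀ᶠ s in 𝓝 s0, |s - s0| ≤ δ := by
    filter_upwards [Metric.closedBall_mem_nhds s0 hδ] with s hs
    simpa [Real.dist_eq] using hs
  filter_upwards [this] with s hs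
  have hs0 : |s0 - s0| ≤ δ := by simpa using hδ.le
  exact propext ⟨main s s0 hs hs0, main s0 s hs0 hs⟩

theorem delin {ι : Type} [Finite ι] (P : ι → ℝ → ℝ[X])
    (hc : ∀ j k, Continuous fun s => (P j s).coeff k)
    (hv : ∀ j k s s', (P j s).coeff k = 0 → (P j s').coeff k = 0)
    (hn : ∀ j j' s s', P j s ≠ 0 → P j' s ≠ 0 →
      (croots (P j s * P j' s)).card = (croots (P j s' * P j' s')).card)
    (Q : ℝ → ℝ → Prop)
    (hQ : ∀ σ η : ℝ → ℝ, Continuous σ → Continuous η →
      (∀ j s s', (P j (σ s)).eval (η s) = 0 → (P j (σ s')).eval (η s') = 0) →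
      Q (σ 0) (η 0) → Q (σ 1) (η 1)) (s s' : ℝ) : (∀ y, Q s y) → ∀ y, Q s' y := by
  have hz : ∀ j s s', P j s = 0 → P j s' = 0 := fun j s s' h =>
    Polynomial.ext fun k => hv j k s s' (by simp [h])
  have hsupp : ∀ j s s', (P j s).support = (P j s').support := fun j s s' => by
    ext k
    simp only [mem_support_iff]
    exact not_congr ⟨hv j k s s', hv j k s' s⟩
  refine delin' (ι := {j // P j 0 ≠ 0}) (fun j => P j.1) (fun j => hc j.1)
    (fun j s s' => by simp only [natDegree, degree, hsupp j.1 s s'])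
    (fun j s h => j.2 (hz _ _ _ h))
    (fun j j' s s' => hn _ _ _ _ (fun h => j.2 (hz _ _ _ h)) fun h => j'.2 (hz _ _ _ h)) Q
    (fun σ η h1 h2 h3 => hQ σ η h1 h2 fun j t t' h => ?_) s s'
  by_cases hj : P j 0 = 0
  · simp [hz j 0 (σ t') hj]
  · exact h3 ⟨j, hj⟩ t t' h

end Pool.Agent.Lib.MP_42f8a6_lc
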