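import Pool.Agent.Lib.MP_42f8a6_lc.Syntax

/-! Predicates defined by polynomial time computable existential formulas over the reals. -/

set_option autoImplicit false
set_option linter.unusedSimpArgs false

namespace Pool.Agent.Lib.MP_42f8a6_lc

open Pool.Agent.Lib.Complexity Function

abbrev TT (V : Type) := Tm (V ⊕ ℤ)
abbrev FF (V : Type) := Fm (V ⊕ ℤ)

instance {V : Type} : Inhabited (V ⊕ ℤ) := ⟨.inr 0⟩

variable {V W α β : Type}

def val (ν : V → ℝ) : V ⊕ ℤ → ℝ := Sum.elim ν fun c : ℤ => (c : ℝ)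

/-- value of a term -/
def ev (ν : V → ℝ) (t : TT V) : ℝ := t.eval (val ν)
/-- truth of a formula -/
def sat (ν : V → ℝ) (p : FF V) : Prop := p.Holds (val ν)

def tv (v : V) : TT V := .leaf (.inl v)
def tc (c : ℤ) : TT V := .leaf (.inr c)
def tn (n : ℕ) : TT V := tc n
def tsub (s t : TT V) : TT V := .add s (.mul (tc (-1)) t)
def tsum (l : List β) (f : β → TT V) : TT V := (l.map f).foldr .add (tc 0)
def tprod (l : List β) (f : β → TT V) : TT V := (l.map f).foldr .mul (tc 1)
def tpow (t : TT V) (n : ℕ) : TT V := tprod (List.range n) fun _ => t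
def tsb (σ : V → TT W) (t : TT V) : TT W := t.bind (Sum.elim σ tc)
def fsb (σ : V → TT W) (p : FF V) : FF W := p.bind (Sum.elim σ tc)
def tru : FF V := .eq (tc 0) (tc 0)
def fls : FF V := .lt (tc 0) (tc 0)
def fall (l : List β) (f : β → FF V) : FF V := (l.map f).foldr .and tru
def fex (l : List β) (f : β → FF V) : FF V := (l.map f).foldr .or fls

section sem
variable (ν : V → ℝ)

@[simp] theorem ev_tv (v : V) : ev ν (tv v) = ν v := rfl
@[simp] theorem ev_tc (c : ℤ) : ev ν (tc c) = c := rfl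
@[simp] theorem ev_tn (n : ℕ) : ev ν (tn n) = n := by simp [tn]
@[simp] theorem ev_add (s t : TT V) : ev ν (.add s t) = ev ν s + ev ν t := rfl
@[simp] theorem ev_mul (s t : TT V) : ev ν (.mul s t) = ev ν s * ev ν t := rfl
@[simp] theorem ev_tsub (s t : TT V) : ev ν (tsub s t) = ev ν s - ev ν t := by
  simp [tsub]; ring
theorem ev_tsum (l : List β) (f : β → TT V) :
    ev ν (tsum l f) = (l.map fun b => ev ν (f b)).sum := by
  induction l with
  | nil => simp [tsum]
  | cons b l ih => simp only [tsum] at ih; simp [tsum, ih]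
theorem ev_tprod (l : List β) (f : β → TT V) :
    ev ν (tprod l f) = (l.map fun b => ev ν (f b)).prod := by
  induction l with
  | nil => simp [tprod]
  | cons b l ih => simp only [tprod] at ih; simp [tprod, ih]
@[simp] theorem ev_tsum_range (n : ℕ) (f : ℕ → TT V) :
    ev ν (tsum (List.range n) f) = ∑ i ∈ Finset.range n, ev ν (f i) := by
  rw [ev_tsum]; rfl
@[simp] theorem ev_tprod_range (n : ℕ) (f : ℕ → TT V) :
    ev ν (tprod (List.range n) f) = ∏ i ∈ Finset.range n, ev ν (f i) := by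
  rw [ev_tprod]; rfl
@[simp] theorem ev_tpow (t : TT V) (n : ℕ) : ev ν (tpow t n) = ev ν t ^ n := by simp [tpow]
@[simp] theorem ev_ite (p : Prop) [Decidable p] (s t : TT V) :
    ev ν (if p then s else t) = if p then ev ν s else ev ν t := by split_ifs <;> rfl

theorem val_sb (σ : W → TT V) :
    (fun a => Tm.eval (val ν) (Sum.elim σ tc a)) = val fun w => ev ν (σ w) := by
  funext a; cases a <;> rfl
@[simp] theorem ev_tsb (σ : W → TT V) (t : TT W) :
    ev ν (tsb σ t) = ev (fun w => ev ν (σ w)) t := by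
  simp only [ev, tsb, Tm.eval_bind, val_sb]
@[simp] theorem sat_fsb (σ : W → TT V) (p : FF W) :
    sat ν (fsb σ p) ↔ sat (fun w => ev ν (σ w)) p := by
  simp only [sat, fsb, Fm.holds_bind, val_sb]
@[simp] theorem sat_eq (s t : TT V) : sat ν (.eq s t) ↔ ev ν s = ev ν t := Iff.rfl
@[simp] theorem sat_lt (s t : TT V) : sat ν (.lt s t) ↔ ev ν s < ev ν t := Iff.rfl
@[simp] theorem sat_not (p : FF V) : sat ν (.not p) ↔ ¬ sat ν p := Iff.rfl
@[simp] theorem sat_and (p q : FF V) : sat ν (.and p q) ↔ sat ν p ∧ sat ν q := Iff.rfl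
@[simp] theorem sat_or (p q : FF V) : sat ν (.or p q) ↔ sat ν p ∨ sat ν q := Iff.rfl
@[simp] theorem sat_tru : sat ν tru := by simp [tru]
@[simp] theorem sat_fls : ¬ sat ν fls := by simp [fls]
@[simp] theorem sat_fall (l : List β) (f : β → FF V) :
    sat ν (fall l f) ↔ ∀ b ∈ l, sat ν (f b) := by
  induction l with
  | nil => simp [fall]
  | cons b l ih => simp only [fall] at ih; simp [fall, ih]
@[simp] theorem sat_fex (l : List β) (f : β → FF V) :
    sat ν (fex l f) ↔ ∃ b ∈ l, sat ν (f b) := by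
  induction l with
  | nil => simp [fex]
  | cons b l ih => simp only [fex] at ih; simp [fex, ih]

end sem

section pt
variable [Enc V] [Enc W] [Enc α] [Enc β]

@[fun_prop] theorem pt_tv {f : α → V} (hf : PT f) : PT fun a => tv (f a) := by
  unfold tv; fun_prop
@[fun_prop] theorem pt_tc {f : α → ℤ} (hf : PT f) : PT fun a => (tc (f a) : TT V) := by
  unfold tc; fun_prop
@[fun_prop] theorem pt_tn {f : α → ℕ} (hf : PT f) : PT fun a => (tn (f a) : TT V) := by
  unfold tn; fun_prop
@[fun_prop] theorem pt_tsub {f g : α → TT V} (hf : PT f) (hg : PT g) :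
    PT fun a => tsub (f a) (g a) := by unfold tsub; fun_prop
@[fun_prop] theorem pt_tsum {l : α → List β} {f : α → β → TT V} (hl : PT l)
    (hf : PT fun p : α × β => f p.1 p.2) : PT fun a => tsum (l a) (f a) :=
  PT.foldr_add' (f := fun _ => Tm.add) (g := fun _ b => sz b + 3) (hl.map hf) (PT.const _)
    (by fun_prop) (by fun_prop) fun a b x => by simp; omega
@[fun_prop] theorem pt_tprod {l : α → List β} {f : α → β → TT V} (hl : PT l)
    (hf : PT fun p : α × β => f p.1 p.2) : PT fun a => tprod (l a) (f a) :=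
  PT.foldr_add' (f := fun _ => Tm.mul) (g := fun _ b => sz b + 4) (hl.map hf) (PT.const _)
    (by fun_prop) (by fun_prop) fun a b x => by simp; omega
@[fun_prop] theorem pt_tpow {t : α → TT V} {n : α → ℕ} (ht : PT t) (hn : PT n) :
    PT fun a => tpow (t a) (n a) := by unfold tpow; fun_prop
@[fun_prop] theorem pt_tsb {σ : α → V → TT W} {t : α → TT V}
    (hσ : PT fun p : α × V => σ p.1 p.2) (ht : PT t) : PT fun a => tsb (σ a) (t a) := by
  unfold tsb; fun_prop
@[fun_prop] theorem pt_fsb {σ : α → V → TT W} {t : α → FF V}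
    (hσ : PT fun p : α × V => σ p.1 p.2) (ht : PT t) : PT fun a => fsb (σ a) (t a) := by
  unfold fsb; fun_prop
@[fun_prop] theorem pt_fall {l : α → List β} {f : α → β → FF V} (hl : PT l)
    (hf : PT fun p : α × β => f p.1 p.2) : PT fun a => fall (l a) (f a) :=
  PT.foldr_add' (f := fun _ => Fm.and) (g := fun _ b => sz b + 5) (hl.map hf) (PT.const _)
    (by fun_prop) (by fun_prop) fun a b x => by simp; omega
@[fun_prop] theorem pt_fex {l : α → List β} {f : α → β → FF V} (hl : PT l)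
    (hf : PT fun p : α × β => f p.1 p.2) : PT fun a => fex (l a) (f a) :=
  PT.foldr_add' (f := fun _ => Fm.or) (g := fun _ b => sz b + 6) (hl.map hf) (PT.const _)
    (by fun_prop) (by fun_prop) fun a b x => by simp; omega

end pt

/-- existentially definable, uniformly in polynomial time -/
def ED {α V : Type} [Enc α] [Enc V] (P : α → (V → ℝ) → Prop) : Prop :=
  ∃ F : α → FF (V ⊕ T), PT F ∧ ∀ a ν, P a ν ↔ ∃ μ : T → ℝ, sat (Sum.elim ν μ) (F a)

namespace ED
variable [Enc V] [Enc W] [Enc α] [Enc β] {P Q : α → (V → ℝ) → Prop}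

theorem congr (h : ED P) (e : ∀ a ν, P a ν ↔ Q a ν) : ED Q := by
  obtain ⟨F, hF, h⟩ := h
  exact ⟨F, hF, fun a ν => (e a ν).symm.trans (h a ν)⟩

theorem qf {F : α → FF V} (hF : PT F) : ED fun a ν => sat ν (F a) :=
  ⟨fun a => fsb (fun v => tv (.inl v)) (F a), by fun_prop, fun a ν => by simp⟩

theorem eq {s t : α → TT V} (hs : PT s) (ht : PT t) : ED fun a ν => ev ν (s a) = ev ν (t a) :=
  qf (F := fun a => .eq (s a) (t a)) (by fun_prop)

theorem subst {Q : β → (W → ℝ) → Prop} (h : ED Q) {φ : α → β} (hφ : PT φ) {σ : α → W → TT V}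
    (hσ : PT fun p : α × W => σ p.1 p.2) :
    ED fun a ν => Q (φ a) fun w => ev ν (σ a w) := by
  obtain ⟨F, hF, h⟩ := h
  refine ⟨fun a => fsb (Sum.elim (fun w => tsb (fun v => tv (.inl v)) (σ a w))
    fun t => tv (.inr t)) (F (φ a)), by fun_prop, fun a ν => ?_⟩
  beta_reduce
  rw [h]
  refine exists_congr fun μ => ?_
  rw [sat_fsb]
  congr! 1
  funext x; cases x <;> simp

theorem comp {Q : β → (V → ℝ) → Prop} (h : ED Q) {φ : α → β} (hφ : PT φ) :
    ED fun a ν => Q (φ a) ν :=
  (h.subst hφ (σ := fun _ v => tv v) (by fun_prop)).congr fun a ν => by simp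

theorem rename {Q : α → (W → ℝ) → Prop} (h : ED Q) {r : W → V} (hr : PT r) :
    ED fun a ν => Q a fun w => ν (r w) :=
  (h.subst PT.id (σ := fun _ w => tv (r w)) (by fun_prop)).congr fun a ν => by simp

/-- tag the existential variables -/
def tag (x : T) (p : FF (V ⊕ T)) : FF (V ⊕ T) :=
  fsb (Sum.elim (fun v => tv (.inl v)) fun t => tv (.inr (.node x t))) p

omit [Enc V] in
theorem sat_tag (ν : V → ℝ) (μ : T → ℝ) (x : T) (p : FF (V ⊕ T)) :
    sat (Sum.elim ν μ) (tag x p) ↔ sat (Sum.elim ν fun t => μ (.node x t)) p := by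
  rw [tag, sat_fsb]
  congr! 1
  funext y; cases y <;> simp

@[fun_prop] theorem pt_tag {x : α → T} {p : α → FF (V ⊕ T)} (hx : PT x) (hp : PT p) :
    PT fun a => tag (x a) (p a) := by unfold tag; fun_prop

theorem forall_mem {l : α → List β} (hl : PT l) {P : α → β → (V → ℝ) → Prop}
    (h : ED fun p : α × β => P p.1 p.2) : ED fun a ν => ∀ b ∈ l a, P a b ν := by
  obtain ⟨F, hF, h⟩ := h
  refine ⟨fun a => fall (l a) fun b => tag (enc b) (F (a, b)), by fun_prop, fun a ν => ?_⟩
  simp only [sat_fall, sat_tag]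
  constructor
  · intro H
    have : ∀ x : T, ∃ μ : T → ℝ, ∀ b ∈ l a, enc b = x → sat (Sum.elim ν μ) (F (a, b)) := by
      intro x
      by_cases hx : ∃ b ∈ l a, enc b = x
      · obtain ⟨b, hb, rfl⟩ := hx
        obtain ⟨μ, hμ⟩ := (h (a, b) ν).1 (H b hb)
        exact ⟨μ, fun b' _ e => by rwa [Enc.inj e]⟩
      · exact ⟨0, fun b hb e => absurd ⟨b, hb, e⟩ hx⟩
    choose μ hμ using this
    exact ⟨fun t => μ t.left t.right, fun b hb => hμ _ b hb rfl⟩
  · rintro ⟨μ, hμ⟩ b hb
    exact (h (a, b) ν).2 ⟨_, hμ b hb⟩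

theorem exists_mem {l : α → List β} (hl : PT l) {P : α → β → (V → ℝ) → Prop}
    (h : ED fun p : α × β => P p.1 p.2) : ED fun a ν => ∃ b ∈ l a, P a b ν := by
  obtain ⟨F, hF, h⟩ := h
  refine ⟨fun a => fex (l a) fun b => F (a, b), by fun_prop, fun a ν => ?_⟩
  simp only [sat_fex]
  constructor
  · rintro ⟨b, hb, H⟩
    obtain ⟨μ, hμ⟩ := (h (a, b) ν).1 H
    exact ⟨μ, b, hb, hμ⟩
  · rintro ⟨μ, b, hb, hμ⟩
    exact ⟨b, hb, (h (a, b) ν).2 ⟨μ, hμ⟩⟩

theorem cond {c : α → Bool} (hc : PT c) (hP : ED P) (hQ : ED Q) :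
    ED fun a ν => bif c a then P a ν else Q a ν := by
  obtain ⟨F, hF, h⟩ := hP
  obtain ⟨G, hG, h'⟩ := hQ
  refine ⟨fun a => bif c a then F a else G a, by fun_prop, fun a ν => ?_⟩
  beta_reduce
  cases c a
  · exact h' a ν
  · exact h a ν

theorem and (hP : ED P) (hQ : ED Q) : ED fun a ν => P a ν ∧ Q a ν :=
  (forall_mem (l := fun _ => [true, false]) (P := fun a b ν => bif b then P a ν else Q a ν)
    (PT.const _) (cond (by fun_prop) (hP.comp (by fun_prop)) (hQ.comp (by fun_prop)))).congr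
    fun a ν => by simp [and_comm]

theorem or (hP : ED P) (hQ : ED Q) : ED fun a ν => P a ν ∨ Q a ν :=
  (exists_mem (l := fun _ => [true, false]) (P := fun a b ν => bif b then P a ν else Q a ν)
    (PT.const _) (cond (by fun_prop) (hP.comp (by fun_prop)) (hQ.comp (by fun_prop)))).congr
    fun a ν => by simp [or_comm]

theorem forall_lt {n : α → ℕ} (hn : PT n) {P : α → ℕ → (V → ℝ) → Prop}
    (h : ED fun p : α × ℕ => P p.1 p.2) : ED fun a ν => ∀ i < n a, P a i ν :=
  (forall_mem hn.range h).congr fun a ν => by simp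

theorem exists_lt {n : α → ℕ} (hn : PT n) {P : α → ℕ → (V → ℝ) → Prop}
    (h : ED fun p : α × ℕ => P p.1 p.2) : ED fun a ν => ∃ i < n a, P a i ν :=
  (exists_mem hn.range h).congr fun a ν => by simp

/-- a block of existential real variables indexed by `W` -/
theorem ex {P : α → (V → ℝ) → (W → ℝ) → Prop}
    (h : ED fun a (ω : V ⊕ W → ℝ) => P a (fun v => ω (.inl v)) fun w => ω (.inr w)) :
    ED fun a ν => ∃ w : W → ℝ, P a ν w := by
  classical
  obtain ⟨F, hF, h⟩ := h
  refine ⟨fun a => fsb (Sum.elim (Sum.elim (fun v => tv (.inl v))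
      fun w => tv (.inr (.node .nil (enc w)))) fun t => tv (.inr (.node (.node .nil .nil) t)))
      (F a), by fun_prop, fun a ν => ?_⟩
  simp only [sat_fsb]
  constructor
  · rintro ⟨w, H⟩
    obtain ⟨μ, hμ⟩ := (h a (Sum.elim ν w)).1 H
    refine ⟨fun t => if t.left = .nil then extend enc w 0 t.right else μ t.right, ?_⟩
    convert hμ using 1
    funext x
    rcases x with (x | x) | x <;> simp [T.left, T.right, Enc.inj.extend_apply]
  · rintro ⟨μ, hμ⟩
    refine ⟨fun w => μ (.node .nil (enc w)), (h a (Sum.elim ν fun w => μ (.node .nil (enc w)))).2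
      ⟨fun t => μ (.node (.node .nil .nil) t), ?_⟩⟩
    convert hμ using 1
    funext x
    rcases x with (x | x) | x <;> simp

end ED

end Pool.Agent.Lib.MP_42f8a6_lc
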