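import Pool.Agent.Lib.MP_42f8a6_lc.Rank

/-! Projection of a family of polynomials, sample points and root certificates. -/

set_option autoImplicit false

namespace Pool.Agent.Lib.MP_42f8a6_lc

open Polynomial Matrix

abbrev MP (i : ℕ) := MvPolynomial (Fin i) ℝ

variable {i : ℕ} {ι : Type}

noncomputable def uni (f : MP (i + 1)) (x : Fin i → ℝ) : ℝ[X] :=
  (MvPolynomial.finSuccEquiv ℝ i f).map (MvPolynomial.eval x)

theorem eval_uni (f : MP (i + 1)) (x : Fin i → ℝ) (y : ℝ) :
    (uni f x).eval y = MvPolynomial.eval (Fin.cons y x : Fin (i + 1) → ℝ) f :=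
  (MvPolynomial.eval_eq_eval_mv_eval' x y f).symm

theorem natDegree_fse (f : MP (i + 1)) :
    (MvPolynomial.finSuccEquiv ℝ i f).natDegree ≤ f.totalDegree := by
  rw [MvPolynomial.natDegree_finSuccEquiv]; exact MvPolynomial.degreeOf_le_totalDegree _ _

theorem natDegree_uni (f : MP (i + 1)) (x : Fin i → ℝ) : (uni f x).natDegree ≤ f.totalDegree :=
  natDegree_map_le.trans (natDegree_fse f)

theorem uni_mul (f g : MP (i + 1)) (x : Fin i → ℝ) : uni (f * g) x = uni f x * uni g x := by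
  simp [uni]

/-- `Q` is preserved along paths on which no member of the family starts or stops vanishing -/
def Inv (I : List ι) (f : ι → MP i) (Q : (Fin i → ℝ) → Prop) : Prop :=
  ∀ γ : ℝ → Fin i → ℝ, Continuous γ →
    (∀ j ∈ I, ∀ s s', MvPolynomial.eval (γ s) (f j) = 0 → MvPolynomial.eval (γ s') (f j) = 0) →
    Q (γ 0) → Q (γ 1)

noncomputable def proj (D : ℕ) (f : ι → MP (i + 1)) : (ι × ℕ) ⊕ (ι × ι × ℕ) → MP i :=
  Sum.elim (fun q => (MvPolynomial.finSuccEquiv ℝ i (f q.1)).coeff q.2)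
    fun q => (resp (D + D) (MvPolynomial.finSuccEquiv ℝ i (f q.1 * f q.2.1))).coeff q.2.2

def projIdx (D : ℕ) (I : List ι) : List ((ι × ℕ) ⊕ (ι × ι × ℕ)) :=
  (I.flatMap fun j => (List.range (D + 1)).map fun k => Sum.inl (j, k)) ++
    I.flatMap fun j => I.flatMap fun j' => (List.range (4 * D + 1)).map fun k => Sum.inr (j, j', k)

theorem inl_mem_projIdx {D : ℕ} {I : List ι} {j : ι} {k : ℕ} :
    Sum.inl (j, k) ∈ projIdx D I ↔ j ∈ I ∧ k < D + 1 := by
  simp [projIdx]

theorem inr_mem_projIdx {D : ℕ} {I : List ι} {j j' : ι} {k : ℕ} :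
    Sum.inr (j, j', k) ∈ projIdx D I ↔ j ∈ I ∧ j' ∈ I ∧ k < 4 * D + 1 := by
  simp [projIdx]

theorem inv_forall {D : ℕ} {I : List ι} {f : ι → MP (i + 1)} {Q : (Fin (i + 1) → ℝ) → Prop}
    (hD : ∀ j ∈ I, (f j).totalDegree ≤ D) (h : Inv I f Q) :
    Inv (projIdx D I) (proj D f) fun x => ∀ y, Q (Fin.cons y x) := by
  classical
  intro γ hγ hinv
  have hv : ∀ j ∈ I, ∀ k s s', (uni (f j) (γ s)).coeff k = 0 → (uni (f j) (γ s')).coeff k = 0 := by
    intro j hj k s s' h0
    by_cases hk : k < D + 1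
    · rw [uni, coeff_map] at h0 ⊢
      exact hinv (Sum.inl (j, k)) (inl_mem_projIdx.2 ⟨hj, hk⟩) s s' h0
    · exact coeff_eq_zero_of_natDegree_lt
        (((natDegree_uni _ _).trans (hD j hj)).trans_lt (by omega))
  have hz : ∀ j ∈ I, ∀ s s', uni (f j) (γ s) ≠ 0 → uni (f j) (γ s') ≠ 0 :=
    fun j hj s s' h1 h2 => h1 (Polynomial.ext fun k => hv j hj k s' s (by simp [h2]))
  have hr : ∀ j ∈ I, ∀ j' ∈ I, ∀ k s s',
      (resp (D + D) (uni (f j * f j') (γ s))).coeff k = 0 →
      (resp (D + D) (uni (f j * f j') (γ s'))).coeff k = 0 := by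
    intro j hj j' hj' k s s' h0
    by_cases hk : k < 4 * D + 1
    · rw [uni, resp_map, coeff_map] at h0 ⊢
      exact hinv (Sum.inr (j, j', k)) (inr_mem_projIdx.2 ⟨hj, hj', hk⟩) s s' h0
    · exact coeff_eq_zero_of_natDegree_lt ((natDegree_resp _ _).trans_lt (by omega))
  refine delin (ι := {j // j ∈ I}) (fun j s => uni (f j.1) (γ s)) (fun j k => ?_)
    (fun j => hv j.1 j.2) (fun j j' s s' h1 h2 => ?_) (fun s y => Q (Fin.cons y (γ s)))
    (fun σ η hσ hη H => ?_) 0 1
  · simp only [uni, coeff_map]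
    exact (MvPolynomial.continuous_eval _).comp hγ
  · have hdeg : ∀ s, (uni (f j.1) (γ s) * uni (f j'.1) (γ s)).natDegree ≤ D + D := fun s =>
      natDegree_mul_le.trans (Nat.add_le_add ((natDegree_uni _ _).trans (hD _ j.2))
        ((natDegree_uni _ _).trans (hD _ j'.2)))
    refine card_croots_eq (mul_ne_zero h1 h2)
      (mul_ne_zero (hz _ j.2 _ _ h1) (hz _ j'.2 _ _ h2)) (hdeg s) (hdeg s') fun k => ?_
    rw [← uni_mul, ← uni_mul]
    exact ⟨hr _ j.2 _ j'.2 k s s', hr _ j.2 _ j'.2 k s' s⟩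
  · refine h (fun s => Fin.cons (η s) (γ (σ s))) (hη.finCons (hγ.comp hσ)) fun j hj s s' => ?_
    rw [← eval_uni, ← eval_uni]
    exact H ⟨j, hj⟩ s s'

/-! ### degrees -/

def CB (e : ℕ) (p : (MP i)[X]) : Prop := ∀ k, (p.coeff k).totalDegree ≤ e

theorem CB.mul {e e' : ℕ} {p q : (MP i)[X]} (hp : CB e p) (hq : CB e' q) : CB (e + e') (p * q) := by
  intro k
  rw [coeff_mul]
  exact MvPolynomial.totalDegree_finsetSum_le fun c _ =>
    (MvPolynomial.totalDegree_mul _ _).trans (Nat.add_le_add (hp _) (hq _))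

theorem CB.prod {κ : Type} {e : ℕ} (s : Finset κ) {g : κ → (MP i)[X]} (h : ∀ a, CB e (g a)) :
    CB (s.card * e) (∏ a ∈ s, g a) := by
  classical
  induction s using Finset.induction_on with
  | empty => intro k; simp only [Finset.prod_empty, coeff_one]; split_ifs <;> simp
  | insert a s ha ih =>
    rw [Finset.prod_insert ha, Finset.card_insert_of_notMem ha, add_mul, one_mul, add_comm]
    exact (h a).mul ih

theorem cb_charpoly {n e : ℕ} (M : Matrix (Fin n) (Fin n) (MP i))
    (h : ∀ a b, (M a b).totalDegree ≤ e) : CB (n * e) M.charpoly := by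
  have h1 : ∀ a b, CB e (charmatrix M a b) := by
    intro a b k
    rw [charmatrix_apply, coeff_sub]
    refine (MvPolynomial.totalDegree_sub _ _).trans (max_le ?_ ?_)
    · rw [diagonal_apply]
      split_ifs
      · rw [coeff_X]; split_ifs <;> simp
      · simp
    · rw [coeff_C]; split_ifs
      · exact h a b
      · simp
  intro k
  rw [Matrix.charpoly, det_apply, finset_sum_coeff]
  refine MvPolynomial.totalDegree_finsetSum_le fun σ _ => ?_
  have h2 := CB.prod (e := e) Finset.univ (g := fun a => charmatrix M (σ a) a) (fun a => h1 _ _) k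
  simp only [Finset.card_univ, Fintype.card_fin] at h2
  rcases Int.units_eq_one_or (Equiv.Perm.sign σ) with h3 | h3 <;> simp [h3, h2]

theorem cb_fse (f : MP (i + 1)) : CB f.totalDegree (MvPolynomial.finSuccEquiv ℝ i f) := by
  intro k
  by_cases h : (MvPolynomial.finSuccEquiv ℝ i f).coeff k = 0
  · simp [h]
  · have := MvPolynomial.totalDegree_coeff_finSuccEquiv_add_le f k h
    omega

theorem cb_resp {m e : ℕ} {p : (MP i)[X]} (h : CB e p) : CB ((m + m) * (e + e)) (resp m p) := by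
  have h1 : ∀ a b, (sylv m p a b).totalDegree ≤ e := by
    intro a b
    simp only [sylv, of_apply, coeff_colp]
    split_ifs
    · exact h _
    · simp
    · refine (MvPolynomial.totalDegree_mul _ _).trans ?_
      have : ∀ n : ℕ, ((n : MP i) + 1).totalDegree = 0 := fun n => by
        rw [show (n : MP i) + 1 = MvPolynomial.C ((n : ℝ) + 1) by simp,
          MvPolynomial.totalDegree_C]
      rw [this]; exact h _
    · simp
  refine cb_charpoly _ fun a b => ?_
  rw [Matrix.mul_apply]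
  exact MvPolynomial.totalDegree_finsetSum_le fun c _ =>
    (MvPolynomial.totalDegree_mul _ _).trans (Nat.add_le_add (h1 _ _) (h1 _ _))

theorem totalDegree_proj {D : ℕ} {f : ι → MP (i + 1)} (hD : ∀ j, (f j).totalDegree ≤ D) :
    ∀ q, (proj D f q).totalDegree ≤ 16 * D * D + D := by
  rintro (⟨j, k⟩ | ⟨j, j', k⟩)
  · have := (cb_fse (f j) k).trans (hD j)
    simp only [proj, Sum.elim_inl]; omega
  · have h3 : CB (D + D) (MvPolynomial.finSuccEquiv ℝ i (f j * f j')) := fun k =>
      (cb_fse _ k).trans ((MvPolynomial.totalDegree_mul _ _).trans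
        (Nat.add_le_add (hD j) (hD j')))
    have := cb_resp (m := D + D) h3 k
    simp only [proj, Sum.elim_inr]; nlinarith

/-! ### sample points -/

theorem exists_sample {κ : Type} (A : List κ) (u : κ → ℝ) (y : ℝ) (hy : ∀ a ∈ A, y ≠ 2 * u a) :
    ∃ y', (y' = 0 ∨ ∃ a ∈ A, ∃ b ∈ A, ∃ c ∈ [(-1 : ℤ), 0, 1], y' = u a + u b + c) ∧
      ∀ a ∈ A, (2 * u a < y ∧ 2 * u a < y') ∨ (y < 2 * u a ∧ y' < 2 * u a) := by
  classical
  have tri : ∀ a ∈ A, 2 * u a < y ∨ y < 2 * u a := fun a ha => (lt_or_gt_of_ne (hy a ha)).symm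
  by_cases hL : (A.toFinset.filter fun a => 2 * u a < y).Nonempty <;>
    by_cases hR : (A.toFinset.filter fun a => y < 2 * u a).Nonempty
  · obtain ⟨a, ha, hmax⟩ := Finset.exists_max_image _ u hL
    obtain ⟨b, hb, hmin⟩ := Finset.exists_min_image _ u hR
    simp only [Finset.mem_filter, List.mem_toFinset, and_imp] at ha hb hmax hmin
    refine ⟨u a + u b + (0 : ℤ), Or.inr ⟨a, ha.1, b, hb.1, 0, by simp, rfl⟩, fun c hc => ?_⟩
    rcases tri c hc with h | h
    · left; refine ⟨h, ?_⟩; have := hmax c hc h; push_cast; linarith [ha.2, hb.2]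
    · right; refine ⟨h, ?_⟩; have := hmin c hc h; push_cast; linarith [ha.2, hb.2]
  · obtain ⟨a, ha, hmax⟩ := Finset.exists_max_image _ u hL
    simp only [Finset.mem_filter, List.mem_toFinset, and_imp] at ha hmax
    refine ⟨u a + u a + (1 : ℤ), Or.inr ⟨a, ha.1, a, ha.1, 1, by simp, rfl⟩, fun c hc => ?_⟩
    rcases tri c hc with h | h
    · left; refine ⟨h, ?_⟩; have := hmax c hc h; push_cast; linarith
    · exact absurd ⟨c, by simp [hc, h]⟩ hR
  · obtain ⟨b, hb, hmin⟩ := Finset.exists_min_image _ u hR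
    simp only [Finset.mem_filter, List.mem_toFinset, and_imp] at hb hmin
    refine ⟨u b + u b + (-1 : ℤ), Or.inr ⟨b, hb.1, b, hb.1, -1, by simp, rfl⟩, fun c hc => ?_⟩
    rcases tri c hc with h | h
    · exact absurd ⟨c, by simp [hc, h]⟩ hL
    · right; refine ⟨h, ?_⟩; have := hmin c hc h; push_cast; linarith
  · refine ⟨0, Or.inl rfl, fun c hc => ?_⟩
    rcases tri c hc with h | h
    · exact absurd ⟨c, by simp [hc, h]⟩ hL
    · exact absurd ⟨c, by simp [hc, h]⟩ hR

theorem inv_sample {κ : Type} {I : List ι} {f : ι → MP (i + 1)} {Q : (Fin (i + 1) → ℝ) → Prop}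
    (h : Inv I f Q) (x : Fin i → ℝ) (A : List κ) (u : κ → ℝ)
    (hA : ∀ j ∈ I, uni (f j) x ≠ 0 → ∀ y, (uni (f j) x).eval y = 0 → ∃ a ∈ A, y = 2 * u a)
    (h0 : Q (Fin.cons 0 x))
    (h1 : ∀ a ∈ A, ∀ b ∈ A, ∀ c ∈ [(-1 : ℤ), 0, 1], Q (Fin.cons (u a + u b + c) x)) (y : ℝ) :
    Q (Fin.cons y x) := by
  by_cases hy : ∃ a ∈ A, y = 2 * u a
  · obtain ⟨a, ha, rfl⟩ := hy
    simpa [two_mul] using h1 a ha a ha 0 (by simp)
  push Not at hy
  obtain ⟨y', hy', hsep⟩ := exists_sample A u y hy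
  have hQ : Q (Fin.cons y' x) := by
    rcases hy' with rfl | ⟨a, ha, b, hb, c, hc, rfl⟩
    · exact h0
    · exact h1 a ha b hb c hc
  have := h (fun t => Fin.cons (y' + max 0 (min t 1) * (y - y')) x)
    (Continuous.finCons (by fun_prop) continuous_const) (fun j hj s s' hs => by
      rw [← eval_uni] at hs ⊢
      by_cases hz : uni (f j) x = 0
      · simp [hz]
      exfalso
      obtain ⟨a, ha, e⟩ := hA j hj hz _ hs
      have u0 : 0 ≤ max 0 (min s 1) := le_max_left _ _
      have u1 : max 0 (min s 1) ≤ 1 := max_le zero_le_one (min_le_right _ _)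
      generalize max 0 (min s 1) = t at e u0 u1
      rcases hsep a ha with ⟨h1, h2⟩ | ⟨h1, h2⟩
      · rcases le_total y y' with h3 | h3 <;> nlinarith
      · rcases le_total y y' with h3 | h3 <;> nlinarith) (by simpa using hQ)
  simpa using this

/-! ### certificates for roots and for coefficients -/

theorem poly_eq_of_nat {p q : ℝ[X]} {n : ℕ} (hp : p.natDegree < n) (hq : q.natDegree < n)
    (h : ∀ m < n, p.eval (m : ℝ) = q.eval (m : ℝ)) : p = q :=
  eq_of_natDegree_lt_card_of_eval_eq p q (f := fun m : Fin n => ((m : ℕ) : ℝ))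
    (fun a b e => Fin.ext (Nat.cast_injective (R := ℝ) e)) (fun m => h m m.2) (by simp [hp, hq])

theorem root_cert_sound {p : ℝ[X]} {D : ℕ} (hD : p.natDegree ≤ D) {α u w : ℕ → ℝ}
    (h : ∀ m < 2 * D + 3, p.eval (m : ℝ) ^ 2
      = ∏ l ∈ Finset.range (D + 1), ((α l * (m - 2 * u l)) ^ 2 + w l ^ 2))
    (h0 : p ≠ 0) (y : ℝ) (hy : p.eval y = 0) : ∃ l < D + 1, y = 2 * u l := by
  have e : p ^ 2 = ∏ l ∈ Finset.range (D + 1),
      ((C (α l) * (X - C (2 * u l))) ^ 2 + C (w l ^ 2)) := by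
    refine poly_eq_of_nat (n := 2 * D + 3) (natDegree_pow_le.trans_lt (by omega)) ?_ fun m hm => ?_
    · refine (natDegree_prod_le _ _).trans_lt ?_
      have := Finset.sum_le_card_nsmul (Finset.range (D + 1))
        (fun l => ((C (α l) * (X - C (2 * u l))) ^ 2 + C (w l ^ 2)).natDegree) 2
        (fun l _ => by compute_degree)
      simp only [Finset.card_range, smul_eq_mul] at this
      omega
    · simp [eval_prod, h m hm]
  have e' : ∀ z, p.eval z ^ 2 = ∏ l ∈ Finset.range (D + 1), ((α l * (z - 2 * u l)) ^ 2 + w l ^ 2) :=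
    fun z => by simpa [eval_prod] using congrArg (eval z) e
  have h1 := e' y
  rw [hy, zero_pow (by omega), eq_comm, Finset.prod_eq_zero_iff] at h1
  obtain ⟨l, hl, h1⟩ := h1
  have h2 : α l * (y - 2 * u l) = 0 := by nlinarith [sq_nonneg (α l * (y - 2 * u l)), sq_nonneg (w l)]
  have h3 : w l = 0 := by nlinarith [sq_nonneg (α l * (y - 2 * u l)), sq_nonneg (w l)]
  rcases mul_eq_zero.1 h2 with h4 | h4
  · refine absurd (Polynomial.funext fun z => ?_) h0
    have := e' z
    rw [Finset.prod_eq_zero hl (by simp [h4, h3])] at this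
    simpa using this
  · exact ⟨l, Finset.mem_range.1 hl, by linarith⟩

theorem prod_getD (zs : List ℂ) (F : ℂ → ℝ) :
    ∏ l ∈ Finset.range zs.length, F (zs.getD l 0) = (zs.map F).prod := by
  induction zs with
  | nil => simp
  | cons z zs ih => rw [List.length_cons, Finset.prod_range_succ', List.map_cons, List.prod_cons,
      ← ih, mul_comm]; rfl

theorem root_cert_complete {p : ℝ[X]} {D : ℕ} (hD : p.natDegree ≤ D) :
    ∃ α u w : ℕ → ℝ, ∀ y : ℝ, p.eval y ^ 2
      = ∏ l ∈ Finset.range (D + 1), ((α l * (y - 2 * u l)) ^ 2 + w l ^ 2) := by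
  have hsp : (p.map (algebraMap ℝ ℂ)).Splits := IsAlgClosed.splits _
  set zs := (p.map (algebraMap ℝ ℂ)).roots.toList with hzs
  have hlen : zs.length = p.natDegree := by
    rw [hzs, Multiset.length_toList, ← hsp.natDegree_eq_card_roots, natDegree_map]
  obtain ⟨e, he⟩ : ∃ e, D = zs.length + e := ⟨D - zs.length, by omega⟩
  refine ⟨fun l => if l < zs.length then 1 else 0, fun l => (zs.getD l 0).re / 2,
    fun l => if l < zs.length then (zs.getD l 0).im else if l < D then 1 else p.leadingCoeff,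
    fun y => ?_⟩
  have h1 := congrArg Complex.normSq (hsp.eval_eq_prod_roots (y : ℂ))
  have h2 : aeval (y : ℂ) p = ((p.eval y : ℝ) : ℂ) := aeval_ofReal (K := ℂ) p y
  rw [eval_map_algebraMap, h2, leadingCoeff_map, map_mul, map_multiset_prod, Multiset.map_map,
    ← Multiset.coe_toList (p.map (algebraMap ℝ ℂ)).roots, ← hzs, Multiset.map_coe,
    Multiset.prod_coe, ← prod_getD] at h1
  beta_reduce
  rw [Finset.prod_range_succ]
  conv_rhs => enter [1, 1]; rw [he]
  rw [Finset.prod_range_add, Finset.prod_eq_one (s := Finset.range e) (fun l hl => by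
    have := Finset.mem_range.1 hl
    rw [if_neg (by omega), if_neg (by omega), if_pos (by omega)]; simp),
    if_neg (by omega), if_neg (by omega), if_neg (by omega)]
  simp only [Complex.normSq_ofReal, Complex.coe_algebraMap] at h1
  rw [sq, h1, mul_one, mul_comm]
  congr 1
  · refine Finset.prod_congr rfl fun l hl => ?_
    have := Finset.mem_range.1 hl
    simp only [this, if_true, Function.comp, Complex.normSq_apply, Complex.sub_re, Complex.sub_im,
      Complex.ofReal_re, Complex.ofReal_im]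
    ring
  · ring

theorem coeff_cert {p : ℝ[X]} {D : ℕ} (hD : p.natDegree ≤ D) (c : ℕ → ℝ) :
    (∀ m < D + 1, p.eval (m : ℝ) = ∑ l ∈ Finset.range (D + 1), c l * (m : ℝ) ^ l) →
      ∀ k < D + 1, p.coeff k = c k := by
  intro h k hk
  have e : p = ∑ l ∈ Finset.range (D + 1), monomial l (c l) := by
    refine poly_eq_of_nat (n := D + 1) (by omega) ?_ fun m hm => ?_
    · exact Nat.lt_succ_of_le (natDegree_sum_le_of_forall_le _ _ fun l hl =>
        (natDegree_monomial_le _).trans (Nat.lt_succ_iff.1 (Finset.mem_range.1 hl)))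
    · simp [eval_finset_sum, h m hm]
  rw [e, finset_sum_coeff, Finset.sum_eq_single k]
  · simp
  · intro l _ hl; simp [coeff_monomial, hl]
  · intro hk'; exact absurd (Finset.mem_range.2 hk) hk'

theorem charpoly_cert_nat {n : ℕ} (A : Matrix (Fin n) (Fin n) ℝ) (S : ℕ → ℕ → ℝ)
    (hA : ∀ r j, A r j = S r j) (x z : ℝ) :
    z = (Aᵀ * A).charpoly.eval x ↔ ∃ (U : ℕ → ℕ → ℝ) (l : ℕ → ℝ),
      (∀ a < n, ∀ b < n, ∑ r ∈ Finset.range n, U r a * U r b = if a = b then 1 else 0) ∧
      (∀ a < n, ∀ b < n, ∑ r ∈ Finset.range n, S r a * S r b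
        = ∑ r ∈ Finset.range n, U a r * l r * U b r) ∧
      z = ∏ r ∈ Finset.range n, (x - l r) := by
  rw [charpoly_cert]
  constructor
  · rintro ⟨U, l, h1, h2, h3⟩
    refine ⟨fun a b => if h : a < n ∧ b < n then U ⟨a, h.1⟩ ⟨b, h.2⟩ else 0,
      fun a => if h : a < n then l ⟨a, h⟩ else 0, fun a ha b hb => ?_, fun a ha b hb => ?_, ?_⟩
    · have := congrFun (congrFun h1 ⟨a, ha⟩) ⟨b, hb⟩
      simpa [Matrix.mul_apply, one_apply, Finset.sum_range, ha, hb] using this
    · have := congrFun (congrFun h2 ⟨a, ha⟩) ⟨b, hb⟩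
      rw [Matrix.mul_apply, Matrix.mul_apply] at this
      simpa [mul_diagonal, Finset.sum_range, ha, hb, hA] using this
    · simpa [Finset.prod_range] using h3
  · rintro ⟨U, l, h1, h2, h3⟩
    refine ⟨Matrix.of fun a b => U a b, fun a => l a, ?_, ?_, ?_⟩
    · ext a b
      simpa [Matrix.mul_apply, one_apply, Finset.sum_range, Fin.ext_iff] using h1 a a.2 b b.2
    · ext a b
      rw [Matrix.mul_apply, Matrix.mul_apply]
      simpa [mul_diagonal, Finset.sum_range, hA] using h2 a a.2 b b.2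
    · simpa [Finset.prod_range] using h3

end Pool.Agent.Lib.MP_42f8a6_lc
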