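import Pool.Agent.Lib.MP_42f8a6_lc.Defs

/-! A gallery which two guards can guard exactly when an exists-forall condition holds. -/

set_option autoImplicit false

namespace Pool.Agent.Lib.MP_42f8a6_lc

variable {D : ℕ}

def gal (T u : Fin D) (I : Set (Fin D)) (Φ : (Fin D → ℝ) → Prop) : Set (Fin D → ℝ) :=
  {z | (z T = 0 ∧ (z u ≤ 0 ∨ 1 ≤ z u)) ∨
    (0 < z T ∧ 0 ≤ z u ∧ z T + 2 * z u < 2 ∧ (z u = 0 → z T = 1 → Φ z)) ∨
    (z u = 0 ∧ z T = 2 ∧ ∀ i ∈ I, z i = 0)}

theorem seg_iff (S : Set (Fin D → ℝ)) (p q : Fin D → ℝ) : segment ℝ p q ⊆ S ↔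
    ∀ t : ℝ, 0 ≤ t → t ≤ 1 → (fun i => (1 - t) * p i + t * q i) ∈ S := by
  rw [segment_eq_image, Set.image_subset_iff]
  exact ⟨fun h t h0 h1 => h ⟨h0, h1⟩, fun h t ht => h t ht.1 ht.2⟩

theorem guardable_gal {T u : Fin D} (hTu : T ≠ u) {I : Set (Fin D)} (hT : T ∉ I) (hu : u ∉ I)
    (Φ : (Fin D → ℝ) → Prop) :
    Guardable (gal T u I Φ) 2 ↔
      ∃ x : Fin D → ℝ, ∀ z : Fin D → ℝ, z T = 1 → z u = 0 → (∀ i ∈ I, z i = x i) → Φ z := by
  classical
  constructor
  · rintro ⟨G, hc, hS, hG⟩
    obtain ⟨g1, hg1, h1⟩ := hG (Pi.single u 2) (Or.inl (by simp [hTu]))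
    obtain ⟨g2, hg2, h2⟩ := hG (Pi.single u (-1)) (Or.inl (by simp [hTu]))
    rw [seg_iff] at h1 h2
    have m1 := hS hg1
    have m2 := hS hg2
    have f1 : g1 T = 0 ∧ 1 ≤ g1 u := by
      have a := h1 (1 / 2) (by norm_num) (by norm_num)
      simp only [gal, Set.mem_ofPred_eq, Pi.single_eq_same, Pi.single_eq_of_ne hTu] at a m1
      have hT0 : g1 T = 0 := by
        rcases m1 with m | m | m
        · exact m.1
        · rcases a with ⟨a, -⟩ | ⟨a, b, c, -⟩ | ⟨a, b, -⟩ <;> linarith [m.1, m.2.1]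
        · rcases a with ⟨a, -⟩ | ⟨a, b, c, -⟩ | ⟨a, b, -⟩ <;> linarith [m.1, m.2.1]
      refine ⟨hT0, ?_⟩
      by_contra hlt
      have hle : g1 u ≤ 0 := by
        rcases m1 with m | m | m
        · exact m.2.resolve_right hlt
        · linarith [m.1]
        · linarith [m.1]
      have hp : 0 < 2 - g1 u := by linarith
      have b := h1 (3 / 2 / (2 - g1 u)) (by positivity) (by rw [div_le_one hp]; linarith)
      have e : (1 - 3 / 2 / (2 - g1 u)) * 2 + 3 / 2 / (2 - g1 u) * g1 u = 1 / 2 := by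
        field_simp; ring
      simp only [gal, Set.mem_ofPred_eq, Pi.single_eq_same, Pi.single_eq_of_ne hTu, e, hT0] at b
      norm_num at b
    have f2 : g2 T = 0 ∧ g2 u ≤ 0 := by
      have a := h2 (1 / 2) (by norm_num) (by norm_num)
      simp only [gal, Set.mem_ofPred_eq, Pi.single_eq_same, Pi.single_eq_of_ne hTu] at a m2
      have hT0 : g2 T = 0 := by
        rcases m2 with m | m | m
        · exact m.1
        · rcases a with ⟨a, -⟩ | ⟨a, b, c, -⟩ | ⟨a, b, -⟩ <;> linarith [m.1, m.2.1, m.2.2.1]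
        · rcases a with ⟨a, -⟩ | ⟨a, b, c, -⟩ | ⟨a, b, -⟩ <;> linarith [m.1, m.2.1]
      refine ⟨hT0, ?_⟩
      by_contra hlt
      have hle : 1 ≤ g2 u := by
        rcases m2 with m | m | m
        · exact m.2.resolve_left hlt
        · linarith [m.1]
        · linarith [m.2.1]
      have hp : 0 < 1 + g2 u := by linarith
      have b := h2 (3 / 2 / (1 + g2 u)) (by positivity) (by rw [div_le_one hp]; linarith)
      have e : (1 - 3 / 2 / (1 + g2 u)) * (-1) + 3 / 2 / (1 + g2 u) * g2 u = 1 / 2 := by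
        field_simp; ring
      simp only [gal, Set.mem_ofPred_eq, Pi.single_eq_same, Pi.single_eq_of_ne hTu, e, hT0] at b
      norm_num at b
    have hne : g1 ≠ g2 := fun h => by
      have := congrFun h u
      linarith [f1.2, f2.2]
    have hG2 : ∀ g ∈ G, g = g1 ∨ g = g2 := by
      have : ({g1, g2} : Finset _) = G := Finset.eq_of_subset_of_card_le
        (by simp [Finset.insert_subset_iff, hg1, hg2]) (by rw [hc, Finset.card_pair hne])
      intro g hg
      simpa [← this] using hg
    -- targets are seen by the second guard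
    have key : ∀ τ : Fin D → ℝ, τ u = 0 → τ T = 2 → (∀ i ∈ I, τ i = 0) →
        (fun i => (1 - 1 / 2) * τ i + 1 / 2 * g2 i) ∈ gal T u I Φ := by
      intro τ a b c
      obtain ⟨g, hg, h⟩ := hG τ (Or.inr (Or.inr ⟨a, b, c⟩))
      rw [seg_iff] at h
      have h' := h (1 / 2) (by norm_num) (by norm_num)
      rcases hG2 g hg with rfl | rfl
      · simp only [gal, Set.mem_ofPred_eq, a, b, f1.1] at h'
        rcases h' with m | m | m
        · linarith [m.1]
        · linarith [m.2.2.1, f1.2]
        · linarith [m.2.1]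
      · exact h'
    have hu0 : g2 u = 0 := by
      have := key (Pi.single T 2) (by simp [hTu.symm]) (by simp)
        (fun i hi => Pi.single_eq_of_ne (fun h : i = T => hT (h ▸ hi)) _)
      simp only [gal, Set.mem_ofPred_eq, Pi.single_eq_same, Pi.single_eq_of_ne hTu.symm, f2.1]
        at this
      rcases this with m | m | m
      · linarith [m.1]
      · linarith [m.2.1, f2.2]
      · linarith [m.2.1]
    refine ⟨fun i => g2 i / 2, fun z a b c => ?_⟩
    have := key (fun i => 2 * z i - g2 i) (by simp [b, hu0]) (by simp [a, f2.1])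
      (fun i hi => by rw [c i hi]; ring)
    rw [show (fun i => (1 - 1 / 2) * (2 * z i - g2 i) + 1 / 2 * g2 i) = z from
      funext fun i => by ring] at this
    rcases this with m | m | m
    · linarith [m.1]
    · exact m.2.2.2 b a
    · linarith [m.2.1]
  · rintro ⟨x, hx⟩
    let g : Fin D → ℝ := fun i => if i ∈ I then 2 * x i else 0
    let H : Fin D → ℝ := Pi.single u 1
    have gT : g T = 0 := if_neg hT
    have gu : g u = 0 := if_neg hu
    have HT : H T = 0 := Pi.single_eq_of_ne hTu _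
    have Hu : H u = 1 := Pi.single_eq_same _ _
    have hne : g ≠ H := fun h => by
      have := congrFun h u
      rw [gu, Hu] at this
      exact zero_ne_one this
    refine ⟨{g, H}, Finset.card_pair hne, ?_, fun a ha => ?_⟩
    · intro z hz
      simp only [Finset.coe_insert, Finset.coe_singleton, Set.mem_insert_iff,
        Set.mem_singleton_iff] at hz
      rcases hz with rfl | rfl
      · exact Or.inl ⟨gT, Or.inl gu.le⟩
      · exact Or.inl ⟨HT, Or.inr Hu.ge⟩
    · rcases ha with ⟨a1, a2 | a2⟩ | ⟨a1, a2, a3, a4⟩ | ⟨a1, a2, a3⟩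
      · refine ⟨g, by simp, (seg_iff _ _ _).2 fun t t0 t1 => Or.inl ⟨?_, Or.inl ?_⟩⟩
        · simp [a1, gT]
        · simp only [gu]; nlinarith
      · refine ⟨H, by simp, (seg_iff _ _ _).2 fun t t0 t1 => Or.inl ⟨?_, Or.inr ?_⟩⟩
        · simp [a1, HT]
        · simp only [Hu]; nlinarith
      · refine ⟨H, by simp, (seg_iff _ _ _).2 fun t t0 t1 => ?_⟩
        rcases t1.eq_or_lt with rfl | t1
        · exact Or.inl ⟨by simp [HT], Or.inr (by simp [Hu])⟩
        · refine Or.inr (Or.inl ⟨?_, ?_, ?_, fun e1 e2 => ?_⟩)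
          · simp only [HT]; nlinarith
          · simp only [Hu]; nlinarith
          · simp only [Hu, HT]; nlinarith
          · simp only [Hu] at e1
            have : t = 0 := by nlinarith
            subst this
            simp only [sub_zero, one_mul, zero_mul, add_zero] at *
            exact a4 e1 e2
      · refine ⟨g, by simp, (seg_iff _ _ _).2 fun t t0 t1 => ?_⟩
        rcases t1.eq_or_lt with rfl | t1
        · exact Or.inl ⟨by simp [gT], Or.inl (by simp [gu])⟩
        rcases t0.eq_or_lt with rfl | t0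
        · exact Or.inr (Or.inr ⟨by simp [a1], by simp [a2], fun i hi => by simp [a3 i hi]⟩)
        refine Or.inr (Or.inl ⟨?_, ?_, ?_, fun e1 e2 => hx _ e2 e1 fun i hi => ?_⟩)
        · simp only [gT, a2]; linarith
        · simp [gu, a1]
        · simp only [gu, gT, a1, a2]; linarith
        · simp only [gT, a2] at e2
          have : t = 1 / 2 := by linarith
          simp only [this, a3 i hi, g, if_pos hi]
          ring

end Pool.Agent.Lib.MP_42f8a6_lc
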