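import Pool.Agent.Lib.MP_42f8a6_lc.Elim
import Pool.Agent.Lib.MP_42f8a6_lc.ED

/-! Existential definability is preserved by a bounded number of universal real quantifiers. -/

set_option autoImplicit false
set_option linter.unusedSimpArgs false

namespace Pool.Agent.Lib.MP_42f8a6_lc

open Pool.Agent.Lib.Complexity Function Polynomial

variable {V W α β γ ι : Type} [Enc V] [Enc W] [Enc α] [Enc β] [Enc γ] [Enc ι] {i : ℕ}

theorem ED.forall_mem' {l : α → List β} (hl : PT l) {P : α × β → (V → ℝ) → Prop} (h : ED P) :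
    ED fun a ν => ∀ b ∈ l a, P (a, b) ν := ED.forall_mem hl (P := fun a b => P (a, b)) h

theorem ED.forall_lt' {n : α → ℕ} (hn : PT n) {P : α × ℕ → (V → ℝ) → Prop} (h : ED P) :
    ED fun a ν => ∀ i < n a, P (a, i) ν := ED.forall_lt hn (P := fun a b => P (a, b)) h

theorem ED.sum_elim {P : α × β → (V → ℝ) → Prop} {Q : α × γ → (V → ℝ) → Prop}
    (hP : ED P) (hQ : ED Q) :
    ED fun p : α × (β ⊕ γ) => Sum.elim (fun b => P (p.1, b)) (fun c => Q (p.1, c)) p.2 := by
  obtain ⟨F, hF, h⟩ := hP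
  obtain ⟨G, hG, h'⟩ := hQ
  refine ⟨fun p => Sum.elim (fun b => F (p.1, b)) (fun c => G (p.1, c)) p.2, by fun_prop, ?_⟩
  rintro ⟨a, b | c⟩ ν
  · exact h (a, b) ν
  · exact h' (a, c) ν

/-- the graph of `e` is existentially definable -/
def GD {α V : Type} [Enc α] [Enc V] (e : α → (V → ℝ) → ℝ) : Prop :=
  ED fun a (ω : V ⊕ Unit → ℝ) => ω (.inr ()) = e a fun v => ω (.inl v)

theorem GD.eqn {e : β → (W → ℝ) → ℝ} (h : GD e) {φ : α → β} (hφ : PT φ) {σ : α → W → TT V}
    (hσ : PT fun p : α × W => σ p.1 p.2) {τ : α → TT V} (hτ : PT τ) :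
    ED fun a ν => ev ν (τ a) = e (φ a) fun w => ev ν (σ a w) :=
  ED.subst h hφ (σ := fun a x => Sum.elim (σ a) (fun _ => τ a) x) (by fun_prop)

theorem GD.congr {e e' : α → (V → ℝ) → ℝ} (h : GD e) (he : ∀ a ν, e a ν = e' a ν) : GD e' :=
  ED.congr h fun a ω => by rw [he]

theorem GD.subst {e : β → (W → ℝ) → ℝ} (h : GD e) {φ : α → β} (hφ : PT φ) {σ : α → W → TT V}
    (hσ : PT fun p : α × W => σ p.1 p.2) : GD fun a ν => e (φ a) fun w => ev ν (σ a w) :=
  (h.eqn hφ (σ := fun a w => tsb (fun v => tv (.inl v)) (σ a w)) (by fun_prop)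
    (τ := fun _ => tv (.inr ())) (by fun_prop)).congr fun a ω => by simp

theorem GD.comp {e : β → (V → ℝ) → ℝ} (h : GD e) {φ : α → β} (hφ : PT φ) :
    GD fun a ν => e (φ a) ν := ED.comp h hφ

theorem GD.term {τ : α → TT V} (hτ : PT τ) : GD fun a ν => ev ν (τ a) :=
  (ED.eq (s := fun _ => tv (.inr ())) (t := fun a => tsb (fun v => tv (.inl v)) (τ a))
    (by fun_prop) (by fun_prop)).congr fun a ω => by simp

theorem GD.mul {e e' : α → (V → ℝ) → ℝ} (h : GD e) (h' : GD e') :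
    GD fun a ν => e a ν * e' a ν := by
  have h1 := h.eqn (V := (V ⊕ Unit) ⊕ Bool) PT.id (σ := fun _ v => tv (.inl (.inl v)))
    (by fun_prop) (τ := fun _ => tv (.inr true)) (by fun_prop)
  have h2 := h'.eqn (V := (V ⊕ Unit) ⊕ Bool) PT.id (σ := fun _ v => tv (.inl (.inl v)))
    (by fun_prop) (τ := fun _ => tv (.inr false)) (by fun_prop)
  have h3 := ED.eq (α := α) (V := (V ⊕ Unit) ⊕ Bool) (s := fun _ => tv (.inl (.inr ())))
    (t := fun _ => .mul (tv (.inr true)) (tv (.inr false))) (by fun_prop) (by fun_prop)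
  refine (ED.ex (P := fun a (ω : V ⊕ Unit → ℝ) (w : Bool → ℝ) =>
    w true = e a (fun v => ω (.inl v)) ∧ w false = e' a (fun v => ω (.inl v)) ∧
      ω (.inr ()) = w true * w false) (h1.and (h2.and h3))).congr fun a ω => ⟨?_, ?_⟩
  · rintro ⟨w, e1, e2, e3⟩; rw [e3, e1, e2]
  · intro h
    exact ⟨fun b => bif b then e a (fun v => ω (.inl v)) else e' a (fun v => ω (.inl v)),
      rfl, rfl, h⟩

theorem GD.ite {p : α → Prop} [DecidablePred p] (hp : PT fun a => decide (p a))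
    {e e' : α → (V → ℝ) → ℝ} (h : GD e) (h' : GD e') :
    GD fun a ν => if p a then e a ν else e' a ν :=
  (ED.cond hp h h').congr fun a ω => by by_cases hp : p a <;> simp [hp]

/-- evaluation of a univariate polynomial with parameters is definable -/
def PD {α V : Type} [Enc α] [Enc V] (p : α → (V → ℝ) → ℝ[X]) : Prop :=
  GD fun a (ω : V ⊕ Unit → ℝ) => (p a fun v => ω (.inl v)).eval (ω (.inr ()))

theorem PD.coeff {p : α → (V → ℝ) → ℝ[X]} (h : PD p) {D : α → ℕ} (hD : PT D)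
    (hd : ∀ a ν, (p a ν).natDegree ≤ D a) : GD fun (q : α × ℕ) ν => (p q.1 ν).coeff q.2 := by
  have h1 := ED.forall_lt' (α := α × ℕ) (n := fun q => D q.1 + 1) (by fun_prop)
    (h.eqn (V := (V ⊕ Unit) ⊕ ℕ) (φ := fun q : (α × ℕ) × ℕ => q.1.1) (by fun_prop)
      (σ := fun q x => Sum.elim (fun v => tv (.inl (.inl v))) (fun _ => tn q.2) x) (by fun_prop)
      (τ := fun q => tsum (List.range (D q.1.1 + 1)) fun l => .mul (tv (.inr l)) (tpow (tn q.2) l))
      (by fun_prop))
  have h2 := ED.eq (α := α × ℕ) (V := (V ⊕ Unit) ⊕ ℕ) (s := fun _ => tv (.inl (.inr ())))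
    (t := fun q => if q.2 < D q.1 + 1 then tv (.inr q.2) else tc 0) (by fun_prop) (by fun_prop)
  refine (ED.ex (P := fun (q : α × ℕ) (ω : V ⊕ Unit → ℝ) (c : ℕ → ℝ) =>
    (∀ m < D q.1 + 1, ∑ l ∈ Finset.range (D q.1 + 1), c l * (m : ℝ) ^ l
      = (p q.1 fun v => ω (.inl v)).eval (m : ℝ)) ∧
      ω (.inr ()) = if q.2 < D q.1 + 1 then c q.2 else 0)
    ((h1.and h2).congr fun q ω => by simp)).congr fun q ω => ⟨?_, ?_⟩
  · rintro ⟨c, e1, e2⟩
    rw [e2]
    split_ifs with hk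
    · exact (coeff_cert (hd _ _) c (fun m hm => (e1 m hm).symm) _ hk).symm
    · exact (coeff_eq_zero_of_natDegree_lt ((hd _ _).trans_lt (by omega))).symm
  · intro h
    refine ⟨(p q.1 fun v => ω (.inl v)).coeff, fun m _ => ?_, ?_⟩
    · rw [eval_eq_sum_range' (Nat.lt_succ_of_le (hd _ _))]
    · rw [h]
      split_ifs with hk
      · rfl
      · exact coeff_eq_zero_of_natDegree_lt ((hd _ _).trans_lt (by omega))

/-- entries of the Sylvester type matrix, from the coefficients -/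
def sylT (m : ℕ) (c : ℕ → TT V) (r j : ℕ) : TT V :=
  if j < m then (if j ≤ r then c (r - j) else tc 0)
  else (if j - m ≤ r then .mul (c (r - (j - m) + 1)) (tn (r - (j - m) + 1)) else tc 0)

noncomputable def sylR (m : ℕ) (c : ℕ → ℝ) (r j : ℕ) : ℝ :=
  if j < m then (if j ≤ r then c (r - j) else 0)
  else (if j - m ≤ r then c (r - (j - m) + 1) * ((r - (j - m) : ℕ) + 1) else 0)

omit [Enc V] in
@[simp] theorem ev_sylT (ν : V → ℝ) (m : ℕ) (c : ℕ → TT V) (r j : ℕ) :
    ev ν (sylT m c r j) = sylR m (fun k => ev ν (c k)) r j := by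
  simp [sylT, sylR]

@[fun_prop] theorem pt_sylT {m r j : α → ℕ} {c : α → ℕ → TT V} (hm : PT m) (hr : PT r)
    (hj : PT j) (hc : PT fun p : α × ℕ => c p.1 p.2) :
    PT fun a => sylT (m a) (c a) (r a) (j a) := by
  unfold sylT; fun_prop

theorem PD.resp {p : α → (V → ℝ) → ℝ[X]} (h : GD fun (q : α × ℕ) ν => (p q.1 ν).coeff q.2)
    {M : α → ℕ} (hM : PT M) : PD fun a ν => resp (M a) (p a ν) := by
  let Y := ((V ⊕ Unit) ⊕ Unit) ⊕ (ℕ × ℕ × ℕ)
  have h1 := ED.forall_lt' (α := α) (n := fun a => M a + M a + 1) (by fun_prop)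
    (h.eqn (V := Y) (φ := fun q : α × ℕ => q) (by fun_prop)
      (σ := fun _ v => tv (.inl (.inl (.inl v)))) (by fun_prop)
      (τ := fun q => tv (.inr (0, 0, q.2))) (by fun_prop))
  have h2 := ED.forall_lt' (α := α) (n := fun a => M a + M a) (by fun_prop)
    (ED.forall_lt' (α := α × ℕ) (n := fun q => M q.1 + M q.1) (by fun_prop)
      (ED.eq (α := (α × ℕ) × ℕ) (V := Y)
        (s := fun q => tsum (List.range (M q.1.1 + M q.1.1)) fun r =>
          .mul (tv (.inr (2, r, q.1.2))) (tv (.inr (2, r, q.2))))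
        (t := fun q => if q.1.2 = q.2 then tc 1 else tc 0) (by fun_prop) (by fun_prop)))
  have h3 := ED.forall_lt' (α := α) (n := fun a => M a + M a) (by fun_prop)
    (ED.forall_lt' (α := α × ℕ) (n := fun q => M q.1 + M q.1) (by fun_prop)
      (ED.eq (α := (α × ℕ) × ℕ) (V := Y)
        (s := fun q => tsum (List.range (M q.1.1 + M q.1.1)) fun r =>
          .mul (sylT (M q.1.1) (fun k => tv (.inr (0, 0, k))) r q.1.2)
            (sylT (M q.1.1) (fun k => tv (.inr (0, 0, k))) r q.2))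
        (t := fun q => tsum (List.range (M q.1.1 + M q.1.1)) fun r =>
          .mul (.mul (tv (.inr (2, q.1.2, r))) (tv (.inr (1, 0, r)))) (tv (.inr (2, q.2, r))))
        (by fun_prop) (by fun_prop)))
  have h4 := ED.eq (α := α) (V := Y) (s := fun _ => tv (.inl (.inr ())))
    (t := fun a => tprod (List.range (M a + M a)) fun r =>
      tsub (tv (.inl (.inl (.inr ())))) (tv (.inr (1, 0, r)))) (by fun_prop) (by fun_prop)
  refine (ED.ex (P := fun (a : α) (ω : (V ⊕ Unit) ⊕ Unit → ℝ) (w : ℕ × ℕ × ℕ → ℝ) =>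
    (∀ k < M a + M a + 1, w (0, 0, k) = (p a fun v => ω (.inl (.inl v))).coeff k) ∧
    (∀ x < M a + M a, ∀ y < M a + M a, ∑ r ∈ Finset.range (M a + M a), w (2, r, x) * w (2, r, y)
      = if x = y then 1 else 0) ∧
    (∀ x < M a + M a, ∀ y < M a + M a, ∑ r ∈ Finset.range (M a + M a),
      sylR (M a) (fun k => w (0, 0, k)) r x * sylR (M a) (fun k => w (0, 0, k)) r y
      = ∑ r ∈ Finset.range (M a + M a), w (2, x, r) * w (1, 0, r) * w (2, y, r)) ∧
    ω (.inr ()) = ∏ r ∈ Finset.range (M a + M a), (ω (.inl (.inr ())) - w (1, 0, r)))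
    ((h1.and (h2.and (h3.and h4))).congr fun q ω => by simp)).congr fun a ω => ⟨?_, ?_⟩
  · rintro ⟨w, e1, e2, e3, e4⟩
    refine (charpoly_cert_nat _ (sylR (M a) fun k => w (0, 0, k)) (fun r j => ?_) _ _).2
      ⟨fun x y => w (2, x, y), fun r => w (1, 0, r), e2, e3, e4⟩
    have := r.2
    simp only [sylv, Matrix.of_apply, coeff_colp, sylR]
    split_ifs
    · rw [e1 _ (by omega)]
    · rfl
    · rw [e1 _ (by omega)]
    · rfl
  · intro h
    obtain ⟨U, l, e2, e3, e4⟩ := (charpoly_cert_nat _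
      (sylR (M a) (p a fun v => ω (.inl (.inl v))).coeff)
      (fun r j => by simp only [sylv, Matrix.of_apply, coeff_colp, sylR]) _ _).1 h
    exact ⟨fun t => if t.1 = 0 then (p a fun v => ω (.inl (.inl v))).coeff t.2.2
      else if t.1 = 1 then l t.2.2 else U t.2.1 t.2.2, by simp, by simpa using e2,
      by simpa using e3, by simpa using e4⟩

/-- evaluation of a multivariate polynomial with parameters is definable -/
def FD {α V : Type} [Enc α] [Enc V] {i : ℕ} (f : α → (V → ℝ) → MP i) : Prop :=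
  GD fun a (ω : V ⊕ Fin i → ℝ) =>
    MvPolynomial.eval (fun k => ω (.inr k)) (f a fun v => ω (.inl v))

@[fun_prop] theorem pt_finCons {y : α → β} {x : α → Fin i → β} {k : α → Fin (i + 1)}
    (hy : PT y) (hx : PT fun p : α × Fin i => x p.1 p.2) (hk : PT k) :
    PT fun a => (Fin.cons (y a) (x a) : Fin (i + 1) → β) (k a) := by
  have h1 : PT fun k : Fin (i + 1) => (Fin.cons none Option.some : Fin (i + 1) → Option (Fin i)) k :=
    PT.of_fintype _
  refine (PT.option_elim (h1.comp hk) hy hx).of_eq fun a => ?_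
  induction k a using Fin.cases <;> rfl

omit [Enc V] in
theorem ev_finCons (ν : V → ℝ) (y : TT V) (x : Fin i → TT V) :
    (fun k => ev ν ((Fin.cons y x : Fin (i + 1) → TT V) k))
      = (Fin.cons (ev ν y) (fun k => ev ν (x k)) : Fin (i + 1) → ℝ) := by
  funext k; induction k using Fin.cases <;> rfl

theorem FD.uni {f : α → (V → ℝ) → MP (i + 1)} (h : FD f) :
    PD fun a (ω : V ⊕ Fin i → ℝ) => uni (f a fun v => ω (.inl v)) fun k => ω (.inr k) :=
  (GD.subst h PT.id (V := (V ⊕ Fin i) ⊕ Unit)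
    (σ := fun _ x => Sum.elim (fun v => tv (.inl (.inl v)))
      (fun k => (Fin.cons (tv (.inr ())) (fun k' => tv (.inl (.inr k'))) :
        Fin (i + 1) → TT ((V ⊕ Fin i) ⊕ Unit)) k) x) (by fun_prop)).congr
    fun a ω => by simp [eval_uni, ev_finCons]

theorem FD.proj {f : α → ι → (V → ℝ) → MP (i + 1)} (h : FD fun p : α × ι => f p.1 p.2)
    {D : α → ℕ} (hD : PT D) (hd : ∀ a j ν, (f a j ν).totalDegree ≤ D a) :
    FD fun (p : α × ((ι × ℕ) ⊕ (ι × ι × ℕ))) ν => proj (D p.1) (fun j => f p.1 j ν) p.2 := by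
  have h1 := (h.uni.coeff (D := fun p => D p.1) (by fun_prop)
    fun p ω => (natDegree_uni _ _).trans (hd _ _ _)).comp
      (φ := fun p : α × ι × ℕ => ((p.1, p.2.1), p.2.2)) (by fun_prop)
  have h2 : FD fun (p : α × ι × ι) ν => f p.1 p.2.1 ν * f p.1 p.2.2 ν :=
    ((GD.comp h (φ := fun p : α × ι × ι => (p.1, p.2.1)) (by fun_prop)).mul
      (GD.comp h (φ := fun p : α × ι × ι => (p.1, p.2.2)) (by fun_prop))).congr
      fun a ν => by simp
  have h3 := h2.uni.coeff (D := fun p => D p.1 + D p.1) (by fun_prop)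
    fun p ω => (natDegree_uni _ _).trans ((MvPolynomial.totalDegree_mul _ _).trans
      (Nat.add_le_add (hd _ _ _) (hd _ _ _)))
  have h4 := ((PD.resp (p := fun (p : α × ι × ι) (ω : V ⊕ Fin i → ℝ) =>
      MP_42f8a6_lc.uni ((f p.1 p.2.1 fun v => ω (.inl v)) * f p.1 p.2.2 fun v => ω (.inl v))
        fun k => ω (.inr k)) h3 (M := fun p => D p.1 + D p.1) (by fun_prop)).coeff
    (D := fun p => (D p.1 + D p.1) + (D p.1 + D p.1)) (by fun_prop)
    fun p ω => natDegree_resp _ _).comp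
      (φ := fun p : α × ι × ι × ℕ => ((p.1, p.2.1, p.2.2.1), p.2.2.2)) (by fun_prop)
  refine (ED.sum_elim h1 h4).congr ?_
  rintro ⟨a, q | q⟩ ω
  · simp [MP_42f8a6_lc.proj, MP_42f8a6_lc.uni, coeff_map]
  · simp only [MP_42f8a6_lc.proj, MP_42f8a6_lc.uni, Sum.elim_inr, resp_map, coeff_map]

/-- definable, and invariant with respect to a definable family of polynomials -/
def Good {α V : Type} [Enc α] [Enc V] (i : ℕ) (Q : α → (V → ℝ) → (Fin i → ℝ) → Prop) : Prop :=
  ED (fun a (ω : V ⊕ Fin i → ℝ) => Q a (fun v => ω (.inl v)) fun k => ω (.inr k)) ∧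
  ∃ (ι : Type) (_ : Enc ι) (I : α → List ι) (D : α → ℕ) (f : α → ι → (V → ℝ) → MP i),
    PT I ∧ PT D ∧ FD (fun p : α × ι => f p.1 p.2) ∧ (∀ a j ν, (f a j ν).totalDegree ≤ D a) ∧
    ∀ a ν, Inv (I a) (fun j => f a j ν) (Q a ν)

theorem Good.mk' {Q : α → (V → ℝ) → (Fin i → ℝ) → Prop}
    (h : ED (fun a (ω : V ⊕ Fin i → ℝ) => Q a (fun v => ω (.inl v)) fun k => ω (.inr k)))
    {I : α → List ι} {D : α → ι → ℕ} {f : α → ι → (V → ℝ) → MP i} (hI : PT I)
    (hD : PT fun p : α × ι => D p.1 p.2) (hf : FD fun p : α × ι => f p.1 p.2)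
    (hd : ∀ a j ν, (f a j ν).totalDegree ≤ D a j)
    (hinv : ∀ a ν, Inv (I a) (fun j => f a j ν) (Q a ν)) : Good i Q := by
  refine ⟨h, ι, inferInstance, I, fun a => ((I a).map (D a)).sum,
    fun a j ν => if D a j ≤ ((I a).map (D a)).sum then f a j ν else 0, hI, by fun_prop, ?_, ?_, ?_⟩
  · exact (GD.ite (p := fun p : α × ι => D p.1 p.2 ≤ ((I p.1).map (D p.1)).sum) (by fun_prop) hf
      (GD.term (τ := fun _ => tc 0) (by fun_prop))).congr fun p ω => by
        beta_reduce; split_ifs <;> simp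
  · intro a j ν
    beta_reduce
    split_ifs with h
    · exact (hd a j ν).trans h
    · simp
  · intro a ν γ hγ H
    refine hinv a ν γ hγ fun j hj => ?_
    have := H j hj
    simp only [List.le_sum_of_mem (List.mem_map_of_mem (f := D a) hj), if_true] at this
    exact this

theorem Good.forall_cons {Q : α → (V → ℝ) → (Fin (i + 1) → ℝ) → Prop} (h : Good (i + 1) Q) :
    Good i fun a ν x => ∀ y, Q a ν (Fin.cons y x) := by
  obtain ⟨hQ, ι, _, I, D, f, hI, hD, hf, hd, hinv⟩ := h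
  refine ⟨?_, _, inferInstance, fun a => projIdx (D a) (I a), fun a => 16 * D a * D a + D a,
    fun a q ν => proj (D a) (fun j => f a j ν) q, by unfold projIdx; fun_prop, by fun_prop,
    hf.proj hD hd, fun a q ν => totalDegree_proj (fun j => hd a j ν) q,
    fun a ν => inv_forall (fun j _ => hd a j ν) (hinv a ν)⟩
  let Y := (V ⊕ Fin i) ⊕ ((ι × ℕ) × ℕ)
  have hu := hf.uni
  have h1 := ED.forall_mem' (α := α) hI (ED.forall_lt' (α := α × ι) (n := fun p => 2 * D p.1 + 3)
    (by fun_prop) ((GD.mul hu hu).eqn (V := Y) (φ := fun q : (α × ι) × ℕ => q.1) (by fun_prop)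
      (σ := fun q x => Sum.elim (fun v => tv (.inl v)) (fun _ => tn q.2) x) (by fun_prop)
      (τ := fun q => tprod (List.range (D q.1.1 + 1)) fun l =>
        .add (tpow (.mul (tv (.inr ((q.1.2, l), 0)))
          (tsub (tn q.2) (.mul (tc 2) (tv (.inr ((q.1.2, l), 1)))))) 2)
          (tpow (tv (.inr ((q.1.2, l), 2))) 2)) (by fun_prop)))
  have hs : ∀ {δ : Type} [Enc δ] {φ : δ → α} {τ : δ → TT Y}, PT φ → PT τ →
      ED fun d (ω : Y → ℝ) => Q (φ d) (fun v => ω (.inl (.inl v)))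
        (Fin.cons (ev ω (τ d)) fun k => ω (.inl (.inr k))) := fun {δ} _ {φ τ} hφ hτ =>
    (hQ.subst hφ (σ := fun d x => Sum.elim (fun v => tv (.inl (.inl v)))
      (fun k => (Fin.cons (τ d) (fun k' => tv (.inl (.inr k'))) : Fin (i + 1) → TT Y) k) x)
      (by fun_prop)).congr fun d ω => by simp [ev_finCons]
  have h2 := hs PT.id (τ := fun _ => tc 0) (by fun_prop)
  let A : α → List (ι × ℕ) := fun a => (I a).flatMap fun j => (List.range (D a + 1)).map fun l => (j, l)
  have hA : PT A := by fun_prop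
  have h3 := ED.forall_mem' (α := α) hA (ED.forall_mem' (α := α × ι × ℕ) (l := fun p => A p.1)
    (by fun_prop) (ED.forall_mem' (α := (α × ι × ℕ) × ι × ℕ) (l := fun _ => [(-1 : ℤ), 0, 1])
      (by fun_prop) (hs (φ := fun q : ((α × ι × ℕ) × ι × ℕ) × ℤ => q.1.1.1)
        (τ := fun q => .add (.add (tv (.inr (q.1.1.2, 1))) (tv (.inr (q.1.2, 1)))) (tc q.2))
        (by fun_prop) (by fun_prop))))
  refine (ED.ex (P := fun (a : α) (ω : V ⊕ Fin i → ℝ) (w : (ι × ℕ) × ℕ → ℝ) =>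
    (∀ j ∈ I a, ∀ m < 2 * D a + 3,
      ∏ l ∈ Finset.range (D a + 1), ((w ((j, l), 0) * (m - 2 * w ((j, l), 1))) ^ 2
        + w ((j, l), 2) ^ 2)
      = (uni (f a j fun v => ω (.inl v)) fun k => ω (.inr k)).eval (m : ℝ) ^ 2) ∧
    Q a (fun v => ω (.inl v)) (Fin.cons 0 fun k => ω (.inr k)) ∧
    ∀ s ∈ A a, ∀ t ∈ A a, ∀ c ∈ [(-1 : ℤ), 0, 1],
      Q a (fun v => ω (.inl v)) (Fin.cons (w (s, 1) + w (t, 1) + c) fun k => ω (.inr k)))
    ((h1.and (h2.and h3)).congr fun a ω => by simp [sq])).congr fun a ω => ⟨?_, ?_⟩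
  · rintro ⟨w, e1, e2, e3⟩
    refine inv_sample (hinv a _) _ (A a) (fun s => w (s, 1)) (fun j hj h0 y hy => ?_) e2 e3
    obtain ⟨l, hl, e⟩ := root_cert_sound ((natDegree_uni _ _).trans (hd a j _))
      (fun m hm => (e1 j hj m hm).symm) h0 y hy
    exact ⟨(j, l), by simp [A, hj]; omega, e⟩
  · intro H
    choose a1 a2 a3 ha using fun j => root_cert_complete
      ((natDegree_uni (f a j fun v => ω (.inl v)) fun k => ω (.inr k)).trans (hd a j _))
    exact ⟨fun t => if t.2 = 0 then a1 t.1.1 t.1.2 else if t.2 = 1 then a2 t.1.1 t.1.2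
      else a3 t.1.1 t.1.2, fun j _ m _ => by simp [ha], H _, fun _ _ _ _ _ _ => H _⟩

theorem Good.exists_mem {l : α → List β} (hl : PT l)
    {Q : α → β → (V → ℝ) → (Fin i → ℝ) → Prop} (h : Good i fun p : α × β => Q p.1 p.2) :
    Good i fun a ν x => ∃ b ∈ l a, Q a b ν x := by
  obtain ⟨hQ, ι, _, I, D, f, hI, hD, hf, hd, hinv⟩ := h
  refine Good.mk' (ED.exists_mem hl hQ) (ι := β × ι)
    (I := fun a => (l a).flatMap fun b => (I (a, b)).map fun j => (b, j))
    (D := fun a q => D (a, q.1)) (f := fun a q => f (a, q.1) q.2) (by fun_prop) (by fun_prop)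
    (GD.comp hf (φ := fun p : α × β × ι => ((p.1, p.2.1), p.2.2)) (by fun_prop))
    (fun a q ν => hd _ _ _) ?_
  rintro a ν γ hγ H ⟨b, hb, h0⟩
  exact ⟨b, hb, hinv (a, b) ν γ hγ (fun j hj => H (b, j) (by simp [hb, hj])) h0⟩

theorem Good.forall_all {Q : α → (V → ℝ) → (Fin i → ℝ) → Prop} (h : Good i Q) :
    ED fun a ν => ∀ x, Q a ν x := by
  induction i with
  | zero =>
    refine (h.1.subst PT.id (σ := fun _ x => Sum.elim tv (fun _ => tc 0) x) (by fun_prop)).congr
      fun a ν => ⟨fun H x => ?_, fun H => H _⟩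
    rwa [Subsingleton.elim x fun _ => ev ν (tc 0)]
  | succ i ih =>
    exact (ih h.forall_cons).congr fun a ν =>
      ⟨fun H x => by rw [← Fin.cons_self_tail x]; exact H _ _, fun H _ _ => H _⟩

/-! ### quantifier-free formulas -/

def atoms : FF V → List (TT V)
  | .eq s t => [tsub s t]
  | .lt s t => [tsub s t]
  | .not p => atoms p
  | .and p q => atoms p ++ atoms q
  | .or p q => atoms p ++ atoms q

theorem pt_atoms : PT (atoms : FF V → _) := by
  have := pt_fm_rec (α := Unit) (A := V ⊕ ℤ) (g := fun _ p => atoms p)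
    (f0 := fun _ _ s t => [tsub s t]) (f1 := fun _ r => r) (f := fun _ _ r r' => r ++ r')
    (by fun_prop) (by fun_prop) (by fun_prop) (fun _ _ _ => rfl) (fun _ _ _ => rfl) (fun _ _ => rfl)
    (fun _ _ _ => rfl) (fun _ _ _ => rfl) (PT.const 0) (by simp) (by simp)
  exact this.comp (f := fun p => ((), p)) (by fun_prop)

noncomputable def toMP (ν : V → ℝ) : TT (V ⊕ Fin i) → MP i
  | .leaf (.inl (.inl v)) => MvPolynomial.C (ν v)
  | .leaf (.inl (.inr k)) => MvPolynomial.X k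
  | .leaf (.inr c) => MvPolynomial.C (c : ℝ)
  | .add s t => toMP ν s + toMP ν t
  | .mul s t => toMP ν s * toMP ν t

omit [Enc V] in
theorem eval_toMP (ν : V → ℝ) (x : Fin i → ℝ) (t : TT (V ⊕ Fin i)) :
    MvPolynomial.eval x (toMP ν t) = ev (Sum.elim ν x) t := by
  induction t with
  | leaf a => rcases a with (v | k) | c <;> simp [toMP, ev, Tm.eval, val]
  | add s t ihs iht => simp [toMP, ihs, iht]
  | mul s t ihs iht => simp [toMP, ihs, iht]

theorem totalDegree_toMP (ν : V → ℝ) (t : TT (V ⊕ Fin i)) : (toMP ν t).totalDegree ≤ sz t := by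
  induction t with
  | leaf a => rcases a with (v | k) | c <;> simp [toMP, -map_intCast]
  | add s t ihs iht =>
    refine (MvPolynomial.totalDegree_add _ _).trans ?_
    simp only [sz_add]; omega
  | mul s t ihs iht =>
    refine (MvPolynomial.totalDegree_mul _ _).trans ?_
    simp only [sz_mul]; omega

theorem neg_of_path {g : ℝ → ℝ} (hg : Continuous g) (h : ∀ s s', g s = 0 → g s' = 0) {s s' : ℝ}
    (h0 : g s < 0) : g s' < 0 := by
  by_contra h1
  obtain ⟨t, ht⟩ := intermediate_value_univ s s' hg ⟨h0.le, not_lt.1 h1⟩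
  exact h0.ne (h t s ht)

omit [Enc V] in
theorem sat_path (ν : V → ℝ) {γ : ℝ → Fin i → ℝ} (hγ : Continuous γ) (p : FF (V ⊕ Fin i))
    (H : ∀ t ∈ atoms p, ∀ s s', MvPolynomial.eval (γ s) (toMP ν t) = 0 →
      MvPolynomial.eval (γ s') (toMP ν t) = 0) (s s' : ℝ) :
    sat (Sum.elim ν (γ s)) p ↔ sat (Sum.elim ν (γ s')) p := by
  induction p with
  | eq a b =>
    have := H (tsub a b) (by simp [atoms])
    simp only [eval_toMP, ev_tsub, sub_eq_zero] at this
    exact ⟨this s s', this s' s⟩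
  | lt a b =>
    have h1 := fun s s' => neg_of_path ((MvPolynomial.continuous_eval _).comp hγ)
      (H (tsub a b) (by simp [atoms])) (s := s) (s' := s')
    simp only [Function.comp, eval_toMP, ev_tsub, sub_neg] at h1
    exact ⟨h1 s s', h1 s' s⟩
  | not p ih => exact not_congr (ih H)
  | and p q ihp ihq =>
    exact and_congr (ihp fun t ht => H t (by simp [atoms, ht]))
      (ihq fun t ht => H t (by simp [atoms, ht]))
  | or p q ihp ihq =>
    exact or_congr (ihp fun t ht => H t (by simp [atoms, ht]))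
      (ihq fun t ht => H t (by simp [atoms, ht]))

omit [Enc V] in
theorem elim_eta (ω : V ⊕ Fin i → ℝ) :
    (Sum.elim (fun v => ω (.inl v)) fun k => ω (.inr k)) = ω := by
  funext x; cases x <;> rfl

theorem Good.qf {F : α → FF (V ⊕ Fin i)} (hF : PT F) :
    Good i fun a ν x => sat (Sum.elim ν x) (F a) :=
  Good.mk' ((ED.qf hF).congr fun a ω => by rw [elim_eta]) (I := fun a => atoms (F a))
    (D := fun _ t => sz t) (f := fun _ t ν => toMP ν t) (pt_atoms.comp hF) (by fun_prop)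
    ((GD.term (τ := fun p : α × TT (V ⊕ Fin i) => p.2) (by fun_prop)).congr fun p ω => by
      rw [eval_toMP, elim_eta])
    (fun _ t ν => totalDegree_toMP ν t) fun a ν _ hγ H => (sat_path ν hγ (F a) H 0 1).1

end Pool.Agent.Lib.MP_42f8a6_lc
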