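import Pool.Agent.Lib.MP_42f8a6_lc.Good

/-! The art gallery problem in fixed dimension reduces to the existential theory of the reals. -/

set_option autoImplicit false
set_option linter.unusedSimpArgs false

namespace Pool.Agent.Lib.MP_42f8a6_lc

open Pool.Agent.Lib.Complexity Function N487b59b3

variable {d : ℕ}

theorem guardable_iff (S : Set (Fin d → ℝ)) (k : ℕ) :
    Guardable S k ↔ ∃ g : ℕ × Fin d → ℝ, (∀ b < k, (fun i => g (b, i)) ∈ S) ∧
      (∀ b < k, ∀ c < k, b = c ∨ ∃ i ∈ List.finRange d, g (b, i) ≠ g (c, i)) ∧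
      ∀ p : Fin d → ℝ, ∃ b ∈ List.range (k + 1), ∀ t : ℝ,
        if b < k then (t < 0 ∨ 1 < t) ∨ (fun i => (1 - t) * p i + t * g (b, i)) ∈ S else p ∉ S := by
  classical
  have seg : ∀ p q : Fin d → ℝ, segment ℝ p q ⊆ S ↔
      ∀ t : ℝ, (t < 0 ∨ 1 < t) ∨ (fun i => (1 - t) * p i + t * q i) ∈ S := by
    intro p q
    rw [segment_eq_image, Set.image_subset_iff]
    refine forall_congr' fun t => ?_
    rw [or_iff_not_imp_left, not_or, not_lt, not_lt]
    rfl
  constructor
  · rintro ⟨G, hk, hS, hG⟩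
    let e := (Finset.equivFinOfCardEq hk).symm
    refine ⟨fun q => if h : q.1 < k then (e ⟨q.1, h⟩ : Fin d → ℝ) q.2 else 0, fun b hb => ?_,
      fun b hb c hc => ?_, fun p => ?_⟩
    · simpa [hb] using hS (e ⟨b, hb⟩).2
    · rw [or_iff_not_imp_right]
      intro h
      have : e ⟨b, hb⟩ = e ⟨c, hc⟩ := Subtype.ext (funext fun i => by simpa [hb, hc] using
        (not_not.1 fun h' => h ⟨i, List.mem_finRange i, h'⟩))
      simpa using this
    · by_cases hp : p ∈ S
      · obtain ⟨g, hg, h⟩ := hG p hp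
        obtain ⟨b, hb⟩ := e.surjective ⟨g, hg⟩
        refine ⟨b, by simp, fun t => ?_⟩
        simpa [hb] using (seg p g).1 h t
      · exact ⟨k, by simp, fun t => by simpa using hp⟩
  · rintro ⟨g, h1, h2, h3⟩
    refine ⟨(Finset.range k).image fun b i => g (b, i), ?_, ?_, fun p hp => ?_⟩
    · rw [Finset.card_image_of_injOn, Finset.card_range]
      intro b hb c hc e
      rcases h2 b (by simpa using hb) c (by simpa using hc) with h | ⟨i, _, h⟩
      · exact h
      · exact absurd (congrFun e i) h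
    · intro x hx
      obtain ⟨b, hb, rfl⟩ := Finset.mem_image.1 hx
      exact h1 b (Finset.mem_range.1 hb)
    · obtain ⟨b, _, h⟩ := h3 p
      by_cases hb : b < k
      · simp only [hb, if_true] at h
        exact ⟨_, Finset.mem_image.2 ⟨b, Finset.mem_range.2 hb, rfl⟩, (seg _ _).2 h⟩
      · simp only [hb, if_false] at h
        exact absurd hp (h 0)

theorem ed_guardable (d : ℕ) :
    ED fun (a : ℕ × FF (Fin d)) (_ : Unit → ℝ) => Guardable {x | sat x a.2} a.1 := by
  let V := Unit ⊕ (ℕ × Fin d)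
  have h1 := ED.forall_lt' (α := ℕ × FF (Fin d)) (n := fun a => a.1) (by fun_prop)
    (ED.qf (V := V) (F := fun q : (ℕ × FF (Fin d)) × ℕ =>
      fsb (fun i => tv (.inr (q.2, i))) q.1.2) (by fun_prop))
  have h2 := ED.forall_lt' (α := ℕ × FF (Fin d)) (n := fun a => a.1) (by fun_prop)
    (ED.forall_lt' (α := (ℕ × FF (Fin d)) × ℕ) (n := fun a => a.1.1) (by fun_prop)
      (ED.qf (V := V) (F := fun q : ((ℕ × FF (Fin d)) × ℕ) × ℕ =>
        .or (.eq (tn q.1.2) (tn q.2)) (fex (List.finRange d) fun i =>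
          .not (.eq (tv (.inr (q.1.2, i))) (tv (.inr (q.2, i)))))) (by fun_prop)))
  have hs : PT fun i : Fin d => i.succ := PT.of_fintype _
  have h3 := (Good.exists_mem (α := ℕ × FF (Fin d)) (l := fun a => List.range (a.1 + 1))
    (by fun_prop) (Q := fun a b ν x => ∀ y, sat (Sum.elim ν (Fin.cons y x : Fin (d + 1) → ℝ))
      (if b < a.1 then
        .or (.or (.lt (tv (.inr 0)) (tc 0)) (.lt (tc 1) (tv (.inr 0))))
          (fsb (fun i => .add (.mul (tsub (tc 1) (tv (.inr 0))) (tv (.inr i.succ)))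
            (.mul (tv (.inr 0)) (tv (.inl (.inr (b, i)))))) a.2)
        else .not (fsb (fun i => tv (.inr i.succ)) a.2) : FF (V ⊕ Fin (d + 1))))
    (Good.qf (V := V) (i := d + 1) (F := fun q : (ℕ × FF (Fin d)) × ℕ =>
      if q.2 < q.1.1 then
        .or (.or (.lt (tv (.inr 0)) (tc 0)) (.lt (tc 1) (tv (.inr 0))))
          (fsb (fun i => .add (.mul (tsub (tc 1) (tv (.inr 0))) (tv (.inr i.succ)))
            (.mul (tv (.inr 0)) (tv (.inl (.inr (q.2, i)))))) q.1.2)
        else .not (fsb (fun i => tv (.inr i.succ)) q.1.2)) (by fun_prop)).forall_cons).forall_all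
  refine (ED.ex (P := fun (a : ℕ × FF (Fin d)) (_ : Unit → ℝ) (g : ℕ × Fin d → ℝ) =>
    (∀ b < a.1, (fun i => g (b, i)) ∈ {x | sat x a.2}) ∧
      (∀ b < a.1, ∀ c < a.1, b = c ∨ ∃ i ∈ List.finRange d, g (b, i) ≠ g (c, i)) ∧
      ∀ p : Fin d → ℝ, ∃ b ∈ List.range (a.1 + 1), ∀ t : ℝ,
        if b < a.1 then (t < 0 ∨ 1 < t) ∨ (fun i => (1 - t) * p i + t * g (b, i)) ∈ {x | sat x a.2}
        else p ∉ {x | sat x a.2})
    ((h1.and (h2.and h3)).congr fun a ω => ?_)).congr fun a _ => (guardable_iff _ _).symm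
  refine and_congr (by simp) (and_congr (by simp) (forall_congr' fun p => exists_congr fun b =>
    and_congr_right fun _ => forall_congr' fun t => ?_))
  split_ifs <;> simp

/-! ### translation into the signature with constants `0` and `1` -/

section
variable {A B V α : Type}

theorem Tm.tk_bind (c : B → ℤ × ℤ) (r : A → B) (t : Tm A) :
    (t.bind fun a => .leaf (r a)).tk c = t.tk fun a => c (r a) := by
  induction t <;> simp [Tm.bind, Tm.tk, *]

theorem Fm.tk_bind (c : B → ℤ × ℤ) (r : A → B) (p : Fm A) :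
    (p.bind fun a => .leaf (r a)).tk c = p.tk fun a => c (r a) := by
  induction p <;> simp [Fm.bind, Fm.tk, Tm.tk_bind, *]

def binT (l : Str) : Tm (ℤ ⊕ Bool) :=
  l.foldr (fun b t => .add (.mul (.add (.leaf (.inr true)) (.leaf (.inr true))) t) (.leaf (.inr b)))
    (.leaf (.inr false))

noncomputable def val01 (x : A → ℝ) : A ⊕ Bool → ℝ := Sum.elim x fun b : Bool => if b then 1 else 0

theorem eval_binT (x : ℤ → ℝ) (l : Str) : (binT l).eval (val01 x) = bval l := by
  induction l with
  | nil => simp [binT, Tm.eval, val01]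
  | cons b l ih =>
    simp only [binT, List.foldr_cons, Tm.eval] at ih ⊢
    rw [ih]
    cases b <;> simp only [val01, Sum.elim_inr, bval_cons] <;> push_cast <;> norm_num

@[fun_prop] theorem pt_binT [Enc α] {l : α → Str} (hl : PT l) : PT fun a => binT (l a) :=
  PT.foldr_add' (f := fun _ b (t : Tm (ℤ ⊕ Bool)) =>
      Tm.add (.mul (.add (.leaf (.inr true)) (.leaf (.inr true))) t) (.leaf (.inr b)))
    (g := fun _ _ => 30) hl (PT.const (Tm.leaf (Sum.inr false))) (by fun_prop) (by fun_prop)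
    fun a b t => by have := sz_bool b; simp; omega

def name [Enc V] (v : V) : ℕ := bval ((enc v).bits ++ [true])

theorem bits_bval_append (l : Str) : (bval (l ++ [true])).bits = l ++ [true] := by
  induction l with
  | nil => simp
  | cons b l ih =>
    rw [List.cons_append, bval_cons, ← Nat.bit_val, Nat.bits_append_bit _ _ fun h => ?_, ih]
    rw [h] at ih; simp at ih

theorem name_inj [Enc V] : Injective (name : V → ℕ) := fun a b h => by
  have := congrArg Nat.bits h
  simp only [name, bits_bval_append, List.append_cancel_right_eq] at this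
  exact Enc.inj (PT.bits_inj this)

theorem name_ne_zero [Enc V] (v : V) : name v ≠ 0 := fun h => by
  have := bits_bval_append (enc v).bits
  rw [show bval ((enc v).bits ++ [true]) = 0 from h] at this
  simp at this

def trLeaf [Enc V] : V ⊕ ℤ → Tm (ℤ ⊕ Bool) :=
  Sum.elim (fun v => .leaf (.inl (name v : ℤ)))
    fun c => .add (binT c.toNat.bits) (.mul (.leaf (.inl 0)) (binT (-c).toNat.bits))

def tr [Enc V] (p : FF V) : Fm (ℤ ⊕ Bool) :=
  .and (.eq (.add (.leaf (.inl 0)) (.leaf (.inr true))) (.leaf (.inr false))) (p.bind trLeaf)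

instance : Inhabited (ℤ ⊕ Bool) := ⟨.inr false⟩

theorem pt_tr [Enc V] : PT (tr : FF V → _) := by
  have h1 : PT fun v : V => (name v : ℤ) := PT.int_of_bin (PT.bval (by fun_prop))
  have h2 : PT (trLeaf : V ⊕ ℤ → _) :=
    PT.sum_elim PT.id (pt_leaf (PT.inl (h1.comp (PT.snd PT.id)))) (by fun_prop)
  unfold tr; fun_prop

theorem tr_sat [Enc V] (p : FF V) :
    (∃ x : ℕ → ℝ, (tr p).Holds (val01 fun z => x z.toNat)) ↔ ∃ ω, sat ω p := by
  classical
  have key : ∀ x : ℕ → ℝ, x 0 = -1 → (fun a => (trLeaf a).eval (val01 fun z => x z.toNat))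
      = val fun v : V => x (name v) := by
    intro x hx
    funext a
    rcases a with v | c
    · simp [trLeaf, Tm.eval, val01, val]
    · simp only [trLeaf, Sum.elim_inr, Tm.eval, eval_binT, bval_bits, val]
      have := Int.toNat_sub_toNat_neg c
      simp only [val01, Sum.elim_inl, Int.toNat_zero, hx]
      conv_rhs => rw [← this]
      push_cast; ring
  constructor
  · rintro ⟨x, h1, h2⟩
    have hx : x 0 = -1 := by
      simp only [Fm.Holds, Tm.eval, val01] at h1
      simp at h1; linarith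
    rw [Fm.holds_bind, key x hx] at h2
    exact ⟨_, h2⟩
  · rintro ⟨ω, h⟩
    refine ⟨fun n => if n = 0 then -1 else extend name ω 0 n, by simp [Fm.Holds, Tm.eval, val01], ?_⟩
    rw [Fm.holds_bind, key (fun n => if n = 0 then -1 else extend name ω 0 n) (by simp)]
    simp only [name_ne_zero, if_false, name_inj.extend_apply]
    exact h

end

def cE : ℕ ⊕ Bool → ℕ × ℤ :=
  Sum.elim (fun i : ℕ => (0, (i : ℤ))) fun b : Bool => (1, if b then 1 else 0)

def cZ : ℤ ⊕ Bool → ℤ × ℤ :=
  Sum.elim (fun z => (0, (z.toNat : ℤ))) fun b : Bool => (1, if b then 1 else 0)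

theorem pt_cZ : PT cZ := by
  have : PT fun z : ℤ => (z.toNat : ℤ) := PT.int_of_bin (PT.toNat_bits PT.id)
  exact PT.sum_elim PT.id ((PT.const _).prodMk (this.comp (PT.snd PT.id))) (by fun_prop)

theorem up_toks {A : Type} (c : A → ℕ × ℤ) (p : Fm A) :
    (Rep.up (p.toks c) : List (ℤ × ℤ)) = p.tk fun a => (((c a).1 : ℤ), (c a).2) :=
  Fm.up_toks c p

theorem toks_cE_inj {p q : Fm (ℕ ⊕ Bool)} (h : p.toks cE = q.toks cE) : p = q := by
  let _ : Inhabited (ℕ ⊕ Bool) := ⟨.inr false⟩
  have key := fun p : Fm (ℕ ⊕ Bool) => parseFm_tk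
    (r := fun k : ℤ × ℤ => if k.1 = 0 then Sum.inl k.2.toNat else Sum.inr (decide (k.2 = 1)))
    (c := fun a => (((cE a).1 : ℤ), (cE a).2))
    (by rintro (i | b)
        · simp [cE]
        · cases b <;> simp [cE])
    (by rintro (i | b) <;> simp [cE]) p
  rw [← key p, ← key q, ← up_toks, ← up_toks, h]

/-- the word of an existential sentence -/
def outW {V : Type} [Enc V] (p : FF V) : Str :=
  bitEncode (Rep.down ((tr p).tk cZ) : List (ℕ × ℤ))

theorem pt_outW {V : Type} [Enc V] : PT (outW : FF V → Str) :=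
  PT.encode (List (ℕ × ℤ)) (pt_fm_tk pt_cZ pt_tr)

theorem etr_outW {V : Type} [Enc V] (p : FF V) : etr (outW p) = true ↔ ∃ ω, sat ω p := by
  have e : (Rep.down ((tr p).tk cZ) : List (ℕ × ℤ))
      = ((tr p).bind fun a => .leaf (Sum.map Int.toNat id a)).toks cE := by
    rw [← Rep.down_up (Fm.toks cE _), up_toks, Fm.tk_bind]
    congr 2
    funext a; cases a <;> rfl
  rw [← tr_sat, outW, e, etr, @decide_eq_true_iff _ (_)]
  have e2 : ∀ x : ℕ → ℝ, ((tr p).bind fun a => .leaf (Sum.map Int.toNat id a)).Holds (val01 x)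
      ↔ (tr p).Holds (val01 fun z => x z.toNat) := by
    intro x
    rw [Fm.holds_bind, show (fun a : ℤ ⊕ Bool => Tm.eval (val01 x) (.leaf (Sum.map Int.toNat id a)))
      = val01 fun z => x z.toNat from funext fun a => by cases a <;> rfl]
  constructor
  · rintro ⟨q, h1, x, h2⟩
    rw [← toks_cE_inj (bitEncode_injective h1)] at h2
    exact ⟨x, (e2 x).1 h2⟩
  · rintro ⟨x, h⟩
    exact ⟨_, rfl, x, (e2 x).2 h⟩

theorem etr_nil : etr [] = false := by
  rw [etr, @decide_eq_false_iff_not _ (_)]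
  rintro ⟨p, h, _⟩
  have : ([] : List (ℕ × ℤ)) = _ := bitEncode_injective h
  cases p <;> simp [Fm.toks] at this

/-- every definable family without free variables reduces to the existential theory -/
theorem ED.reduction {α : Type} [Enc α] {P : α → Prop} (h : ED fun a (_ : Unit → ℝ) => P a) :
    ∃ f : α → Str, PT f ∧ ∀ a, P a ↔ etr (f a) = true := by
  obtain ⟨F, hF, h⟩ := h
  refine ⟨fun a => outW (F a), pt_outW.comp hF, fun a => ?_⟩
  rw [etr_outW]
  constructor
  · intro H
    obtain ⟨μ, hμ⟩ := (h a 0).1 H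
    exact ⟨_, hμ⟩
  · rintro ⟨ω, hω⟩
    refine (h a fun v => ω (.inl v)).2 ⟨fun t => ω (.inr t), ?_⟩
    rwa [show (Sum.elim (fun v => ω (.inl v)) fun t => ω (.inr t)) = ω from
      funext fun x => by cases x <;> rfl]

def cG (d : ℕ) : Fin d ⊕ ℤ → ℕ × ℤ :=
  Sum.elim (fun i : Fin d => (0, (i.val : ℤ))) fun c : ℤ => (1, c)

def cG' (d : ℕ) (a : Fin d ⊕ ℤ) : ℤ × ℤ := (((cG d a).1 : ℤ), (cG d a).2)

def rG (d : ℕ) (k : ℤ × ℤ) : Fin d ⊕ ℤ :=
  if k.1 = 0 then ((List.finRange d)[min k.2.toNat d]?).elim (.inr 0) (fun i => .inl i)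
  else .inr k.2

theorem parse_G (p : FF (Fin d)) : parseFm (rG d) (p.tk (cG' d)) = p :=
  parseFm_tk (by rintro (i | c) <;> simp [rG, cG', cG]) (by rintro (i | c) <;> simp [cG', cG]) p

def inW (a : ℕ × FF (Fin d)) : Str :=
  bitEncode (List.replicate a.1 true, a.2.toks (cG d))

theorem up_in (a : ℕ × FF (Fin d)) :
    (Rep.up (List.replicate a.1 true, a.2.toks (cG d)) : Str × List (ℤ × ℤ))
      = (List.replicate a.1 true, a.2.tk (cG' d)) := by
  rw [up_prod, up_str, up_toks]; rfl

theorem pt_inW : PT (inW : ℕ × FF (Fin d) → Str) := by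
  have h1 : PT (cG' d) := by unfold cG' cG; fun_prop
  refine (PT.encode (Str × List (ℕ × ℤ))
    (f := fun a : ℕ × FF (Fin d) => (List.replicate a.1 true, a.2.tk (cG' d)))
    (by fun_prop)).of_eq fun a => ?_
  rw [← up_in, Rep.down_up]; rfl

theorem gallery_le_etr (d : ℕ) : N793a5b8e.ManyOneReducible (gallery d) etr := by
  obtain ⟨f, hf, h⟩ := (ed_guardable d).reduction
  have hp : PT (parseFm (rG d)) := pt_parseFm (by unfold rG; fun_prop)
  have hi := pt_inW (d := d)
  let rd : Str → Option (ℕ × FF (Fin d)) := fun w =>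
    (((bitDecode w : Option (Str × List (ℕ × ℤ))).map Rep.up :
      Option (Str × List (ℤ × ℤ)))).map fun q => (q.1.length, parseFm (rG d) q.2)
  have hrd : PT rd := PT.option_map (PT.decode _ PT.id) (by fun_prop)
  have rd_in : ∀ a, rd (inW a) = some a := fun a => by
    simp only [rd, inW, bitDecode_bitEncode, Option.map_some, up_in, parse_G,
      List.length_replicate]
  refine manyOne_of_PT (f := fun w => (rd w).elim [] fun a => if w = inW a then f a else [])
    (by fun_prop) fun w => ?_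
  rw [Bool.eq_iff_iff, gallery, @decide_eq_true_iff _ (_)]
  constructor
  · rintro ⟨k, p, rfl, hG⟩
    change etr ((rd (inW (k, p))).elim [] fun a => if inW (k, p) = inW a then f a else []) = true
    rw [rd_in]
    simpa using (h (k, p)).1 hG
  · intro H
    rcases hw : rd w with _ | a
    · simp [hw, etr_nil] at H
    · simp only [hw, Option.elim_some] at H
      split_ifs at H with e
      · exact ⟨a.1, a.2, e, (h a).2 H⟩
      · simp [etr_nil] at H

end Pool.Agent.Lib.MP_42f8a6_lc
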