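import Pool.Agent.Lib.MP_42f8a6_lc.Delin

/-! The number of distinct complex roots is read off the characteristic polynomial of a Gram
matrix of Sylvester type. -/

set_option autoImplicit false

namespace Pool.Agent.Lib.MP_42f8a6_lc

open Polynomial Matrix
open scoped ComplexOrder

section
variable {R S : Type} [CommRing R] [CommRing S]

noncomputable def colp (m : ℕ) (P : R[X]) (j : ℕ) : R[X] :=
  if j < m then X ^ j * P else X ^ (j - m) * derivative P

noncomputable def sylv (m : ℕ) (P : R[X]) : Matrix (Fin (m + m)) (Fin (m + m)) R :=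
  Matrix.of fun r j => (colp m P j).coeff r

noncomputable def resp (m : ℕ) (P : R[X]) : R[X] := ((sylv m P)ᵀ * sylv m P).charpoly

theorem sylv_map (m : ℕ) (P : R[X]) (φ : R →+* S) : sylv m (P.map φ) = (sylv m P).map φ := by
  ext r j
  simp only [sylv, colp, of_apply, Matrix.map_apply, ← coeff_map]
  split_ifs <;> simp [derivative_map]

theorem resp_map (m : ℕ) (P : R[X]) (φ : R →+* S) : resp m (P.map φ) = (resp m P).map φ := by
  rw [resp, resp, ← charpoly_map, Matrix.map_mul, sylv_map, transpose_map]

theorem coeff_colp (m : ℕ) (P : R[X]) (j r : ℕ) : (colp m P j).coeff r =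
    if j < m then (if j ≤ r then P.coeff (r - j) else 0)
    else (if j - m ≤ r then P.coeff (r - (j - m) + 1) * ((r - (j - m) : ℕ) + 1) else 0) := by
  unfold colp
  split_ifs with h1 h2 h3 <;> simp [coeff_X_pow_mul', coeff_derivative, *]

theorem natDegree_resp (m : ℕ) (P : R[X]) : (resp m P).natDegree ≤ m + m := by
  nontriviality R
  rw [resp, charpoly_natDegree_eq_dim]; simp

end

theorem root_of_syz {p U W : ℂ[X]} (hp : p ≠ 0) (h : U * p + W * derivative p = 0) {z : ℂ}
    (hz : p.IsRoot z) : W.eval z = 0 := by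
  obtain ⟨q, hq, hnd⟩ := exists_eq_pow_rootMultiplicity_mul_and_not_dvd p hp z
  obtain ⟨k, hk⟩ : ∃ k, rootMultiplicity z p = k + 1 :=
    ⟨_, (Nat.succ_pred_eq_of_pos ((rootMultiplicity_pos hp).2 hz)).symm⟩
  rw [hk] at hq
  have e : (X - C z) ^ k * (U * ((X - C z) * q)
      + W * (C ((k : ℂ) + 1) * q + (X - C z) * derivative q)) = 0 := by
    rw [← h]
    conv_rhs => rw [hq]
    simp only [derivative_mul, derivative_X_sub_C_pow, map_add, map_natCast, map_one,
      Nat.cast_add, Nat.cast_one, Nat.add_sub_cancel]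
    ring
  have e2 := congrArg (eval z)
    ((mul_eq_zero.1 e).resolve_left (pow_ne_zero _ (X_sub_C_ne_zero z)))
  have hq0 : q.eval z ≠ 0 := fun h => hnd (dvd_iff_isRoot.2 h)
  have hk0 : (k : ℂ) + 1 ≠ 0 := by exact_mod_cast Nat.succ_ne_zero k
  simpa [hq0, hk0] using e2

theorem dvd_of_roots {p W : ℂ[X]} (hp : p ≠ 0) (h : ∀ z, p.IsRoot z → W.eval z = 0) :
    p ∣ W * derivative p := by
  classical
  by_cases h0 : W * derivative p = 0
  · simp [h0]
  rw [IsAlgClosed.dvd_iff_roots_le_roots hp h0, Multiset.le_iff_count]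
  intro z
  rw [count_roots, count_roots, rootMultiplicity_mul h0]
  by_cases hz : p.IsRoot z
  · rw [derivative_rootMultiplicity_of_root hz]
    have := (rootMultiplicity_pos (left_ne_zero_of_mul h0)).2 (h z hz)
    omega
  · simp [rootMultiplicity_eq_zero hz]

theorem sylv_mulVec {m : ℕ} (p : ℂ[X]) (hm : p.natDegree ≤ m) (v : Fin (m + m) → ℂ) :
    sylv m p *ᵥ v = 0 ↔ ofFn m (fun j => v (Fin.castAdd m j)) * p
      + ofFn m (fun j => v (Fin.natAdd m j)) * derivative p = 0 := by
  classical
  set L := ofFn m (fun j => v (Fin.castAdd m j)) * p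
      + ofFn m (fun j => v (Fin.natAdd m j)) * derivative p with hL
  have e : L = ∑ j : Fin (m + m), C (v j) * colp m p j := by
    rw [Fin.sum_univ_add, hL, ofFn_eq_sum_monomial, ofFn_eq_sum_monomial, Finset.sum_mul,
      Finset.sum_mul]
    congr 1 <;> refine Finset.sum_congr rfl fun j _ => ?_
    · simp [colp, ← C_mul_X_pow_eq_monomial, mul_assoc]
    · simp [colp, ← C_mul_X_pow_eq_monomial, mul_assoc]
  have hc : ∀ r : Fin (m + m), (sylv m p *ᵥ v) r = L.coeff r := fun r => by
    rw [e]
    simp [mulVec, dotProduct, sylv, mul_comm]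
  constructor
  · intro h
    ext r
    by_cases hr : r < m + m
    · rw [← hc ⟨r, hr⟩, h]; simp
    · rw [e, finset_sum_coeff]
      refine Finset.sum_eq_zero fun j _ => ?_
      have := j.2
      rw [coeff_C_mul, coeff_colp]
      split_ifs
      · rw [coeff_eq_zero_of_natDegree_lt (by omega), mul_zero]
      · rw [mul_zero]
      · rw [coeff_eq_zero_of_natDegree_lt (by omega), zero_mul, mul_zero]
      · rw [mul_zero]
  · intro h
    funext r
    rw [hc, h]; simp

theorem finrank_ker_sylv {m : ℕ} (p : ℂ[X]) (hp : p ≠ 0) (hm : p.natDegree ≤ m) :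
    Module.finrank ℂ (LinearMap.ker (sylv m p).mulVecLin) + p.roots.toFinset.card = m := by
  classical
  let π : (Fin (m + m) → ℂ) →ₗ[ℂ] (Fin m → ℂ) := LinearMap.funLeft ℂ ℂ (Fin.natAdd m)
  let Ev : (Fin m → ℂ) →ₗ[ℂ] (p.roots.toFinset → ℂ) :=
    LinearMap.pi fun z => (leval (z : ℂ)).comp (ofFn m)
  have hEv : ∀ w, Ev w = 0 ↔ ∀ z, p.IsRoot z → (ofFn m w).eval z = 0 := fun w => by
    simp [Ev, funext_iff, hp]
  have hinj : Function.Injective (π.domRestrict (LinearMap.ker (sylv m p).mulVecLin)) := by
    rw [injective_iff_map_eq_zero]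
    rintro ⟨v, hv⟩ h
    have h1 : (fun j => v (Fin.natAdd m j)) = 0 := h
    have h2 := (sylv_mulVec p hm v).1 hv
    rw [h1, map_zero, zero_mul, add_zero] at h2
    have h3 : (fun j => v (Fin.castAdd m j)) = 0 :=
      injective_ofFn m (by rw [map_zero]; exact (mul_eq_zero.1 h2).resolve_right hp)
    ext j
    induction j using Fin.addCases with
    | left j => exact congrFun h3 j
    | right j => exact congrFun h1 j
  have hrange : LinearMap.range (π.domRestrict (LinearMap.ker (sylv m p).mulVecLin))
      = LinearMap.ker Ev := by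
    ext w
    rw [LinearMap.mem_ker, hEv]
    constructor
    · rintro ⟨⟨v, hv⟩, rfl⟩ z hz
      exact root_of_syz hp ((sylv_mulVec p hm v).1 hv) hz
    · intro h
      obtain ⟨U, hU⟩ := dvd_of_roots hp h
      have hdeg : ofFn m (toFn m (-U)) = -U := by
        by_cases hU0 : U = 0
        · simp [hU0]
        refine ofFn_comp_toFn_eq_id_of_natDegree_lt ?_
        have h0 : ofFn m w * derivative p ≠ 0 := by rw [hU]; exact mul_ne_zero hp hU0
        have h1 := congrArg natDegree hU
        rw [natDegree_mul (left_ne_zero_of_mul h0) (right_ne_zero_of_mul h0),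
          natDegree_mul hp hU0] at h1
        have h2 := ofFn_natDegree_lt
          (Nat.one_le_iff_ne_zero.2 (ne_zero_of_ofFn_ne_zero (left_ne_zero_of_mul h0))) w
        have h3 := natDegree_derivative_le p
        rw [natDegree_neg]; omega
      refine ⟨⟨Fin.append (toFn m (-U)) w, (sylv_mulVec p hm _).2 ?_⟩, ?_⟩
      · simp only [Fin.append_left, Fin.append_right]
        rw [hdeg, hU]; ring
      · funext j; exact Fin.append_right _ _ j
  have hcard : p.roots.toFinset.card ≤ m :=
    (Multiset.toFinset_card_le _).trans ((card_roots' p).trans hm)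
  have hsurj : LinearMap.range Ev = ⊤ := by
    rw [LinearMap.range_eq_top]
    intro y
    let y' : ℂ → ℂ := fun z => if h : z ∈ p.roots.toFinset then y ⟨z, h⟩ else 0
    let q := Lagrange.interpolate p.roots.toFinset id y'
    have hq : q.degree < m := (Lagrange.degree_interpolate_lt y' (Set.injOn_id _)).trans_le
      (by exact_mod_cast hcard)
    have hq' : ofFn m (toFn m q) = q := by
      by_cases h0 : q = 0
      · simp [h0]
      · exact ofFn_comp_toFn_eq_id_of_natDegree_lt ((natDegree_lt_iff_degree_lt h0).2 hq)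
    refine ⟨toFn m q, funext fun z => ?_⟩
    have := Lagrange.eval_interpolate_at_node y' (Set.injOn_id _) z.2
    simp only [Ev, LinearMap.pi_apply, LinearMap.comp_apply, hq', leval_apply]
    rw [show eval (z : ℂ) q = y' z from this]
    exact dif_pos z.2
  have h1 := LinearMap.finrank_range_of_inj hinj
  have h2 := Ev.finrank_range_add_finrank_ker
  rw [hsurj, ← hrange, h1] at h2
  simp at h2
  omega

theorem natTrailingDegree_resp {m : ℕ} {P : ℝ[X]} (h0 : P ≠ 0) (hm : P.natDegree ≤ m) :
    (resp m P).natTrailingDegree + (croots P).card = m := by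
  classical
  set p := P.map (algebraMap ℝ ℂ) with hp
  have hp0 : p ≠ 0 := by simpa [hp] using h0
  have h1 := finrank_ker_sylv p hp0 (m := m) (by simpa [hp] using hm)
  have hT : (sylv m p)ᵀ = (sylv m p)ᴴ := by
    rw [hp, sylv_map]
    ext i j; simp
  have hH := isHermitian_conjTranspose_mul_self (sylv m p)
  have h2 : (resp m P).natTrailingDegree = (resp m p).natTrailingDegree := by
    rw [hp, resp_map, natTrailingDegree, natTrailingDegree, trailingDegree, trailingDegree,
      support_map_of_injective _ (algebraMap ℝ ℂ).injective]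
  have h3 : (resp m p).natTrailingDegree
      = (Finset.univ.filter fun i => hH.eigenvalues i = 0).card := by
    rw [← rootMultiplicity_eq_natTrailingDegree', ← count_roots, resp, hT,
      hH.roots_charpoly_eq_eigenvalues, Multiset.count_map, Finset.card, Finset.filter_val]
    congr 2
    funext i
    exact propext ⟨fun h => Complex.ofReal_eq_zero.1 h.symm,
      fun h => (Complex.ofReal_eq_zero.2 h).symm⟩
  have h4 := hH.rank_eq_card_non_zero_eigs
  rw [rank_conjTranspose_mul_self, Fintype.card_subtype] at h4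
  have h5 := (sylv m p).mulVecLin.finrank_range_add_finrank_ker
  have h6 := Finset.card_filter_add_card_filter_not (s := Finset.univ)
    (fun i => hH.eigenvalues i = 0)
  simp only [Module.finrank_fintype_fun_eq_card, Fintype.card_fin, Finset.card_univ] at h5 h6
  have h7 : (croots P).card = p.roots.toFinset.card := rfl
  unfold Matrix.rank at h4
  simp only [ne_eq] at h4
  omega

/-- same vanishing pattern of the coefficients gives the same number of distinct roots -/
theorem card_croots_eq {m : ℕ} {P Q : ℝ[X]} (hP : P ≠ 0) (hQ : Q ≠ 0) (h1 : P.natDegree ≤ m)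
    (h2 : Q.natDegree ≤ m) (h : ∀ k, (resp m P).coeff k = 0 ↔ (resp m Q).coeff k = 0) :
    (croots P).card = (croots Q).card := by
  have e1 := natTrailingDegree_resp hP h1
  have e2 := natTrailingDegree_resp hQ h2
  have : (resp m P).support = (resp m Q).support := by
    ext k; simp only [mem_support_iff]; exact not_congr (h k)
  have : (resp m P).natTrailingDegree = (resp m Q).natTrailingDegree := by
    simp only [natTrailingDegree, trailingDegree, this]
  omega

/-- spectral certificate for the value of a characteristic polynomial -/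
theorem charpoly_cert {n : ℕ} (A : Matrix (Fin n) (Fin n) ℝ) (x z : ℝ) :
    z = (Aᵀ * A).charpoly.eval x ↔ ∃ (U : Matrix (Fin n) (Fin n) ℝ) (l : Fin n → ℝ),
      Uᵀ * U = 1 ∧ Aᵀ * A = U * diagonal l * Uᵀ ∧ z = ∏ i, (x - l i) := by
  have key : ∀ (U : Matrix (Fin n) (Fin n) ℝ) (l : Fin n → ℝ), Uᵀ * U = 1 →
      (U * diagonal l * Uᵀ).charpoly.eval x = ∏ i, (x - l i) := by
    intro U l h
    rw [charpoly_mul_comm, ← mul_assoc, h, one_mul, charpoly_diagonal, eval_prod]
    simp
  constructor
  · rintro rfl
    have hH : (Aᵀ * A).IsHermitian := by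
      simpa [conjTranspose_eq_transpose_of_trivial] using isHermitian_conjTranspose_mul_self A
    have h1 := hH.spectral_theorem
    rw [Unitary.conjStarAlgAut_apply] at h1
    have h2 : (hH.eigenvectorUnitary : Matrix (Fin n) (Fin n) ℝ)ᵀ * hH.eigenvectorUnitary = 1 := by
      have := Unitary.coe_star_mul_self hH.eigenvectorUnitary
      rwa [star_eq_conjTranspose, conjTranspose_eq_transpose_of_trivial] at this
    rw [star_eq_conjTranspose, conjTranspose_eq_transpose_of_trivial] at h1
    refine ⟨_, _, h2, h1, ?_⟩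
    conv_lhs => rw [h1]
    exact key _ _ h2
  · rintro ⟨U, l, h1, h2, rfl⟩
    rw [h2, key U l h1]

end Pool.Agent.Lib.MP_42f8a6_lc
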