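import Pool.Agent.Lib.MP_42f8a6_lc.Defs
import Pool.Agent.Lib.Complexity.Bridge

/-! Codes of terms and formulas, polynomial time recursion over them. -/

set_option autoImplicit false
set_option linter.unusedSimpArgs false

namespace Pool.Agent.Lib.MP_42f8a6_lc

open Pool.Agent.Lib.Complexity Function

variable {A B α β ρ : Type}

def Tm.tree [Enc A] : Tm A → T
  | .leaf a => .node (enc (0 : ℕ)) (enc a)
  | .add s t => .node (enc (1 : ℕ)) (.node s.tree t.tree)
  | .mul s t => .node (enc (2 : ℕ)) (.node s.tree t.tree)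

theorem Tm.tree_inj [Enc A] : Injective (Tm.tree : Tm A → T) := by
  intro s
  induction s with
  | leaf a => intro t h; cases t <;> simp_all [Tm.tree, Enc.inj.eq_iff]
  | add s1 s2 ih1 ih2 =>
    intro t h
    cases t <;> simp [Tm.tree, Enc.inj.eq_iff] at h ⊢
    exact ⟨ih1 h.1, ih2 h.2⟩
  | mul s1 s2 ih1 ih2 =>
    intro t h
    cases t <;> simp [Tm.tree, Enc.inj.eq_iff] at h ⊢
    exact ⟨ih1 h.1, ih2 h.2⟩

instance [Enc A] : Enc (Tm A) := ⟨Tm.tree, Tm.tree_inj⟩

def Fm.tree [Enc A] : Fm A → T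
  | .eq s t => .node (enc (0 : ℕ)) (.node (enc s) (enc t))
  | .lt s t => .node (enc (1 : ℕ)) (.node (enc s) (enc t))
  | .not p => .node (enc (2 : ℕ)) p.tree
  | .and p q => .node (enc (3 : ℕ)) (.node p.tree q.tree)
  | .or p q => .node (enc (4 : ℕ)) (.node p.tree q.tree)

theorem Fm.tree_inj [Enc A] : Injective (Fm.tree : Fm A → T) := by
  intro p
  induction p with
  | eq s t => intro q h; cases q <;> simp_all [Fm.tree, Enc.inj.eq_iff]
  | lt s t => intro q h; cases q <;> simp_all [Fm.tree, Enc.inj.eq_iff]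
  | not p ih =>
    intro q h
    cases q <;> simp [Fm.tree, Enc.inj.eq_iff] at h ⊢
    exact ih h
  | and p1 p2 ih1 ih2 =>
    intro q h
    cases q <;> simp [Fm.tree, Enc.inj.eq_iff] at h ⊢
    exact ⟨ih1 h.1, ih2 h.2⟩
  | or p1 p2 ih1 ih2 =>
    intro q h
    cases q <;> simp [Fm.tree, Enc.inj.eq_iff] at h ⊢
    exact ⟨ih1 h.1, ih2 h.2⟩

instance [Enc A] : Enc (Fm A) := ⟨Fm.tree, Fm.tree_inj⟩

section
variable [Enc A] [Enc B] [Enc α] [Enc β] [Enc ρ]

@[simp] theorem sz_leaf (a : A) : sz (Tm.leaf a) = sz a + 1 := by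
  change (T.node _ _).size = _; simp [T.size, sz]
@[simp] theorem sz_add (s t : Tm A) : sz (Tm.add s t) = sz s + sz t + 3 := by
  change (T.node (enc (1 : ℕ)) (T.node (enc s) (enc t))).size = _
  have := sz_nat 1
  simp only [T.size, sz] at *; omega
@[simp] theorem sz_mul (s t : Tm A) : sz (Tm.mul s t) = sz s + sz t + 4 := by
  change (T.node (enc (2 : ℕ)) (T.node (enc s) (enc t))).size = _
  have := sz_nat 2
  simp only [T.size, sz] at *; omega
@[simp] theorem sz_eq (s t : Tm A) : sz (Fm.eq s t) = sz s + sz t + 2 := by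
  change (T.node (enc (0 : ℕ)) (T.node (enc s) (enc t))).size = _
  have := sz_nat 0
  simp only [T.size, sz] at *; omega
@[simp] theorem sz_lt (s t : Tm A) : sz (Fm.lt s t) = sz s + sz t + 3 := by
  change (T.node (enc (1 : ℕ)) (T.node (enc s) (enc t))).size = _
  have := sz_nat 1
  simp only [T.size, sz] at *; omega
@[simp] theorem sz_not (p : Fm A) : sz (Fm.not p) = sz p + 3 := by
  change (T.node (enc (2 : ℕ)) (enc p)).size = _
  have := sz_nat 2
  simp only [T.size, sz] at *; omega
@[simp] theorem sz_and (p q : Fm A) : sz (Fm.and p q) = sz p + sz q + 5 := by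
  change (T.node (enc (3 : ℕ)) (T.node (enc p) (enc q))).size = _
  have := sz_nat 3
  simp only [T.size, sz] at *; omega
@[simp] theorem sz_or (p q : Fm A) : sz (Fm.or p q) = sz p + sz q + 6 := by
  change (T.node (enc (4 : ℕ)) (T.node (enc p) (enc q))).size = _
  have := sz_nat 4
  simp only [T.size, sz] at *; omega

@[fun_prop] theorem pt_leaf {f : α → A} (hf : PT f) : PT fun a => Tm.leaf (f a) :=
  ((PT.const (0 : ℕ)).prodMk hf).out fun _ => rfl
@[fun_prop] theorem pt_add {f g : α → Tm A} (hf : PT f) (hg : PT g) :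
    PT fun a => Tm.add (f a) (g a) := ((PT.const (1 : ℕ)).prodMk (hf.prodMk hg)).out fun _ => rfl
@[fun_prop] theorem pt_mul {f g : α → Tm A} (hf : PT f) (hg : PT g) :
    PT fun a => Tm.mul (f a) (g a) := ((PT.const (2 : ℕ)).prodMk (hf.prodMk hg)).out fun _ => rfl
@[fun_prop] theorem pt_eq {f g : α → Tm A} (hf : PT f) (hg : PT g) :
    PT fun a => Fm.eq (f a) (g a) := ((PT.const (0 : ℕ)).prodMk (hf.prodMk hg)).out fun _ => rfl
@[fun_prop] theorem pt_lt {f g : α → Tm A} (hf : PT f) (hg : PT g) :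
    PT fun a => Fm.lt (f a) (g a) := ((PT.const (1 : ℕ)).prodMk (hf.prodMk hg)).out fun _ => rfl
@[fun_prop] theorem pt_not {f : α → Fm A} (hf : PT f) :
    PT fun a => Fm.not (f a) := ((PT.const (2 : ℕ)).prodMk hf).out fun _ => rfl
@[fun_prop] theorem pt_and {f g : α → Fm A} (hf : PT f) (hg : PT g) :
    PT fun a => Fm.and (f a) (g a) := ((PT.const (3 : ℕ)).prodMk (hf.prodMk hg)).out fun _ => rfl
@[fun_prop] theorem pt_or {f g : α → Fm A} (hf : PT f) (hg : PT g) :
    PT fun a => Fm.or (f a) (g a) := ((PT.const (4 : ℕ)).prodMk (hf.prodMk hg)).out fun _ => rfl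

/-- one layer of a term -/
def Tm.view : Tm A → A ⊕ (Bool × Tm A × Tm A)
  | .leaf a => .inl a
  | .add s t => .inr (false, s, t)
  | .mul s t => .inr (true, s, t)

theorem pt_tm_view : PT (Tm.view : Tm A → _) := by
  have : PT fun t : T => if t.left = .nil then t else
      T.node (.node .nil .nil) (.node (enc (decide (t.left.right ≠ .nil))) t.right) := by fun_prop
  exact this.of_tree fun s => by cases s <;> rfl

/-- one layer of a formula -/
def Fm.view : Fm A → (Bool × Tm A × Tm A) ⊕ (Fm A ⊕ (Bool × Fm A × Fm A))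
  | .eq s t => .inl (false, s, t)
  | .lt s t => .inl (true, s, t)
  | .not p => .inr (.inl p)
  | .and p q => .inr (.inr (false, p, q))
  | .or p q => .inr (.inr (true, p, q))

theorem pt_fm_view : PT (Fm.view : Fm A → _) := by
  have : PT fun t : T => if sz t.left ≤ 1 then
      T.node .nil (.node (enc (decide (sz t.left = 1))) t.right)
      else if sz t.left = 2 then T.node (.node .nil .nil) (.node .nil t.right)
      else T.node (.node .nil .nil) (.node (.node .nil .nil)
        (.node (enc (decide (sz t.left = 4))) t.right)) := by fun_prop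
  exact this.of_tree fun s => by cases s <;> rfl

/-- structural recursion on terms with additive growth -/
theorem pt_tm_rec [Inhabited ρ] {g : α → Tm A → ρ} {f0 : α → A → ρ} {f : α → Bool → ρ → ρ → ρ}
    (h0 : PT fun p : α × A => f0 p.1 p.2)
    (hf : PT fun p : α × Bool × ρ × ρ => f p.1 p.2.1 p.2.2.1 p.2.2.2)
    (e0 : ∀ a x, g a (.leaf x) = f0 a x)
    (e1 : ∀ a s t, g a (.add s t) = f a false (g a s) (g a t))
    (e2 : ∀ a s t, g a (.mul s t) = f a true (g a s) (g a t))
    {C : α → ℕ} (hC : PT C) (hc : ∀ a b r r', sz (f a b r r') ≤ sz r + sz r' + C a) :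
    PT fun p : α × Tm A => g p.1 p.2 := by
  have hv := pt_tm_view (A := A)
  refine PT.recursion
    (dest := fun _ y => Sum.elim (fun _ => []) (fun q => [q.2.1, q.2.2]) y.view)
    (comb := fun a y rs => Sum.elim (f0 a) (fun q => f a q.1 (rs.getD 0 default) (rs.getD 1 default))
      y.view) (by fun_prop) (by fun_prop) ?_ ?_ ?_
  · intro a y; cases y <;> simp [Tm.view, e0, e1, e2]
  · intro a y; cases y <;> simp [Tm.view] <;> omega
  · obtain ⟨q, hq⟩ := h0.pb
    refine (PB.self.mul ((PB.self.eval q).add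
      (hC.comp (f := fun p : α × Tm A => p.1) (by fun_prop)).pb_nat)).mono fun p => ?_
    obtain ⟨a, y⟩ := p
    have key : ∀ (n : ℕ) (y : Tm A), sz a + sz y ≤ n → sz (g a y) ≤ sz y * (q.eval n + C a) := by
      intro n y
      induction y with
      | leaf x =>
        intro h
        have := (hq (a, x)).trans (peval_mono q (show sz (a, x) ≤ n by simp at h ⊢; omega))
        rw [e0]; simp only [sz_leaf] at *; nlinarith
      | add s t ihs iht =>
        intro h
        have := hc a false (g a s) (g a t)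
        simp only [sz_add] at *
        rw [e1]; nlinarith [ihs (by omega), iht (by omega)]
      | mul s t ihs iht =>
        intro h
        have := hc a true (g a s) (g a t)
        simp only [sz_mul] at *
        rw [e2]; nlinarith [ihs (by omega), iht (by omega)]
    refine (key (sz (a, y)) y (by simp)).trans (Nat.mul_le_mul_right _ (by simp; omega))

/-- structural recursion on formulas with additive growth -/
theorem pt_fm_rec [Inhabited ρ] {g : α → Fm A → ρ} {f0 : α → Bool → Tm A → Tm A → ρ}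
    {f1 : α → ρ → ρ} {f : α → Bool → ρ → ρ → ρ}
    (h0 : PT fun p : α × Bool × Tm A × Tm A => f0 p.1 p.2.1 p.2.2.1 p.2.2.2)
    (h1 : PT fun p : α × ρ => f1 p.1 p.2)
    (hf : PT fun p : α × Bool × ρ × ρ => f p.1 p.2.1 p.2.2.1 p.2.2.2)
    (e0 : ∀ a s t, g a (.eq s t) = f0 a false s t)
    (e1 : ∀ a s t, g a (.lt s t) = f0 a true s t)
    (e2 : ∀ a p, g a (.not p) = f1 a (g a p))
    (e3 : ∀ a s t, g a (.and s t) = f a false (g a s) (g a t))
    (e4 : ∀ a s t, g a (.or s t) = f a true (g a s) (g a t))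
    {C : α → ℕ} (hC : PT C) (hc1 : ∀ a r, sz (f1 a r) ≤ sz r + C a)
    (hc : ∀ a b r r', sz (f a b r r') ≤ sz r + sz r' + C a) :
    PT fun p : α × Fm A => g p.1 p.2 := by
  have hv := pt_fm_view (A := A)
  refine PT.recursion
    (dest := fun _ y => Sum.elim (fun _ => [])
      (fun z => Sum.elim (fun p => [p]) (fun q => [q.2.1, q.2.2]) z) y.view)
    (comb := fun a y rs => Sum.elim (fun q => f0 a q.1 q.2.1 q.2.2)
      (fun z => Sum.elim (fun _ => f1 a (rs.getD 0 default))
        (fun q => f a q.1 (rs.getD 0 default) (rs.getD 1 default)) z) y.view)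
      (by fun_prop) (by fun_prop) ?_ ?_ ?_
  · intro a y; cases y <;> simp [Fm.view, e0, e1, e2, e3, e4]
  · intro a y; cases y <;> simp [Fm.view] <;> omega
  · obtain ⟨q, hq⟩ := h0.pb
    refine (PB.self.mul (((PB.self.add (PB.const 3)).eval q).add
      (hC.comp (f := fun p : α × Fm A => p.1) (by fun_prop)).pb_nat)).mono fun p => ?_
    obtain ⟨a, y⟩ := p
    have key : ∀ (n : ℕ) (y : Fm A), sz a + sz y + 3 ≤ n →
        sz (g a y) ≤ sz y * (q.eval n + C a) := by
      intro n y
      induction y with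
      | eq s t =>
        intro h
        have := (hq (a, false, s, t)).trans (peval_mono q (show _ ≤ n by simp at h ⊢; omega))
        rw [e0]; simp only [sz_eq] at *; nlinarith
      | lt s t =>
        intro h
        have := (hq (a, true, s, t)).trans (peval_mono q (show _ ≤ n by simp at h ⊢; omega))
        rw [e1]; simp only [sz_lt] at *; nlinarith
      | not p ih =>
        intro h
        have := hc1 a (g a p)
        simp only [sz_not] at *
        rw [e2]; nlinarith [ih (by omega)]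
      | and s t ihs iht =>
        intro h
        have := hc a false (g a s) (g a t)
        simp only [sz_and] at *
        rw [e3]; nlinarith [ihs (by omega), iht (by omega)]
      | or s t ihs iht =>
        intro h
        have := hc a true (g a s) (g a t)
        simp only [sz_or] at *
        rw [e4]; nlinarith [ihs (by omega), iht (by omega)]
    refine (key (sz (a, y) + 3) y (by simp)).trans (Nat.mul_le_mul_right _ (by simp; omega))

end

/-! ### substitution -/

def Tm.bind (σ : A → Tm B) : Tm A → Tm B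
  | .leaf a => σ a
  | .add s t => .add (s.bind σ) (t.bind σ)
  | .mul s t => .mul (s.bind σ) (t.bind σ)

def Fm.bind (σ : A → Tm B) : Fm A → Fm B
  | .eq s t => .eq (s.bind σ) (t.bind σ)
  | .lt s t => .lt (s.bind σ) (t.bind σ)
  | .not p => .not (p.bind σ)
  | .and p q => .and (p.bind σ) (q.bind σ)
  | .or p q => .or (p.bind σ) (q.bind σ)

@[simp] theorem Tm.eval_bind (σ : A → Tm B) (v : B → ℝ) (t : Tm A) :
    (t.bind σ).eval v = t.eval fun a => (σ a).eval v := by
  induction t <;> simp [Tm.bind, Tm.eval, *]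

@[simp] theorem Fm.holds_bind (σ : A → Tm B) (v : B → ℝ) (p : Fm A) :
    (p.bind σ).Holds v ↔ p.Holds fun a => (σ a).eval v := by
  induction p <;> simp [Fm.bind, Fm.Holds, *]

instance [Inhabited A] : Inhabited (Tm A) := ⟨.leaf default⟩
instance [Inhabited A] : Inhabited (Fm A) := ⟨.eq default default⟩

section
variable [Enc A] [Enc B] [Enc α]

@[fun_prop] theorem pt_tm_bind [Inhabited B] {σ : α → A → Tm B} {t : α → Tm A}
    (hσ : PT fun p : α × A => σ p.1 p.2) (ht : PT t) : PT fun a => (t a).bind (σ a) := by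
  have := pt_tm_rec (g := fun a t => t.bind (σ a))
    (f := fun _ b r r' => bif b then Tm.mul r r' else Tm.add r r') hσ (by fun_prop)
    (fun _ _ => rfl) (fun _ _ _ => rfl) (fun _ _ _ => rfl) (PT.const 4)
    (fun a b r r' => by cases b <;> simp)
  exact this.comp (f := fun a => (a, t a)) (by fun_prop)

@[fun_prop] theorem pt_fm_bind [Inhabited B] {σ : α → A → Tm B} {t : α → Fm A}
    (hσ : PT fun p : α × A => σ p.1 p.2) (ht : PT t) : PT fun a => (t a).bind (σ a) := by
  have := pt_fm_rec (g := fun a t => t.bind (σ a))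
    (f0 := fun a b s t => bif b then Fm.lt (s.bind (σ a)) (t.bind (σ a))
      else Fm.eq (s.bind (σ a)) (t.bind (σ a)))
    (f1 := fun _ r => Fm.not r)
    (f := fun _ b r r' => bif b then Fm.or r r' else Fm.and r r') (by fun_prop) (by fun_prop)
    (by fun_prop) (fun _ _ _ => rfl) (fun _ _ _ => rfl) (fun _ _ => rfl) (fun _ _ _ => rfl)
    (fun _ _ _ => rfl) (PT.const 6) (fun a r => by simp) (fun a b r r' => by cases b <;> simp)
  exact this.comp (f := fun a => (a, t a)) (by fun_prop)

end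

/-! ### token lists (with integer tags) -/

def Tm.tk (c : A → ℤ × ℤ) : Tm A → List (ℤ × ℤ)
  | .leaf a => [c a]
  | .add s t => (2, 0) :: (s.tk c ++ t.tk c)
  | .mul s t => (3, 0) :: (s.tk c ++ t.tk c)

def Fm.tk (c : A → ℤ × ℤ) : Fm A → List (ℤ × ℤ)
  | .eq s t => (4, 0) :: (s.tk c ++ t.tk c)
  | .lt s t => (5, 0) :: (s.tk c ++ t.tk c)
  | .not p => (6, 0) :: p.tk c
  | .and p q => (7, 0) :: (p.tk c ++ q.tk c)
  | .or p q => (8, 0) :: (p.tk c ++ q.tk c)

theorem Tm.up_toks (c : A → ℕ × ℤ) (t : Tm A) :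
    (t.toks c).map (fun p => ((p.1 : ℤ), p.2)) = t.tk fun a => (((c a).1 : ℤ), (c a).2) := by
  induction t <;> simp [Tm.toks, Tm.tk, *]

theorem Fm.up_toks (c : A → ℕ × ℤ) (p : Fm A) :
    (p.toks c).map (fun p => ((p.1 : ℤ), p.2)) = p.tk fun a => (((c a).1 : ℤ), (c a).2) := by
  induction p <;> simp [Fm.toks, Fm.tk, Tm.up_toks, *]

section
variable [Enc A] [Enc α]

@[fun_prop] theorem pt_tm_tk {c : A → ℤ × ℤ} {t : α → Tm A} (hc : PT c) (ht : PT t) :
    PT fun a => (t a).tk c := by
  have := pt_tm_rec (α := Unit) (g := fun _ t => t.tk c) (f0 := fun _ x => [c x])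
    (f := fun _ b r r' => (bif b then ((3 : ℤ), (0 : ℤ)) else (2, 0)) :: (r ++ r')) (by fun_prop)
    (by fun_prop) (fun _ _ => rfl) (fun _ _ _ => rfl) (fun _ _ _ => rfl)
    (PT.const (sz ((3 : ℤ), (0 : ℤ)) + sz ((2 : ℤ), (0 : ℤ)) + 1))
    (fun a b r r' => by cases b <;> simp <;> omega)
  exact this.comp (f := fun a => ((), t a)) (by fun_prop)

@[fun_prop] theorem pt_fm_tk {c : A → ℤ × ℤ} {t : α → Fm A} (hc : PT c) (ht : PT t) :
    PT fun a => (t a).tk c := by
  have := pt_fm_rec (α := Unit) (g := fun _ t => t.tk c)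
    (f0 := fun _ b s t => (bif b then ((5 : ℤ), (0 : ℤ)) else (4, 0)) :: (s.tk c ++ t.tk c))
    (f1 := fun _ r => ((6 : ℤ), (0 : ℤ)) :: r)
    (f := fun _ b r r' => (bif b then ((8 : ℤ), (0 : ℤ)) else (7, 0)) :: (r ++ r')) (by fun_prop)
    (by fun_prop) (by fun_prop) (fun _ _ _ => rfl) (fun _ _ _ => rfl) (fun _ _ => rfl)
    (fun _ _ _ => rfl) (fun _ _ _ => rfl)
    (PT.const (sz ((6 : ℤ), (0 : ℤ)) + sz ((7 : ℤ), (0 : ℤ)) + sz ((8 : ℤ), (0 : ℤ)) + 1))
    (fun a r => by simp; omega) (fun a b r r' => by cases b <;> simp <;> omega)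
  exact this.comp (f := fun a => ((), t a)) (by fun_prop)

end

/-! ### the parser -/

def pstep [Inhabited A] (r : ℤ × ℤ → A) (k : ℤ × ℤ) (s : List (Tm A) × List (Fm A)) :
    List (Tm A) × List (Fm A) :=
  if k.1 = 2 then (Tm.add (s.1.getD 0 default) (s.1.getD 1 default) :: s.1.drop 2, s.2)
  else if k.1 = 3 then (Tm.mul (s.1.getD 0 default) (s.1.getD 1 default) :: s.1.drop 2, s.2)
  else if k.1 = 4 then (s.1.drop 2, Fm.eq (s.1.getD 0 default) (s.1.getD 1 default) :: s.2)
  else if k.1 = 5 then (s.1.drop 2, Fm.lt (s.1.getD 0 default) (s.1.getD 1 default) :: s.2)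
  else if k.1 = 6 then (s.1, Fm.not (s.2.getD 0 default) :: s.2.drop 1)
  else if k.1 = 7 then (s.1, Fm.and (s.2.getD 0 default) (s.2.getD 1 default) :: s.2.drop 2)
  else if k.1 = 8 then (s.1, Fm.or (s.2.getD 0 default) (s.2.getD 1 default) :: s.2.drop 2)
  else (Tm.leaf (r k) :: s.1, s.2)

def parseFm [Inhabited A] (r : ℤ × ℤ → A) (l : List (ℤ × ℤ)) : Fm A :=
  (l.foldr (pstep r) ([], [])).2.headD default

section
variable [Inhabited A] {r : ℤ × ℤ → A} {c : A → ℤ × ℤ}

theorem pstep_tm (h1 : ∀ a, r (c a) = a) (h2 : ∀ a, (c a).1 ≤ 1) (t : Tm A)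
    (s : List (Tm A) × List (Fm A)) : (t.tk c).foldr (pstep r) s = (t :: s.1, s.2) := by
  induction t generalizing s with
  | leaf a =>
    have := h2 a
    simp only [Tm.tk, List.foldr_cons, List.foldr_nil, pstep, h1]
    rw [if_neg (by omega), if_neg (by omega), if_neg (by omega), if_neg (by omega),
      if_neg (by omega), if_neg (by omega), if_neg (by omega)]
  | add s t ihs iht => simp [Tm.tk, ihs, iht, pstep]
  | mul s t ihs iht => simp [Tm.tk, ihs, iht, pstep]

theorem pstep_fm (h1 : ∀ a, r (c a) = a) (h2 : ∀ a, (c a).1 ≤ 1) (p : Fm A)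
    (s : List (Tm A) × List (Fm A)) : (p.tk c).foldr (pstep r) s = (s.1, p :: s.2) := by
  induction p generalizing s <;> simp [Fm.tk, pstep_tm h1 h2, pstep, *]

theorem parseFm_tk (h1 : ∀ a, r (c a) = a) (h2 : ∀ a, (c a).1 ≤ 1) (p : Fm A) :
    parseFm r (p.tk c) = p := by
  simp [parseFm, pstep_fm h1 h2]

theorem sz_getD_drop {β : Type} [Enc β] (l : List β) (d : β) :
    sz (l.getD 0 d) + sz (l.getD 1 d) + sz (l.drop 2) ≤ sz l + 2 * sz d := by
  rcases l with _ | ⟨x, _ | ⟨y, l⟩⟩ <;> simp <;> omega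

theorem sz_getD_drop' {β : Type} [Enc β] (l : List β) (d : β) :
    sz (l.getD 0 d) + sz (l.drop 1) ≤ sz l + sz d := by
  rcases l with _ | ⟨x, l⟩ <;> simp; omega

theorem pt_parseFm [Enc A] (hr : PT r) : PT (parseFm r) := by
  have := PT.foldr_add' (l := fun l : List (ℤ × ℤ) => l)
    (init := fun _ => (([], []) : List (Tm A) × List (Fm A))) (f := fun _ => pstep r)
    (g := fun _ k => sz (r k) + 2 * sz (default : Tm A) + 2 * sz (default : Fm A) + 7)
    PT.id (PT.const _) (by unfold pstep; fun_prop) (by fun_prop) (fun _ k s => by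
      obtain ⟨x, y⟩ := s
      have h1 := sz_getD_drop x default
      have h2 := sz_getD_drop y default
      have h3 := sz_getD_drop' y default
      unfold pstep
      split_ifs <;> simp only [sz_pair, sz_cons, sz_add, sz_mul, sz_eq, sz_lt, sz_not, sz_and,
        sz_or, sz_leaf] <;> omega)
  exact this.snd.headD (PT.const _)

end

end Pool.Agent.Lib.MP_42f8a6_lc
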