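import Pool.Agent.Lib.MP_42f8a6_lc.Defs

set_option autoImplicit false

namespace Pool.Agent.Lib.MP_42f8a6_lc

open Classical in
/-- the exists-forall theory of the reals: variables with index `≥ 0` are existential, variables
with negative index are universal -/
noncomputable def eatr : N68a2faeb.DecisionProblem := fun w =>
  decide (∃ p : Fm (ℤ ⊕ Bool),
    w = N487b59b3.bitEncode
      (p.toks (Sum.elim (fun i : ℤ => (0, i)) fun b : Bool => (1, if b then 1 else 0))) ∧
    ∃ x : ℤ → ℝ, ∀ y : ℤ → ℝ,
      p.Holds (Sum.elim (fun i => if 0 ≤ i then x i else y i) fun b : Bool => if b then 1 else 0))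

open Classical in
/-- the art gallery problem for semialgebraic galleries with the dimension as part of the input -/
noncomputable def galleryAll : N68a2faeb.DecisionProblem := fun w =>
  decide (∃ (d k : ℕ) (p : Fm (Fin d ⊕ ℤ)),
    w = N487b59b3.bitEncode (List.replicate d true, List.replicate k true,
      p.toks (Sum.elim (fun i : Fin d => (0, (i.val : ℤ))) fun c : ℤ => (1, c))) ∧
    Guardable {x : Fin d → ℝ | p.Holds (Sum.elim x fun c : ℤ => (c : ℝ))} k)

end Pool.Agent.Lib.MP_42f8a6_lc
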