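import Pool.Agent.Lib.MP_42f8a6_lc.Main
import Pool.Agent.Lib.MP_42f8a6_lc.VDefs
import Pool.Agent.Lib.MP_42f8a6_lc.Geo
import Pool.Agent.Lib.Complexity.Sim

/-! With the dimension as part of the input the problem is equivalent to the exists-forall theory. -/

set_option autoImplicit false
set_option linter.unusedSimpArgs false

namespace Pool.Agent.Lib.MP_42f8a6_lc

open Pool.Agent.Lib.Complexity Function N487b59b3

section gen
variable {A B C : Type}

theorem Tm.tk_bind_congr {c : B → ℤ × ℤ} {c' : C → ℤ × ℤ} {σ : A → Tm B} {σ' : A → Tm C}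
    (h : ∀ a, (σ a).tk c = (σ' a).tk c') (t : Tm A) : (t.bind σ).tk c = (t.bind σ').tk c' := by
  induction t <;> simp [Tm.bind, Tm.tk, *]

theorem Fm.tk_bind_congr {c : B → ℤ × ℤ} {c' : C → ℤ × ℤ} {σ : A → Tm B} {σ' : A → Tm C}
    (h : ∀ a, (σ a).tk c = (σ' a).tk c') (p : Fm A) : (p.bind σ).tk c = (p.bind σ').tk c' := by
  induction p <;> simp [Fm.bind, Fm.tk, Tm.tk_bind_congr h, *]

theorem Tm.eval_congr (c : A → ℤ × ℤ) {v v' : A → ℝ} (t : Tm A)
    (h : ∀ a, c a ∈ t.tk c → v a = v' a) : t.eval v = t.eval v' := by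
  induction t with
  | leaf a => exact h a (by simp [Tm.tk])
  | add s t ihs iht =>
    rw [Tm.eval, Tm.eval, ihs fun a ha => h a (by simp [Tm.tk, ha]),
      iht fun a ha => h a (by simp [Tm.tk, ha])]
  | mul s t ihs iht =>
    rw [Tm.eval, Tm.eval, ihs fun a ha => h a (by simp [Tm.tk, ha]),
      iht fun a ha => h a (by simp [Tm.tk, ha])]

theorem Fm.holds_congr (c : A → ℤ × ℤ) {v v' : A → ℝ} (p : Fm A)
    (h : ∀ a, c a ∈ p.tk c → v a = v' a) : p.Holds v ↔ p.Holds v' := by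
  induction p with
  | eq s t =>
    rw [Fm.Holds, Fm.Holds, s.eval_congr c fun a ha => h a (by simp [Fm.tk, ha]),
      t.eval_congr c fun a ha => h a (by simp [Fm.tk, ha])]
  | lt s t =>
    rw [Fm.Holds, Fm.Holds, s.eval_congr c fun a ha => h a (by simp [Fm.tk, ha]),
      t.eval_congr c fun a ha => h a (by simp [Fm.tk, ha])]
  | not p ih => rw [Fm.Holds, Fm.Holds, ih fun a ha => h a (by simp [Fm.tk, ha])]
  | and s t ihs iht =>
    rw [Fm.Holds, Fm.Holds, ihs fun a ha => h a (by simp [Fm.tk, ha]),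
      iht fun a ha => h a (by simp [Fm.tk, ha])]
  | or s t ihs iht =>
    rw [Fm.Holds, Fm.Holds, ihs fun a ha => h a (by simp [Fm.tk, ha]),
      iht fun a ha => h a (by simp [Fm.tk, ha])]

theorem Tm.bind_inv {f : A → B} {g : B → A} (h : ∀ a, g (f a) = a) (t : Tm A) :
    (t.bind fun a => .leaf (f a)).bind (fun b => .leaf (g b)) = t := by
  induction t <;> simp [Tm.bind, *]

theorem Fm.bind_inv {f : A → B} {g : B → A} (h : ∀ a, g (f a) = a) (p : Fm A) :
    (p.bind fun a => .leaf (f a)).bind (fun b => .leaf (g b)) = p := by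
  induction p <;> simp [Fm.bind, Tm.bind_inv h, *]

end gen

/-! ### words of the exists-forall theory -/

def cA : ℤ ⊕ Bool → ℕ × ℤ :=
  Sum.elim (fun i : ℤ => (0, i)) fun b : Bool => (1, if b then 1 else 0)

def cA' (a : ℤ ⊕ Bool) : ℤ × ℤ := (((cA a).1 : ℤ), (cA a).2)

def rA (k : ℤ × ℤ) : ℤ ⊕ Bool := if k.1 = 0 then .inl k.2 else .inr (decide (k.2 = 1))

theorem parse_A (p : Fm (ℤ ⊕ Bool)) : parseFm rA (p.tk cA') = p :=
  parseFm_tk (by
    rintro (i | b)
    · simp [rA, cA', cA]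
    · cases b <;> simp [rA, cA', cA]) (by rintro (i | b) <;> simp [cA', cA]) p

theorem pt_cA' : PT cA' :=
  (PT.sum_elim (f := fun _ (z : ℤ) => ((0 : ℤ), z))
    (g := fun _ (b : Bool) => ((1 : ℤ), (bif b then 1 else 0 : ℤ))) PT.id (by fun_prop)
    (by fun_prop)).of_eq (by rintro (i | (_ | _)) <;> rfl)

def wA (p : Fm (ℤ ⊕ Bool)) : Str := bitEncode (p.toks cA)

theorem pt_wA : PT wA := by
  refine (PT.encode (List (ℕ × ℤ)) (pt_fm_tk pt_cA' PT.id)).of_eq fun p => ?_
  rw [wA, ← Rep.down_up (p.toks cA), up_toks]; rfl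

def EA (p : Fm (ℤ ⊕ Bool)) : Prop :=
  ∃ x : ℤ → ℝ, ∀ y : ℤ → ℝ, p.Holds (val01 fun i => if 0 ≤ i then x i else y i)

theorem eatr_iff (w : Str) : eatr w = true ↔ ∃ p, w = wA p ∧ EA p := by
  rw [eatr, @decide_eq_true_iff _ (_)]; rfl

theorem eatr_wA (p : Fm (ℤ ⊕ Bool)) : eatr (wA p) = true ↔ EA p := by
  rw [eatr_iff]
  refine ⟨fun ⟨q, h, hq⟩ => ?_, fun h => ⟨p, rfl, h⟩⟩
  have h1 : p.toks cA = q.toks cA := bitEncode_injective h
  have h2 : p.tk cA' = q.tk cA' := by
    have := congrArg (fun l => (Rep.up l : List (ℤ × ℤ))) h1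
    simp only [up_toks] at this
    exact this
  rwa [← parse_A p, h2, parse_A]

theorem eatr_nil : eatr [] = false := by
  rw [eatr, @decide_eq_false_iff_not _ (_)]
  rintro ⟨p, h, _⟩
  have : ([] : List (ℕ × ℤ)) = _ := bitEncode_injective h
  cases p <;> simp [Fm.toks] at this

/-! ### words of the gallery problem -/

def c0 : ℤ ⊕ ℤ → ℤ × ℤ := Sum.elim (fun z => (0, z)) fun z => (1, z)

def r0 (k : ℤ × ℤ) : ℤ ⊕ ℤ := if k.1 = 0 then .inl k.2 else .inr k.2

theorem parse_0 (p : FF ℤ) : parseFm r0 (p.tk c0) = p :=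
  parseFm_tk (by rintro (i | b) <;> simp [r0, c0]) (by rintro (i | b) <;> simp [c0]) p

theorem pt_c0 : PT c0 := by unfold c0; fun_prop

def wG (d k : ℕ) (p : FF (Fin d)) : Str :=
  bitEncode (List.replicate d true, List.replicate k true, p.toks (cG d))

def wG' (a : ℕ × ℕ × FF ℤ) : Str :=
  bitEncode (Rep.down (List.replicate a.1 true, List.replicate a.2.1 true, a.2.2.tk c0) :
    Str × Str × List (ℕ × ℤ))

theorem pt_wG' : PT wG' := by
  have := pt_c0
  exact PT.encode (Str × Str × List (ℕ × ℤ)) (by fun_prop)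

theorem up_G (d k : ℕ) (p : FF (Fin d)) :
    (Rep.up (List.replicate d true, List.replicate k true, p.toks (cG d)) :
      Str × Str × List (ℤ × ℤ)) = (List.replicate d true, List.replicate k true, p.tk (cG' d)) := by
  rw [up_prod, up_prod, up_str, up_str, up_toks]; rfl

theorem wG_eq {d : ℕ} (k : ℕ) {p : FF (Fin d)} {q : FF ℤ} (h : p.tk (cG' d) = q.tk c0) :
    wG d k p = wG' (d, k, q) := by
  rw [wG', ← h, ← up_G, Rep.down_up]; rfl

theorem galleryAll_iff (w : Str) : galleryAll w = true ↔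
    ∃ (d k : ℕ) (p : FF (Fin d)), w = wG d k p ∧ Guardable {x | sat x p} k := by
  rw [galleryAll, @decide_eq_true_iff _ (_)]; rfl

theorem galleryAll_wG (d k : ℕ) (p : FF (Fin d)) :
    galleryAll (wG d k p) = true ↔ Guardable {x | sat x p} k := by
  rw [galleryAll_iff]
  refine ⟨fun ⟨d', k', q, h, hq⟩ => ?_, fun h => ⟨d, k, p, rfl, h⟩⟩
  have h1 := congrArg (fun l => (Rep.up l : Str × Str × List (ℤ × ℤ))) (bitEncode_injective h)
  simp only [up_G, Prod.mk.injEq, List.replicate_left_inj] at h1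
  obtain ⟨rfl, rfl, h2⟩ := h1
  rwa [← parse_G p, h2, parse_G]

theorem galleryAll_nil : galleryAll [] = false := by
  rw [Bool.eq_false_iff, Ne, galleryAll_iff]
  rintro ⟨d, k, p, h, _⟩
  have := bitDecode_bitEncode (List.replicate d true, List.replicate k true, p.toks (cG d))
  rw [show bitEncode (List.replicate d true, List.replicate k true, p.toks (cG d)) = [] from h.symm]
    at this
  cases this

/-! ### hardness -/

def mk {J : Type} (T u : J) (c : ℤ → J) (ls : List ℤ) (p : Fm (ℤ ⊕ Bool)) : FF J :=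
  .or (.and (.eq (tv T) (tc 0)) (.or (.not (.lt (tc 0) (tv u))) (.not (.lt (tv u) (tc 1)))))
    (.or (.and (.lt (tc 0) (tv T)) (.and (.not (.lt (tv u) (tc 0)))
      (.and (.lt (.add (tv T) (.mul (tc 2) (tv u))) (tc 2)) (.or (.not (.eq (tv u) (tc 0)))
        (.or (.not (.eq (tv T) (tc 1)))
          (p.bind (Sum.elim (fun v => tv (c v)) fun b => tc (bif b then 1 else 0))))))))
      (.and (.eq (tv u) (tc 0)) (.and (.eq (tv T) (tc 2))
        (fall (ls.filter fun v => decide (0 ≤ v)) fun v => .eq (tv (c v)) (tc 0)))))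

theorem mk_sat {D : ℕ} (T u : Fin D) (c : ℤ → Fin D) (ls : List ℤ) (p : Fm (ℤ ⊕ Bool)) :
    {z | sat z (mk T u c ls p)} =
      gal T u {i | ∃ v ∈ ls, 0 ≤ v ∧ c v = i} fun z => p.Holds (val01 fun v => z (c v)) := by
  ext z
  have e : sat z (p.bind (Sum.elim (fun v => tv (c v)) fun b => tc (bif b then 1 else 0)))
      ↔ p.Holds (val01 fun v => z (c v)) := by
    rw [sat, Fm.holds_bind]
    refine iff_of_eq (congrArg (fun v => p.Holds v) (funext ?_))
    rintro (v | (_ | _)) <;> simp [val01, val, tv, tc, Tm.eval]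
  simp only [mk, gal, Set.mem_ofPred_eq, sat_or, sat_and, sat_eq, sat_lt, sat_not, ev_tv, ev_tc,
    ev_add, ev_mul, e, sat_fall, List.mem_filter, decide_eq_true_eq, not_lt, Int.cast_zero,
    Int.cast_one, Int.cast_ofNat, ← imp_iff_not_or]
  refine or_congr Iff.rfl (or_congr Iff.rfl (and_congr Iff.rfl (and_congr Iff.rfl ?_)))
  exact ⟨fun h i ⟨v, h1, h2, h3⟩ => h3 ▸ h v ⟨h1, h2⟩, fun h v hv => h _ ⟨v, hv.1, hv.2, rfl⟩⟩

theorem mk_tk {D : ℕ} (T u : Fin D) (c : ℤ → Fin D) (ls : List ℤ) (p : Fm (ℤ ⊕ Bool)) :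
    (mk T u c ls p).tk (cG' D) =
      (mk (T.val : ℤ) (u.val : ℤ) (fun v => ((c v).val : ℤ)) ls p).tk c0 := by
  have e1 := Fm.tk_bind_congr (c := cG' D) (c' := c0)
    (σ := Sum.elim (fun v => tv (c v)) fun b => tc (bif b then 1 else 0))
    (σ' := Sum.elim (fun v => tv ((c v).val : ℤ)) fun b => tc (bif b then 1 else 0))
    (by rintro (v | b) <;> rfl) p
  have e2 : ∀ l : List ℤ, (fall l fun v => .eq (tv (c v)) (tc 0)).tk (cG' D) =
      (fall l fun v => .eq (tv ((c v).val : ℤ)) (tc 0)).tk c0 := by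
    intro l
    induction l with
    | nil => rfl
    | cons v l ih =>
      simp only [fall, List.map_cons, List.foldr_cons, Fm.tk] at ih ⊢
      rw [ih]; rfl
  simp only [mk, Fm.tk, e1, e2]
  rfl

def vars (p : Fm (ℤ ⊕ Bool)) : List ℤ := (p.tk cA').map Prod.snd

def co (ls : List ℤ) (v : ℤ) : Fin (ls.length + 3) :=
  ⟨ls.idxOf v + 2, by have := List.idxOf_le_length (l := ls) (a := v); omega⟩

theorem EA_iff (p : Fm (ℤ ⊕ Bool)) :
    EA p ↔ Guardable {z | sat z (mk 0 1 (co (vars p)) (vars p) p)} 2 := by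
  have cg : ∀ v v' : ℤ → ℝ, (∀ a ∈ vars p, v a = v' a) →
      (p.Holds (val01 v) ↔ p.Holds (val01 v')) := fun v v' h =>
    p.holds_congr cA' (by
      rintro (a | b) ha
      · exact h a (List.mem_map.2 ⟨_, ha, rfl⟩)
      · rfl)
  have gd : ∀ v ∈ vars p, (vars p).getD ((co (vars p) v).val - 2) 0 = v := fun v hv => by
    simp [co, List.getD_eq_getElem?_getD, List.getElem?_idxOf hv]
  rw [mk_sat, guardable_gal (by simp [Fin.ext_iff])
    (by rintro ⟨v, -, -, h⟩; simp [co, Fin.ext_iff] at h)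
    (by rintro ⟨v, -, -, h⟩; simp [co, Fin.ext_iff] at h)]
  constructor
  · rintro ⟨x, hx⟩
    refine ⟨fun i => x ((vars p).getD (i.val - 2) 0), fun z _ _ h => ?_⟩
    refine (cg _ _ fun a ha => ?_).1 (hx fun v => z (co (vars p) v))
    split_ifs with h0
    · rw [h _ ⟨a, ha, h0, rfl⟩]; simp only [gd a ha]
    · rfl
  · rintro ⟨x, hx⟩
    refine ⟨fun v => x (co (vars p) v), fun y => ?_⟩
    let w : ℤ → ℝ := fun i => if 0 ≤ i then x (co (vars p) i) else y i
    let z : Fin ((vars p).length + 3) → ℝ := fun i =>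
      if i.val = 0 then 1 else if i.val = 1 then 0 else w ((vars p).getD (i.val - 2) 0)
    have hz : ∀ v ∈ vars p, z (co (vars p) v) = w v := fun v hv => by
      simp only [z, gd v hv]
      rw [if_neg (by simp [co]), if_neg (by simp [co])]
    refine (cg _ _ hz).1 (hx z (by simp [z]) (by simp [z]) ?_)
    rintro _ ⟨v, h1, h2, rfl⟩
    rw [hz v h1]; exact if_pos h2

@[fun_prop] theorem pt_idxOf {α : Type} [Enc α] {l : α → List ℤ} {v : α → ℤ} (hl : PT l) (hv : PT v) :
    PT fun a => (l a).idxOf (v a) := by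
  have := PT.foldr_add' (f := fun a (b : ℤ) (n : ℕ) => if b = v a then 0 else n + 1)
    (g := fun _ _ => 1) hl (PT.const 0) (by fun_prop) (by fun_prop)
    (fun a b n => by split_ifs <;> simp)
  refine this.of_eq fun a => ?_
  induction l a with
  | nil => rfl
  | cons b l ih => simp [List.idxOf_cons, ih]

theorem eatr_le_galleryAll : N793a5b8e.ManyOneReducible eatr galleryAll := by
  have hp : PT (parseFm rA) := pt_parseFm (by unfold rA; fun_prop)
  have hi := pt_wA
  have hc := pt_cA'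
  have hv : PT vars := by unfold vars; fun_prop
  let f : Fm (ℤ ⊕ Bool) → Str := fun p => wG' ((vars p).length + 3, 2,
    mk (0 : ℤ) 1 (fun v => (((vars p).idxOf v + 2 : ℕ) : ℤ)) (vars p) p)
  have hf : PT f := pt_wG'.comp (by unfold mk; fun_prop)
  have h : ∀ p, EA p ↔ galleryAll (f p) = true := fun p => by
    rw [EA_iff, ← galleryAll_wG, wG_eq 2 (mk_tk _ _ _ _ _)]; rfl
  let rd : Str → Option (Fm (ℤ ⊕ Bool)) := fun w =>
    (((bitDecode w : Option (List (ℕ × ℤ))).map Rep.up : Option (List (ℤ × ℤ)))).map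
      fun q => parseFm rA q
  have hrd : PT rd := PT.option_map (PT.decode _ PT.id) (by fun_prop)
  have rd_in : ∀ a, rd (wA a) = some a := fun a => by
    simp only [rd, wA, bitDecode_bitEncode, Option.map_some, up_toks]
    exact congrArg some (parse_A a)
  refine manyOne_of_PT (f := fun w => (rd w).elim [] fun a => if w = wA a then f a else [])
    (by fun_prop) fun w => ?_
  rw [Bool.eq_iff_iff, eatr_iff]
  constructor
  · rintro ⟨p, rfl, hG⟩
    rw [rd_in]
    simpa using (h p).1 hG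
  · intro H
    rcases hw : rd w with _ | a
    · simp [hw, galleryAll_nil] at H
    · simp only [hw, Option.elim_some] at H
      split_ifs at H with e
      · exact ⟨a, e, (h a).2 H⟩
      · simp [galleryAll_nil] at H

/-! ### membership -/

section
variable {V W : Type} [Enc V] [Enc W]

def trLeaf2 : (V ⊕ W) ⊕ ℤ → Tm (ℤ ⊕ Bool) :=
  Sum.elim (Sum.elim (fun v => .leaf (.inl (name v : ℤ))) fun w => .leaf (.inl (-(name w : ℤ))))
    fun c => .add (binT c.toNat.bits) (.mul (.leaf (.inl 0)) (binT (-c).toNat.bits))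

def tr2 (p : FF (V ⊕ W)) : Fm (ℤ ⊕ Bool) :=
  .and (.eq (.add (.leaf (.inl 0)) (.leaf (.inr true))) (.leaf (.inr false))) (p.bind trLeaf2)

theorem pt_tr2 : PT (tr2 : FF (V ⊕ W) → _) := by
  have h1 : PT fun v : V => (name v : ℤ) := PT.int_of_bin (PT.bval (by fun_prop))
  have h1' : PT fun v : W => (name v : ℤ) := PT.int_of_bin (PT.bval (by fun_prop))
  have h0 : PT (Sum.elim (fun v : V => (.leaf (.inl (name v : ℤ)) : Tm (ℤ ⊕ Bool)))
      fun w : W => .leaf (.inl (-(name w : ℤ)))) :=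
    PT.sum_elim PT.id (pt_leaf (PT.inl (h1.comp (PT.snd PT.id))))
      (pt_leaf (PT.inl ((by fun_prop : PT fun z : ℤ => -z).comp (h1'.comp (PT.snd PT.id)))))
  have h2 : PT (trLeaf2 : (V ⊕ W) ⊕ ℤ → _) :=
    PT.sum_elim PT.id (h0.comp (PT.snd PT.id)) (by fun_prop)
  unfold tr2; fun_prop

theorem EA_tr2 (p : FF (V ⊕ W)) :
    EA (tr2 p) ↔ ∃ x : V → ℝ, ∀ y : W → ℝ, sat (Sum.elim x y) p := by
  classical
  have key : ∀ x y : ℤ → ℝ, x 0 = -1 →
      (fun a => (trLeaf2 a).eval (val01 fun i => if 0 ≤ i then x i else y i))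
      = val (Sum.elim (fun v : V => x (name v)) fun w : W => y (-(name w : ℤ))) := by
    intro x y hx
    funext a
    rcases a with (v | w) | c
    · simp [trLeaf2, Tm.eval, val01, val]
    · simp [trLeaf2, Tm.eval, val01, val, name_ne_zero]
    · simp only [trLeaf2, Sum.elim_inr, Tm.eval, eval_binT, bval_bits, val]
      have := Int.toNat_sub_toNat_neg c
      simp only [val01, Sum.elim_inl, le_refl, if_true, hx]
      conv_rhs => rw [← this]
      push_cast; ring
  constructor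
  · rintro ⟨x, h⟩
    refine ⟨fun v => x (name v), fun y => ?_⟩
    obtain ⟨h1, h2⟩ := h fun i => extend name y 0 (-i).toNat
    have hx : x 0 = -1 := by
      simp only [Fm.Holds, Tm.eval, val01] at h1
      simp at h1; linarith
    rw [Fm.holds_bind, key x _ hx] at h2
    simp only [neg_neg, Int.toNat_natCast, name_inj.extend_apply] at h2
    exact h2
  · rintro ⟨x, h⟩
    refine ⟨fun i => if i = 0 then -1 else extend name x 0 i.toNat, fun y =>
      ⟨by simp [Fm.Holds, Tm.eval, val01], ?_⟩⟩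
    rw [Fm.holds_bind, key (fun i => if i = 0 then -1 else extend name x 0 i.toNat) y (by simp)]
    simp only [Int.natCast_eq_zero, name_ne_zero, if_false, Int.toNat_natCast,
      name_inj.extend_apply]
    exact h _

end

def toFin (d : ℕ) (q : FF ℤ) : FF (Fin d) :=
  q.bind fun a => .leaf (Sum.elim
    (fun z : ℤ => if h : 0 ≤ z ∧ z < d then .inl ⟨z.toNat, by omega⟩ else .inr 0) .inr a)

def clip (d : ℕ) (q : FF ℤ) : FF ℤ :=
  q.bind fun a => .leaf (Sum.elim (fun z : ℤ => if 0 ≤ z ∧ z < d then .inl z else .inr 0) .inr a)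

def ofFin {d : ℕ} (p : FF (Fin d)) : FF ℤ :=
  p.bind fun a => .leaf (Sum.map (fun i => (i.val : ℤ)) id a)

theorem toFin_tk (d : ℕ) (q : FF ℤ) : (toFin d q).tk (cG' d) = (clip d q).tk c0 := by
  refine Fm.tk_bind_congr ?_ q
  rintro (z | c)
  · by_cases h : 0 ≤ z ∧ z < d
    · simp [h, Tm.tk, cG', cG, c0]
    · simp only [Sum.elim_inl, dif_neg h, if_neg h]; rfl
  · rfl

theorem sat_clip (d : ℕ) (q : FF ℤ) (g : ℤ → ℝ) :
    sat g (clip d q) ↔ sat (fun i : Fin d => g i.val) (toFin d q) := by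
  rw [sat, sat, clip, toFin, Fm.holds_bind, Fm.holds_bind]
  refine iff_of_eq (congrArg (fun v => q.Holds v) (funext ?_))
  rintro (z | c)
  · by_cases h : 0 ≤ z ∧ z < d
    · simp [h, Tm.eval, val]
    · simp only [Sum.elim_inl, dif_neg h, if_neg h]; rfl
  · rfl

theorem toFin_ofFin {d : ℕ} (p : FF (Fin d)) : toFin d (ofFin p) = p :=
  Fm.bind_inv (by rintro (i | c) <;> simp) p

theorem ofFin_tk {d : ℕ} (p : FF (Fin d)) : p.tk (cG' d) = (ofFin p).tk c0 := by
  rw [ofFin, Fm.tk_bind]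
  congr 1
  funext a; cases a <;> rfl

def memF (d k : ℕ) (q : FF ℤ) : FF ((ℕ × ℤ) ⊕ (ℤ ⊕ ℕ)) :=
  .and (fall (List.range k) fun b => fsb (fun i => tv (.inl (b, i))) q)
    (.and (fall (List.range k) fun b => fall (List.range k) fun c =>
        .or (.eq (tn b) (tn c)) (fex (List.range d) fun i =>
          .not (.eq (tv (.inl (b, (i : ℤ)))) (tv (.inl (c, (i : ℤ)))))))
      (fex (List.range (k + 1)) fun b => if b < k then
        .or (.or (.lt (tv (.inr (.inr b))) (tc 0)) (.lt (tc 1) (tv (.inr (.inr b)))))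
          (fsb (fun i => .add (.mul (tsub (tc 1) (tv (.inr (.inr b)))) (tv (.inr (.inl i))))
            (.mul (tv (.inr (.inr b))) (tv (.inl (b, i))))) q)
        else .not (fsb (fun i => tv (.inr (.inl i))) q)))

theorem memF_iff (d k : ℕ) (q : FF ℤ) :
    (∃ x, ∀ y, sat (Sum.elim x y) (memF d k (clip d q))) ↔
      Guardable {x | sat x (toFin d q)} k := by
  classical
  have hs : ∀ (x : ℕ × ℤ → ℝ) (y : ℤ ⊕ ℕ → ℝ), sat (Sum.elim x y) (memF d k (clip d q)) ↔
      (∀ b < k, sat (fun i : Fin d => x (b, i.val)) (toFin d q)) ∧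
      (∀ b < k, ∀ c < k, b = c ∨ ∃ i : Fin d, x (b, i.val) ≠ x (c, i.val)) ∧
      ∃ b ∈ List.range (k + 1), if b < k then (y (.inr b) < 0 ∨ 1 < y (.inr b)) ∨
        sat (fun i : Fin d => (1 - y (.inr b)) * y (.inl i.val) + y (.inr b) * x (b, i.val))
          (toFin d q) else ¬ sat (fun i : Fin d => y (.inl i.val)) (toFin d q) := by
    intro x y
    rw [memF, sat_and, sat_and, sat_fex]
    refine and_congr (by simp [sat_clip]) (and_congr ?_ (exists_congr fun b =>
      and_congr_right fun _ => ?_))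
    · simp [Fin.exists_iff]
    · split_ifs <;> simp [sat_clip]
  simp only [hs, guardable_iff, Set.mem_ofPred_eq]
  let ex : (Fin d → ℝ) → ℤ → ℝ := fun p z => if h : z.toNat < d then p ⟨z.toNat, h⟩ else 0
  have hex : ∀ p (i : Fin d), ex p i.val = p i := fun p i => by simp [ex]
  constructor
  · rintro ⟨x, h⟩
    refine ⟨fun a => x (a.1, a.2.val), (h 0).1, by simpa using (h 0).2.1, fun p => ?_⟩
    by_contra hc
    simp only [not_exists, not_and, not_forall] at hc
    choose! τ hτ using hc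
    obtain ⟨b, hb, H⟩ := (h (Sum.elim (ex p) τ)).2.2
    simp only [Sum.elim_inl, Sum.elim_inr, hex] at H
    exact hτ b hb H
  · rintro ⟨g, h1, h2, h3⟩
    refine ⟨fun a => ex (fun i => g (a.1, i)) a.2, fun y => ?_⟩
    simp only [hex]
    refine ⟨h1, by simpa using h2, ?_⟩
    obtain ⟨b, hb, H⟩ := h3 fun i => y (.inl i.val)
    exact ⟨b, hb, H _⟩

theorem galleryAll_le_eatr : N793a5b8e.ManyOneReducible galleryAll eatr := by
  have hp : PT (parseFm r0) := pt_parseFm (by unfold r0; fun_prop)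
  have hi := pt_wG'
  have hc : PT fun a : ℕ × ℕ × FF ℤ => clip a.1 a.2.2 := by unfold clip; fun_prop
  have hm : PT fun a : ℕ × ℕ × FF ℤ => memF a.1 a.2.1 a.2.2 := by unfold memF; fun_prop
  let cl : ℕ × ℕ × FF ℤ → ℕ × ℕ × FF ℤ := fun a => (a.1, a.2.1, clip a.1 a.2.2)
  have hcl : PT cl := by fun_prop
  let f : ℕ × ℕ × FF ℤ → Str := fun a => wA (tr2 (memF a.1 a.2.1 (clip a.1 a.2.2)))
  have hf : PT f := pt_wA.comp (pt_tr2.comp (hm.comp hcl))
  have h : ∀ a, Guardable {x | sat x (toFin a.1 a.2.2)} a.2.1 ↔ eatr (f a) = true := fun a => by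
    rw [eatr_wA, EA_tr2, memF_iff]
  have hin : PT fun a => wG' (cl a) := hi.comp hcl
  have e_in : ∀ a, wG' (cl a) = wG a.1 a.2.1 (toFin a.1 a.2.2) := fun a =>
    (wG_eq _ (toFin_tk _ _)).symm
  let rd : Str → Option (ℕ × ℕ × FF ℤ) := fun w =>
    (((bitDecode w : Option (Str × Str × List (ℕ × ℤ))).map Rep.up :
      Option (Str × Str × List (ℤ × ℤ)))).map
      fun q => (q.1.length, q.2.1.length, parseFm r0 q.2.2)
  have hrd : PT rd := PT.option_map (PT.decode _ PT.id) (by fun_prop)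
  have rd_in : ∀ d k p, rd (wG d k p) = some (d, k, ofFin p) := fun d k p => by
    simp only [rd, wG, bitDecode_bitEncode, Option.map_some, up_G, List.length_replicate,
      ofFin_tk, parse_0]
  refine manyOne_of_PT (f := fun w => (rd w).elim [] fun a => if w = wG' (cl a) then f a else [])
    (by fun_prop) fun w => ?_
  rw [Bool.eq_iff_iff, galleryAll_iff]
  constructor
  · rintro ⟨d, k, p, rfl, hG⟩
    rw [rd_in, Option.elim_some, e_in, toFin_ofFin, if_pos rfl, ← h, toFin_ofFin]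
    exact hG
  · intro H
    rcases hw : rd w with _ | a
    · simp [hw, eatr_nil] at H
    · simp only [hw, Option.elim_some] at H
      split_ifs at H with e
      · exact ⟨a.1, a.2.1, _, e.trans (e_in a), (h a).2 H⟩
      · simp [eatr_nil] at H

theorem manyOne_trans {A B C : N68a2faeb.DecisionProblem} (h : N793a5b8e.ManyOneReducible A B)
    (h' : N793a5b8e.ManyOneReducible B C) : N793a5b8e.ManyOneReducible A C := by
  obtain ⟨f, hf, e⟩ := h
  obtain ⟨g, hg, e'⟩ := h'
  exact ⟨fun x => g (f x), tm2_comp hf hg, fun x => (e x).trans (e' _)⟩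

end Pool.Agent.Lib.MP_42f8a6_lc
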